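import Pool.Agent.K7.H40.GP.Bd

/-!
Rational points in open sign cells.
-/

set_option autoImplicit false

open Finset MvPolynomial Pool.Agent.H558R2 Pool.Agent.H622R3.SM

namespace Pool.Agent.K7.H40.GP

/-- a bound for the roots -/
theorem root_bd {f : Polynomial ℤ} (hf : f ≠ 0) {t : ℝ} (h : Polynomial.aeval t f = 0) :
    |t| ≤ pn Int.natAbs f := by
  have hl : 1 ≤ |((f.leadingCoeff : ℤ) : ℝ)| := by
    have h1 : f.leadingCoeff ≠ 0 := Polynomial.leadingCoeff_ne_zero.2 hf
    have h2 : 1 ≤ |f.leadingCoeff| := Int.one_le_abs h1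
    exact_mod_cast h2
  have hp1 : (1 : ℝ) ≤ pn Int.natAbs f := by
    have h1 : 1 ≤ (f.coeff f.natDegree).natAbs :=
      Int.natAbs_pos.2 (Polynomial.leadingCoeff_ne_zero.2 hf)
    have h2 := h1.trans (coeff_le_pn isN_natAbs f f.natDegree)
    exact_mod_cast h2
  rcases le_or_gt |t| 1 with ht | ht
  · exact ht.trans hp1
  obtain ⟨d, hd⟩ : ∃ d, d = f.natDegree := ⟨_, rfl⟩
  have h0 := h
  rw [Polynomial.aeval_eq_sum_range, sum_range_succ] at h0
  have hd0 : d ≠ 0 := by
    intro hd0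
    rw [← hd, hd0, sum_range_zero, zero_add, pow_zero, zsmul_eq_mul, mul_one] at h0
    rw [Polynomial.leadingCoeff, ← hd, hd0, h0] at hl
    norm_num at hl
  have h1 : |t| ^ d ≤ (pn Int.natAbs f : ℝ) * |t| ^ (d - 1) := by
    have h2 : ((f.coeff f.natDegree : ℤ) : ℝ) * t ^ d = - ∑ k ∈ range d, ((f.coeff k : ℤ) : ℝ) * t ^ k := by
      rw [← hd] at h0 ⊢
      simp only [zsmul_eq_mul] at h0
      linarith
    have h3 : |t| ^ d ≤ |((f.coeff f.natDegree : ℤ) : ℝ) * t ^ d| := by
      rw [abs_mul, abs_pow]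
      have h4 : 0 ≤ |t| ^ d := by positivity
      calc |t| ^ d = 1 * |t| ^ d := (one_mul _).symm
        _ ≤ _ := mul_le_mul_of_nonneg_right hl h4
    refine h3.trans ?_
    rw [h2, abs_neg]
    refine (abs_sum_le_sum_abs _ _).trans ?_
    calc ∑ k ∈ range d, |((f.coeff k : ℤ) : ℝ) * t ^ k|
        ≤ ∑ k ∈ range d, ((f.coeff k).natAbs : ℝ) * |t| ^ (d - 1) := by
          refine sum_le_sum fun k hk => ?_
          rw [abs_mul, abs_pow]
          have e1 : |((f.coeff k : ℤ) : ℝ)| = ((f.coeff k).natAbs : ℝ) := by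
            rw [← Int.cast_abs, Int.abs_eq_natAbs]
            rfl
          rw [e1]
          apply mul_le_mul_of_nonneg_left _ (Nat.cast_nonneg _)
          exact pow_le_pow_right₀ ht.le (by have := mem_range.1 hk; omega)
      _ = ((∑ k ∈ range d, (f.coeff k).natAbs : ℕ) : ℝ) * |t| ^ (d - 1) := by
          push_cast
          rw [sum_mul]
      _ ≤ (pn Int.natAbs f : ℝ) * |t| ^ (d - 1) := by
          apply mul_le_mul_of_nonneg_right _ (by positivity)
          have h5 : ∑ k ∈ range d, (f.coeff k).natAbs ≤ pn Int.natAbs f := by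
            rw [pn_eq isN_natAbs f (s := f.support ∪ range d) subset_union_left]
            exact sum_le_sum_of_subset subset_union_right
          exact_mod_cast h5
  have h2 : |t| ^ d = |t| * |t| ^ (d - 1) := by
    rw [← pow_succ']
    congr 1
    omega
  rw [h2] at h1
  exact le_of_mul_le_mul_right h1 (by positivity)

variable {ι : Type*} [Fintype ι]

theorem mon_lip {R r : ℝ} (hR : 1 ≤ R) (hr : 0 ≤ r) {x y : ι → ℝ} (hx : ∀ i, |x i| ≤ R) (hy : ∀ i, |y i| ≤ R)
    (hxy : ∀ i, |x i - y i| ≤ r) : ∀ (n : ℕ) (a : ι →₀ ℕ), (∑ i, a i) = n →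
    |∏ i, x i ^ a i - ∏ i, y i ^ a i| ≤ n * R ^ n * r ∧ |∏ i, x i ^ a i| ≤ R ^ n ∧ |∏ i, y i ^ a i| ≤ R ^ n := by
  classical
  intro n
  induction n with
  | zero =>
    intro a ha
    have h0 : ∀ i, a i = 0 := fun i => by
      have := (sum_eq_zero_iff_of_nonneg (fun i _ => Nat.zero_le (a i))).1 ha i (mem_univ i)
      exact this
    simp [h0]
  | succ n ih =>
    intro a ha
    obtain ⟨i, hi⟩ : ∃ i, 0 < a i := by
      by_contra hcon
      push Not at hcon
      have : ∑ i, a i = 0 := sum_eq_zero fun i _ => Nat.le_zero.1 (hcon i)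
      omega
    obtain ⟨a', ha'⟩ : ∃ a' : ι →₀ ℕ, a' = a - Finsupp.single i 1 := ⟨_, rfl⟩
    have hmm : a = a' + Finsupp.single i 1 := by
      rw [ha', tsub_add_cancel_of_le]
      intro j
      by_cases hj : j = i
      · subst hj
        rw [Finsupp.single_eq_same]
        exact hi
      · rw [Finsupp.single_apply, if_neg (Ne.symm hj)]
        exact Nat.zero_le _
    have hsum : ∑ j, a' j = n := by
      have h1 : ∑ j, (Finsupp.single i 1) j = 1 := by
        rw [sum_eq_single i]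
        · simp
        · intro j _ hj
          rw [Finsupp.single_apply, if_neg (Ne.symm hj)]
        · intro h
          exact absurd (mem_univ _) h
      rw [hmm] at ha
      simp only [Finsupp.add_apply, sum_add_distrib] at ha
      rw [h1] at ha
      omega
    have hp : ∀ z : ι → ℝ, ∏ j, z j ^ a j = (∏ j, z j ^ a' j) * z i := by
      intro z
      rw [hmm]
      simp only [Finsupp.add_apply, pow_add, prod_mul_distrib]
      congr 1
      rw [prod_eq_single i]
      · simp
      · intro j _ hj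
        rw [Finsupp.single_apply, if_neg (Ne.symm hj), pow_zero]
      · intro h
        exact absurd (mem_univ _) h
    obtain ⟨h1, h2, h3⟩ := ih a' hsum
    rw [hp, hp]
    obtain ⟨u, hu⟩ : ∃ u, u = ∏ j, x j ^ a' j := ⟨_, rfl⟩
    obtain ⟨v, hv⟩ : ∃ v, v = ∏ j, y j ^ a' j := ⟨_, rfl⟩
    rw [← hu, ← hv] at h1
    rw [← hu] at h2
    rw [← hv] at h3
    rw [← hu, ← hv]
    have hRn : 1 ≤ R ^ n := one_le_pow₀ hR
    refine ⟨?_, ?_, ?_⟩
    · have e1 : u * x i - v * y i = (u - v) * x i + v * (x i - y i) := by ring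
      rw [e1]
      refine (abs_add_le _ _).trans ?_
      rw [abs_mul, abs_mul]
      have h4 : |u - v| * |x i| ≤ n * R ^ n * r * R :=
        mul_le_mul h1 (hx i) (abs_nonneg _) (by positivity)
      have h5 : |v| * |x i - y i| ≤ R ^ n * r := mul_le_mul h3 (hxy i) (abs_nonneg _) (by positivity)
      have h6 : R ^ n * r ≤ R ^ n * r * R := by
        have : 0 ≤ R ^ n * r := by positivity
        nlinarith
      push_cast
      calc _ ≤ n * R ^ n * r * R + R ^ n * r * R := by linarith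
        _ = _ := by ring
    · rw [abs_mul, pow_succ]
      exact mul_le_mul h2 (hx i) (abs_nonneg _) (by positivity)
    · rw [abs_mul, pow_succ]
      exact mul_le_mul h3 (hy i) (abs_nonneg _) (by positivity)

theorem poly_lip {R r : ℝ} (hR : 1 ≤ R) (hr : 0 ≤ r) {x y : ι → ℝ} (hx : ∀ i, |x i| ≤ R) (hy : ∀ i, |y i| ≤ R)
    (hxy : ∀ i, |x i - y i| ≤ r) (g : MvPolynomial ι ℤ) (D : ℕ) (hD : g.totalDegree ≤ D) :
    |aeval x g - aeval y g| ≤ mn g * (D * R ^ D * r) ∧ |aeval x g| ≤ mn g * R ^ D := by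
  have hdeg : ∀ c ∈ g.support, ∑ j, c j ≤ D := by
    intro c hc
    have h1 := MvPolynomial.le_totalDegree hc
    have h2 : (c.sum fun _ e => e) = ∑ j, c j := Finsupp.sum_fintype _ _ fun _ => rfl
    rw [h2] at h1
    exact h1.trans hD
  have hab : ∀ c : ℤ, |(algebraMap ℤ ℝ) c| = (c.natAbs : ℝ) := by
    intro c
    change |((c : ℤ) : ℝ)| = _
    rw [← Int.cast_abs, Int.abs_eq_natAbs]
    rfl
  unfold mn
  push_cast
  rw [aeval_def, aeval_def, eval₂_eq', eval₂_eq', ← sum_sub_distrib, sum_mul, sum_mul]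
  constructor
  · refine (abs_sum_le_sum_abs _ _).trans (sum_le_sum fun c hc => ?_)
    rw [← mul_sub, abs_mul, hab]
    apply mul_le_mul_of_nonneg_left _ (Nat.cast_nonneg _)
    refine (mon_lip hR hr hx hy hxy _ c rfl).1.trans ?_
    have h1 : ((∑ j, c j : ℕ) : ℝ) ≤ D := by exact_mod_cast hdeg c hc
    have h2 : R ^ (∑ j, c j) ≤ R ^ D := pow_le_pow_right₀ hR (hdeg c hc)
    have h3 : (0 : ℝ) ≤ R ^ (∑ j, c j) := by positivity
    apply mul_le_mul_of_nonneg_right _ hr
    exact mul_le_mul h1 h2 h3 (Nat.cast_nonneg _)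
  · refine (abs_sum_le_sum_abs _ _).trans (sum_le_sum fun c hc => ?_)
    rw [abs_mul, hab]
    apply mul_le_mul_of_nonneg_left _ (Nat.cast_nonneg _)
    exact (mon_lip hR hr hx hy hxy _ c rfl).2.1.trans (pow_le_pow_right₀ hR (hdeg c hc))

/-- the denominator of the approximation -/
def TT (R c d S : ℕ) : ℕ := R * (S * R ^ d) ^ c * (S * (d * (R + 1) ^ d)) + 1

theorem HH_mono {N N' : ℕ} (h : N ≤ N') (c d S : ℕ) (hK : 1 ≤ KK c d S) : HH N c d S ≤ HH N' c d S := by
  unfold HH
  have h1 : 1 ≤ 2 * (c * d + d + 1) + 1 := by omega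
  have h2 : (2 * (c * d + d + 1) + 1) ^ (N + 1) ≤ (2 * (c * d + d + 1) + 1) ^ (N' + 1) :=
    Nat.pow_le_pow_right h1 (by omega)
  apply Nat.mul_le_mul (Nat.factorial_le h2)
  calc _ ≤ (1 + KK c d S ^ ((N' + 1) * (2 * (c * d + d + 1) + 1))) ^ ((2 * (c * d + d + 1) + 1) ^ (N + 1)) := by
        apply Nat.pow_le_pow_left
        apply Nat.add_le_add_left
        exact Nat.pow_le_pow_right hK (Nat.mul_le_mul_right _ (by omega))
    _ ≤ _ := Nat.pow_le_pow_right (by omega) h2

/-- a rational point in an open sign cell -/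
theorem rational (Q : Finset (MvPolynomial ι ℤ)) (x0 : ι → ℝ) (c d S R : ℕ)
    (hc : Q.card ≤ c) (hd : ∀ g ∈ Q, g.totalDegree ≤ d) (hS : ∀ g ∈ Q, mn g ≤ S) (hS1 : 1 ≤ S)
    (h0 : ∀ g ∈ Q, aeval x0 g ≠ 0) (hR : HH (Fintype.card ι) c d S ≤ R) :
    ∃ z : ι → ℚ, (∀ g ∈ Q, SignType.sign (aeval (fun i => ((z i : ℚ) : ℝ)) g) = SignType.sign (aeval x0 g)) ∧
      ∀ i, (z i).num.natAbs ≤ (R + 1) * TT R c d S ∧ (z i).den ≤ TT R c d S := by
  classical
  obtain ⟨y, hy1, hy2, hy3⟩ := sample Q x0 c d S hc hd hS hS1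
  have hfil : Q.filter (fun g => aeval x0 g ≠ 0) = Q := filter_true_of_mem h0
  rw [hfil] at hy2
  have hyR : ∀ o, |y o| ≤ R := by
    intro o
    obtain ⟨f, h1, _, h3, h4⟩ := hy3 o
    refine (root_bd h1 h4).trans ?_
    exact_mod_cast h3.trans hR
  have hKpos : 1 ≤ KK c d S := by
    unfold KK
    have h1 : 0 < (S ^ c + 1) ^ 2 := by positivity
    have h2 : 0 < 2 * (c * d + d + 1) := by omega
    have h3 : 0 < c * S ^ 2 + (S ^ c + 1) ^ 2 := by omega
    exact Nat.mul_pos h2 h3
  have hR1 : 1 ≤ R := by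
    refine le_trans ?_ hR
    unfold HH
    exact Nat.mul_pos (Nat.factorial_pos _) (by positivity)
  have hR1' : (1 : ℝ) ≤ R := by exact_mod_cast hR1
  obtain ⟨T, hT⟩ : ∃ T, T = TT R c d S := ⟨_, rfl⟩
  have hTpos : 0 < T := by rw [hT]; unfold TT; omega
  have hTpos' : (0 : ℝ) < T := by exact_mod_cast hTpos
  obtain ⟨z, hz⟩ : ∃ z : ι → ℚ, z = fun i => ((⌊y (some i) * T⌋ : ℤ) : ℚ) / (T : ℚ) := ⟨_, rfl⟩
  have hzr : ∀ i, ((z i : ℚ) : ℝ) = (⌊y (some i) * T⌋ : ℝ) / T := by
    intro i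
    rw [hz]
    push_cast
    rfl
  have hclose : ∀ i, |((z i : ℚ) : ℝ) - y (some i)| ≤ 1 / T := by
    intro i
    rw [hzr]
    have h1 := Int.floor_le (y (some i) * T)
    have h2 := Int.lt_floor_add_one (y (some i) * T)
    have e : (⌊y (some i) * T⌋ : ℝ) / T - y (some i) = ((⌊y (some i) * T⌋ : ℝ) - y (some i) * T) / T := by
      field_simp
    rw [e, abs_div, abs_of_pos hTpos']
    apply div_le_div_of_nonneg_right _ hTpos'.le
    rw [abs_le]
    constructor <;> linarith
  have hT1 : (1 : ℝ) / T ≤ 1 := by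
    rw [div_le_one hTpos']
    exact_mod_cast hTpos
  have hzR : ∀ i, |((z i : ℚ) : ℝ)| ≤ R + 1 := by
    intro i
    have h1 := hclose i
    have h2 := hyR (some i)
    have h3 : |((z i : ℚ) : ℝ)| ≤ |((z i : ℚ) : ℝ) - y (some i)| + |y (some i)| := by
      have := abs_add_le (((z i : ℚ) : ℝ) - y (some i)) (y (some i))
      rwa [sub_add_cancel] at this
    linarith
  -- upper bounds for the values
  have hup : ∀ g ∈ Q, |aeval (fun i => y (some i)) g| ≤ S * R ^ d := by
    intro g hg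
    have h1 := (poly_lip (R := R) (r := 0) hR1' le_rfl (x := fun i => y (some i)) (y := fun i => y (some i))
      (fun i => hyR _) (fun i => hyR _) (fun i => by simp) g d (hd g hg)).2
    refine h1.trans ?_
    apply mul_le_mul_of_nonneg_right _ (by positivity)
    exact_mod_cast hS g hg
  have hSR : (1 : ℝ) ≤ S * R ^ d := by
    have h1 : (1 : ℝ) ≤ S := by exact_mod_cast hS1
    have h2 : (1 : ℝ) ≤ (R : ℝ) ^ d := one_le_pow₀ hR1'
    nlinarith
  have hlow : ∀ g ∈ Q, 1 ≤ (R * (S * R ^ d) ^ c) * |aeval (fun i => y (some i)) g| := by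
    intro g hg
    have h1 : |y none| * (|aeval (fun i => y (some i)) g| * ∏ f ∈ Q.erase g, |aeval (fun i => y (some i)) f|) = 1 := by
      rw [mul_prod_erase Q (fun f => |aeval (fun i => y (some i)) f|) hg, ← abs_prod, ← abs_mul, hy2, abs_one]
    have h2 : ∏ f ∈ Q.erase g, |aeval (fun i => y (some i)) f| ≤ (S * R ^ d) ^ c := by
      calc ∏ f ∈ Q.erase g, |aeval (fun i => y (some i)) f| ≤ ∏ _f ∈ Q.erase g, ((S : ℝ) * R ^ d) :=
            prod_le_prod (fun _ _ => abs_nonneg _) fun f hf => hup f (mem_of_mem_erase hf)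
        _ = (S * R ^ d) ^ (Q.erase g).card := by rw [prod_const]
        _ ≤ (S * R ^ d) ^ c := pow_le_pow_right₀ hSR ((card_le_card (erase_subset _ _)).trans hc)
    have h3 : 0 ≤ ∏ f ∈ Q.erase g, |aeval (fun i => y (some i)) f| := prod_nonneg fun _ _ => abs_nonneg _
    calc (1 : ℝ) = |y none| * (|aeval (fun i => y (some i)) g| * ∏ f ∈ Q.erase g, |aeval (fun i => y (some i)) f|) := h1.symm
      _ ≤ R * (|aeval (fun i => y (some i)) g| * (S * R ^ d) ^ c) := by
          apply mul_le_mul (hyR none) _ (by positivity) (by linarith)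
          exact mul_le_mul_of_nonneg_left h2 (abs_nonneg _)
      _ = _ := by ring
  refine ⟨z, fun g hg => ?_, fun i => ?_⟩
  · rw [← hy1 g hg]
    have h1 := (poly_lip (R := (R : ℝ) + 1) (r := 1 / T) (by linarith) (by positivity)
      (x := fun i => ((z i : ℚ) : ℝ)) (y := fun i => y (some i)) hzR
      (fun i => (hyR _).trans (by linarith)) hclose g d (hd g hg)).1
    have h2 : |aeval (fun i => ((z i : ℚ) : ℝ)) g - aeval (fun i => y (some i)) g| <
        |aeval (fun i => y (some i)) g| := by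
      refine lt_of_le_of_lt h1 ?_
      have h3 : (mn g : ℝ) * (d * ((R : ℝ) + 1) ^ d * (1 / T)) ≤ (S * (d * ((R : ℝ) + 1) ^ d)) / T := by
        rw [mul_one_div, ← mul_div_assoc]
        apply div_le_div_of_nonneg_right _ hTpos'.le
        apply mul_le_mul_of_nonneg_right _ (by positivity)
        exact_mod_cast hS g hg
      refine lt_of_le_of_lt h3 ?_
      rw [div_lt_iff₀ hTpos']
      have h4 : (T : ℝ) = R * (S * R ^ d) ^ c * (S * (d * ((R : ℝ) + 1) ^ d)) + 1 := by
        rw [hT]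
        unfold TT
        push_cast
        ring
      have h5 := hlow g hg
      have h6 : 0 < |aeval (fun i => y (some i)) g| := by
        rw [abs_pos]
        intro h7
        rw [h7, abs_zero, mul_zero] at h5
        linarith
      have h7 : 0 ≤ S * (d * ((R : ℝ) + 1) ^ d) := by positivity
      rw [h4]
      nlinarith [mul_le_mul_of_nonneg_right h5 h7]
    rcases lt_trichotomy 0 (aeval (fun i => y (some i)) g) with h3 | h3 | h3
    · rw [sign_pos h3]
      rw [abs_of_pos h3, abs_lt] at h2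
      exact sign_pos (by linarith [h2.1])
    · rw [← h3, abs_zero] at h2
      exact absurd h2 (not_lt.2 (abs_nonneg _))
    · rw [sign_neg h3]
      rw [abs_of_neg h3, abs_lt] at h2
      exact sign_neg (by linarith [h2.2])
  · have hden : (z i).den ≤ T := by
      have h1 : ((z i).den : ℤ) ∣ (T : ℤ) := by
        rw [hz]
        have := Rat.den_dvd (⌊y (some i) * T⌋) (T : ℤ)
        rw [Rat.divInt_eq_div] at this
        push_cast at this
        exact this
      exact Nat.le_of_dvd hTpos (by exact_mod_cast h1)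
    refine ⟨?_, by rw [← hT]; exact hden⟩
    have h1 : ((z i).num.natAbs : ℝ) = |((z i : ℚ) : ℝ)| * (z i).den := by
      have h2 : ((z i : ℚ) : ℝ) = ((z i).num : ℝ) / (z i).den := by exact_mod_cast (Rat.num_div_den (z i)).symm
      have h3 : (0 : ℝ) < (z i).den := by exact_mod_cast (z i).den_pos
      rw [h2, abs_div, abs_of_pos h3, div_mul_cancel₀ _ h3.ne', ← Int.cast_abs, Int.abs_eq_natAbs]
      rfl
    have h2 : ((z i).num.natAbs : ℝ) ≤ (R + 1) * T := by
      rw [h1]
      exact mul_le_mul (hzR i) (by exact_mod_cast hden) (Nat.cast_nonneg _) (by linarith)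
    rw [← hT]
    exact_mod_cast h2

end Pool.Agent.K7.H40.GP
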