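import Pool.Agent.K7.H40.GP.Tra

/-!
Bounds for degrees and heights.
-/

set_option autoImplicit false

namespace Pool.Agent.K7.H40.GP

/-- the logarithm of the bound for degree and bit size -/
def ww (m n s : ℕ) : ℕ := (2 * (s + m + n + 4) + 1) * (m + n + 1) ^ 2 + 8 * (s + m + n + 4) + 2

theorem lt2 (a : ℕ) : a < 2 ^ a := Nat.lt_two_pow_self

theorem EE_le (m n s : ℕ) : 2 * (cc m n s * 2 ^ (s + 1) + 2 ^ (s + 1) + 1) + 1 ≤ 2 ^ (2 * (s + m + n + 4) + 1) := by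
  obtain ⟨u, hu⟩ : ∃ u, u = s + m + n + 4 := ⟨_, rfl⟩
  rw [← hu]
  have h1 : cc m n s + 1 ≤ 2 * u := by
    unfold cc
    omega
  have h2 : u ≤ 2 ^ u := (lt2 u).le
  have h3 : 2 ^ (s + 4) ≤ 2 ^ u := Nat.pow_le_pow_right (by norm_num) (by omega)
  have h4 : 1 ≤ 2 ^ (s + 1) := Nat.one_le_two_pow
  have h5 : 2 ^ (s + 4) = 8 * 2 ^ (s + 1) := by
    rw [show s + 4 = (s + 1) + 3 by ring, pow_add]
    ring
  have h0 : 1 ≤ cc m n s + 1 := by omega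
  calc 2 * (cc m n s * 2 ^ (s + 1) + 2 ^ (s + 1) + 1) + 1
      ≤ 8 * ((cc m n s + 1) * 2 ^ (s + 1)) := by
        have : 1 ≤ (cc m n s + 1) * 2 ^ (s + 1) := Nat.mul_pos h0 h4
        nlinarith
    _ = (cc m n s + 1) * 2 ^ (s + 4) := by rw [h5]; ring
    _ ≤ (2 * 2 ^ u) * 2 ^ u := Nat.mul_le_mul (h1.trans (Nat.mul_le_mul_left _ h2)) h3
    _ = 2 ^ (2 * u + 1) := by
        rw [show 2 * u + 1 = u + u + 1 by ring, pow_add, pow_add]
        ring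

theorem card_le (m n : ℕ) : m * n + m + (m + n) + 1 ≤ (m + n + 1) ^ 2 := by nlinarith [Nat.zero_le (m * n)]

theorem BB_le (m n s : ℕ) : (2 * (cc m n s * 2 ^ (s + 1) + 2 ^ (s + 1) + 1) + 1) ^ (m * n + m + (m + n) + 1) ≤
    2 ^ ((2 * (s + m + n + 4) + 1) * (m + n + 1) ^ 2) := by
  calc _ ≤ (2 ^ (2 * (s + m + n + 4) + 1)) ^ (m * n + m + (m + n) + 1) := Nat.pow_le_pow_left (EE_le m n s) _
    _ = 2 ^ ((2 * (s + m + n + 4) + 1) * (m * n + m + (m + n) + 1)) := by rw [← pow_mul]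
    _ ≤ _ := Nat.pow_le_pow_right (by norm_num) (Nat.mul_le_mul_left _ (card_le m n))

theorem SS_le (m n s : ℕ) : hh s + (m + n + 1) ≤ 2 ^ 2 ^ (s + m + n + 4) := by
  have h1 := hh_le s
  have h2 : m + n + 1 < 2 ^ (m + n + 1) := lt2 _
  have h3 : m + n + 1 < 2 ^ 2 ^ (m + n + 1) := h2.trans (lt2 _)
  have h4 : 2 ^ 2 ^ (s + 1) ≤ 2 ^ 2 ^ (s + m + n + 3) :=
    Nat.pow_le_pow_right (by norm_num) (Nat.pow_le_pow_right (by norm_num) (by omega))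
  have h5 : 2 ^ 2 ^ (m + n + 1) ≤ 2 ^ 2 ^ (s + m + n + 3) :=
    Nat.pow_le_pow_right (by norm_num) (Nat.pow_le_pow_right (by norm_num) (by omega))
  have h6 : 2 * 2 ^ 2 ^ (s + m + n + 3) ≤ 2 ^ 2 ^ (s + m + n + 4) := by
    rw [← pow_succ']
    apply Nat.pow_le_pow_right (by norm_num)
    obtain ⟨k, hk⟩ : ∃ k, k = s + m + n + 3 := ⟨_, rfl⟩
    rw [show s + m + n + 4 = k + 1 by omega, ← hk, pow_succ 2 k]
    have : 1 ≤ 2 ^ k := Nat.one_le_two_pow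
    omega
  have h7 : m + n + 1 ≤ 2 ^ 2 ^ (s + m + n + 3) := h3.le.trans h5
  have h8 : hh s ≤ 2 ^ 2 ^ (s + m + n + 3) := by
    have h9 := h1.trans h4
    linarith
  linarith

theorem KK_le (m n s : ℕ) : KK (cc m n s) (2 ^ (s + 1)) (hh s + (m + n + 1)) ≤ 2 ^ 2 ^ (3 * (s + m + n + 4)) := by
  obtain ⟨u, hu⟩ : ∃ u, u = s + m + n + 4 := ⟨_, rfl⟩
  obtain ⟨S, hS⟩ : ∃ S, S = hh s + (m + n + 1) := ⟨_, rfl⟩
  obtain ⟨c, hc⟩ : ∃ c, c = cc m n s := ⟨_, rfl⟩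
  have hS1 : 1 ≤ S := by omega
  have hSu : S ≤ 2 ^ 2 ^ u := by rw [hS, hu]; exact SS_le m n s
  have hcu : c + 1 ≤ 2 * u := by
    rw [hc, hu]
    unfold cc
    omega
  have hE := EE_le m n s
  rw [← hc, ← hu] at hE
  unfold KK
  rw [← hc, ← hS, ← hu]
  have h1 : S ^ 2 ≤ S ^ (2 * c + 2) := Nat.pow_le_pow_right hS1 (by omega)
  have h2 : (S ^ c + 1) ^ 2 ≤ 4 * S ^ (2 * c + 2) := by
    have h3 : 1 ≤ S ^ c := Nat.one_le_pow _ _ hS1
    calc (S ^ c + 1) ^ 2 ≤ (2 * S ^ c) ^ 2 := Nat.pow_le_pow_left (by omega) 2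
      _ = 4 * S ^ (2 * c) := by rw [mul_pow, ← pow_mul]; ring_nf
      _ ≤ _ := Nat.mul_le_mul_left _ (Nat.pow_le_pow_right hS1 (by omega))
  have h4 : c * S ^ 2 + (S ^ c + 1) ^ 2 ≤ (c + 4) * S ^ (2 * c + 2) := by nlinarith
  have h5 : c + 4 ≤ 2 ^ (u + 2) := by
    have : u < 2 ^ u := lt2 u
    rw [pow_add]
    omega
  have h6 : S ^ (2 * c + 2) ≤ 2 ^ (2 ^ u * (4 * u)) := by
    calc S ^ (2 * c + 2) ≤ (2 ^ 2 ^ u) ^ (2 * c + 2) := Nat.pow_le_pow_left hSu _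
      _ = 2 ^ (2 ^ u * (2 * c + 2)) := by rw [← pow_mul]
      _ ≤ _ := Nat.pow_le_pow_right (by norm_num) (Nat.mul_le_mul_left _ (by omega))
  have h7 : 2 * (c * 2 ^ (s + 1) + 2 ^ (s + 1) + 1) ≤ 2 ^ (2 * u + 1) := by omega
  calc 2 * (c * 2 ^ (s + 1) + 2 ^ (s + 1) + 1) * (c * S ^ 2 + (S ^ c + 1) ^ 2)
      ≤ 2 ^ (2 * u + 1) * (2 ^ (u + 2) * 2 ^ (2 ^ u * (4 * u))) :=
        Nat.mul_le_mul h7 (h4.trans (Nat.mul_le_mul h5 h6))
    _ = 2 ^ (2 * u + 1 + (u + 2 + 2 ^ u * (4 * u))) := by rw [pow_add 2 (2 * u + 1), pow_add 2 (u + 2)]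
    _ ≤ 2 ^ 2 ^ (3 * u) := by
        apply Nat.pow_le_pow_right (by norm_num)
        have hu4 : 4 ≤ u := by omega
        have e1 : u < 2 ^ u := lt2 u
        obtain ⟨w, hw⟩ : ∃ w, w = 2 ^ u := ⟨_, rfl⟩
        have e3 : 2 ^ (3 * u) = w * w * w := by
          rw [hw, ← pow_add, ← pow_add]
          congr 1
          ring
        rw [e3, ← hw]
        rw [← hw] at e1
        have e4 : 16 ≤ w := by
          rw [hw]
          calc 16 = 2 ^ 4 := by norm_num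
            _ ≤ _ := Nat.pow_le_pow_right (by norm_num) hu4
        have e5 : w * (4 * u) ≤ 4 * (w * w) := by nlinarith
        have e6 : 16 * (w * w) ≤ w * w * w := by nlinarith [Nat.zero_le (w * w)]
        nlinarith

theorem HH_le (m n s : ℕ) : HH (m * n + m + (m + n)) (cc m n s) (2 ^ (s + 1)) (hh s + (m + n + 1)) ≤
    2 ^ 2 ^ ww m n s := by
  obtain ⟨u, hu⟩ : ∃ u, u = s + m + n + 4 := ⟨_, rfl⟩
  obtain ⟨M, hM⟩ : ∃ M, M = (m + n + 1) ^ 2 := ⟨_, rfl⟩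
  obtain ⟨E, hE⟩ : ∃ E, E = 2 * (cc m n s * 2 ^ (s + 1) + 2 ^ (s + 1) + 1) + 1 := ⟨_, rfl⟩
  obtain ⟨K, hK⟩ : ∃ K, K = KK (cc m n s) (2 ^ (s + 1)) (hh s + (m + n + 1)) := ⟨_, rfl⟩
  obtain ⟨B, hB⟩ : ∃ B, B = E ^ (m * n + m + (m + n) + 1) := ⟨_, rfl⟩
  have hE1 : E ≤ 2 ^ (2 * u + 1) := by rw [hE, hu]; exact EE_le m n s
  have hK1 : K ≤ 2 ^ 2 ^ (3 * u) := by rw [hK, hu]; exact KK_le m n s
  have hB1 : B ≤ 2 ^ ((2 * u + 1) * M) := by rw [hB, hE, hu, hM]; exact BB_le m n s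
  have hNM : m * n + m + (m + n) + 1 ≤ M := by rw [hM]; exact card_le m n
  have hMu : M ≤ 2 ^ (2 * u) := by
    rw [hM, show 2 * u = u + u by ring, pow_add, sq]
    have h1 : m + n + 1 ≤ 2 ^ u := by
      have := lt2 u
      omega
    exact Nat.mul_le_mul h1 h1
  unfold HH ww
  rw [← hE, ← hK, ← hB, ← hu, ← hM]
  have hMpos : 1 ≤ M := by rw [hM]; exact Nat.one_le_pow _ _ (by omega)
  -- the power of the bound
  have h1 : K ^ ((m * n + m + (m + n) + 1) * E) ≤ 2 ^ (2 ^ (3 * u) * (M * 2 ^ (2 * u + 1))) := by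
    calc K ^ ((m * n + m + (m + n) + 1) * E) ≤ (2 ^ 2 ^ (3 * u)) ^ ((m * n + m + (m + n) + 1) * E) :=
          Nat.pow_le_pow_left hK1 _
      _ = 2 ^ (2 ^ (3 * u) * ((m * n + m + (m + n) + 1) * E)) := by rw [← pow_mul]
      _ ≤ _ := Nat.pow_le_pow_right (by norm_num)
          (Nat.mul_le_mul_left _ (Nat.mul_le_mul hNM hE1))
  obtain ⟨e, he⟩ : ∃ e, e = 2 ^ (3 * u) * (M * 2 ^ (2 * u + 1)) := ⟨_, rfl⟩
  rw [← he] at h1
  have h2 : 1 + K ^ ((m * n + m + (m + n) + 1) * E) ≤ 2 ^ (e + 1) := by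
    rw [pow_succ]
    have := Nat.one_le_two_pow (n := e)
    omega
  have h3 : B.factorial ≤ 2 ^ ((2 * u + 1) * M * B) := by
    calc B.factorial ≤ B ^ B := Nat.factorial_le_pow B
      _ ≤ (2 ^ ((2 * u + 1) * M)) ^ B := Nat.pow_le_pow_left hB1 _
      _ = _ := by rw [← pow_mul]
  have h4 : (2 * u + 1) * M + (e + 1) ≤ 2 ^ (8 * u + 2) := by
    have e1 : u < 2 ^ u := lt2 u
    obtain ⟨w, hw⟩ : ∃ w, w = 2 ^ u := ⟨_, rfl⟩
    have hMw : M ≤ w * w := by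
      rw [hw, ← pow_add, ← two_mul]
      exact hMu
    have hew : e ≤ w * w * w * (w * w * (2 * (w * w))) := by
      rw [he]
      have a1 : 2 ^ (3 * u) = w * w * w := by
        rw [hw, ← pow_add, ← pow_add]
        congr 1
        ring
      have a2 : 2 ^ (2 * u + 1) = 2 * (w * w) := by
        rw [hw, ← pow_add, ← pow_succ']
        congr 1
        ring
      rw [a1, a2]
      exact Nat.mul_le_mul_left _ (Nat.mul_le_mul_right _ hMw)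
    have h8 : 2 ^ (8 * u + 2) = 4 * w ^ 8 := by
      rw [hw, ← pow_mul, pow_add]
      ring_nf
    have hw2 : 2 ≤ w := by
      rw [hw]
      calc 2 = 2 ^ 1 := rfl
        _ ≤ 2 ^ u := Nat.pow_le_pow_right (by norm_num) (by omega)
    rw [← hw] at e1
    rw [h8]
    have hew2 : e ≤ 2 * w ^ 7 := by
      refine hew.trans (le_of_eq ?_)
      ring
    have hl : (2 * u + 1) * M ≤ 2 * w ^ 3 := by
      calc (2 * u + 1) * M ≤ (2 * w) * (w * w) := Nat.mul_le_mul (by omega) hMw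
        _ = 2 * w ^ 3 := by ring
    have p1 : w ^ 3 ≤ w ^ 7 := Nat.pow_le_pow_right (by omega) (by norm_num)
    have p2 : 2 * w ^ 7 ≤ w ^ 8 := by
      rw [pow_succ w 7]
      nlinarith [Nat.zero_le (w ^ 7)]
    have p3 : 1 ≤ w ^ 7 := Nat.one_le_pow _ _ (by omega)
    omega
  calc B.factorial * (1 + K ^ ((m * n + m + (m + n) + 1) * E)) ^ B
      ≤ 2 ^ ((2 * u + 1) * M * B) * (2 ^ (e + 1)) ^ B := Nat.mul_le_mul h3 (Nat.pow_le_pow_left h2 _)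
    _ = 2 ^ (((2 * u + 1) * M + (e + 1)) * B) := by
        rw [← pow_mul, ← pow_add]
        congr 1
        ring
    _ ≤ 2 ^ 2 ^ ((2 * u + 1) * M + 8 * u + 2) := by
        apply Nat.pow_le_pow_right (by norm_num)
        calc ((2 * u + 1) * M + (e + 1)) * B ≤ 2 ^ (8 * u + 2) * 2 ^ ((2 * u + 1) * M) :=
              Nat.mul_le_mul h4 hB1
          _ = _ := by
              rw [← pow_add]
              congr 1
              ring

theorem BB_le' (m n s : ℕ) : (2 * (cc m n s * 2 ^ (s + 1) + 2 ^ (s + 1) + 1) + 1) ^ (m * n + m + (m + n) + 1) ≤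
    2 ^ ww m n s := by
  refine (BB_le m n s).trans (Nat.pow_le_pow_right (by norm_num) ?_)
  unfold ww
  omega

/-- the polynomial in the exponent -/
def QQ (N : ℕ) : ℕ := (2 * (N + 4) + 1) * (N + 1) ^ 2 + 8 * (N + 4) + 4

theorem ww_le (m n s : ℕ) : ww m n s + 2 ≤ (s + 1) * QQ (m + n) := by
  obtain ⟨N, hN⟩ : ∃ N, N = m + n := ⟨_, rfl⟩
  unfold ww QQ
  rw [show s + m + n + 4 = s + (N + 4) by omega, ← hN]
  obtain ⟨M, hM⟩ : ∃ M, M = (N + 1) ^ 2 := ⟨_, rfl⟩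
  rw [← hM]
  have h1 : 2 * (s + (N + 4)) + 1 ≤ (s + 1) * (2 * (N + 4) + 1) := by nlinarith [Nat.zero_le (s * N)]
  have h2 : (2 * (s + (N + 4)) + 1) * M ≤ (s + 1) * (2 * (N + 4) + 1) * M := Nat.mul_le_mul_right _ h1
  have h3 : 8 * (s + (N + 4)) + 4 ≤ (s + 1) * (8 * (N + 4) + 4) := by nlinarith [Nat.zero_le (s * N)]
  calc (2 * (s + (N + 4)) + 1) * M + 8 * (s + (N + 4)) + 2 + 2
      = (2 * (s + (N + 4)) + 1) * M + (8 * (s + (N + 4)) + 4) := by ring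
    _ ≤ (s + 1) * (2 * (N + 4) + 1) * M + (s + 1) * (8 * (N + 4) + 4) := Nat.add_le_add h2 h3
    _ = _ := by ring

end Pool.Agent.K7.H40.GP
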