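import Pool.Agent.K7.H40.GP.Red

/-!
Equations for the coordinates of solutions, and limits of solutions.
-/

set_option autoImplicit false

open Finset Polynomial Filter Topology

namespace Pool.Agent.K7.H40.GP

/-- constants inside -/
noncomputable def phi : ℤ[X] →+* ℤ[X][X] := Polynomial.mapRingHom (Polynomial.C : ℤ →+* ℤ[X])

/-- the inner variable -/
noncomputable def tt : ℤ[X][X] := Polynomial.C Polynomial.X

/-- evaluation: outer variable at `ε`, inner variable at `t` -/
noncomputable def ev (ε t : ℝ) : ℤ[X][X] →+* ℝ :=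
  Polynomial.eval₂RingHom (Polynomial.aeval t : ℤ[X] →ₐ[ℤ] ℝ).toRingHom ε

theorem ev_tt (ε t : ℝ) : ev ε t tt = t := by
  unfold ev tt
  simp

theorem ev_phi (ε t : ℝ) (p : ℤ[X]) : ev ε t (phi p) = aeval ε p := by
  unfold ev phi
  rw [Polynomial.coe_eval₂RingHom, Polynomial.coe_mapRingHom, Polynomial.eval₂_map, Polynomial.aeval_def]
  congr 1
  ext a
  simp

theorem ev_sum (ε t : ℝ) (p : ℤ[X][X]) : ev ε t p = ∑ k ∈ range (p.natDegree + 1), aeval t (p.coeff k) * ε ^ k := by
  unfold ev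
  rw [Polynomial.coe_eval₂RingHom, Polynomial.eval₂_eq_sum_range]
  rfl

theorem pn_phi (p : ℤ[X]) : pn (pn Int.natAbs) (phi p) ≤ pn Int.natAbs p := by
  have h1 : (phi p).support ⊆ p.support := by
    unfold phi
    exact Polynomial.support_map_subset _ _
  rw [pn_eq (isN_pn isN_natAbs) _ h1]
  unfold phi
  refine sum_le_sum fun i _ => ?_
  rw [Polynomial.coe_mapRingHom, Polynomial.coeff_map]
  exact pn_C isN_natAbs _

/-- inner degree at most `d` -/
def Dg (d : ℕ) (p : ℤ[X][X]) : Prop := ∀ k, (p.coeff k).natDegree ≤ d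

theorem Dg.mono {d d' : ℕ} {p : ℤ[X][X]} (h : Dg d p) (hd : d ≤ d') : Dg d' p := fun k => (h k).trans hd

theorem Dg.sum {d : ℕ} {β : Type*} (s : Finset β) (f : β → ℤ[X][X]) (h : ∀ i ∈ s, Dg d (f i)) :
    Dg d (∑ i ∈ s, f i) := by
  intro k
  rw [Polynomial.finsetSum_coeff]
  exact Polynomial.natDegree_sum_le_of_forall_le _ _ fun i hi => h i hi k

theorem Dg.mul {d d' : ℕ} {p q : ℤ[X][X]} (h : Dg d p) (h' : Dg d' q) : Dg (d + d') (p * q) := by
  intro k
  rw [Polynomial.coeff_mul]
  exact Polynomial.natDegree_sum_le_of_forall_le _ _ fun i _ =>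
    Polynomial.natDegree_mul_le.trans (Nat.add_le_add (h i.1) (h' i.2))

theorem Dg.neg {d : ℕ} {p : ℤ[X][X]} (h : Dg d p) : Dg d (-p) := by
  intro k
  rw [Polynomial.coeff_neg, Polynomial.natDegree_neg]
  exact h k

theorem Dg.one : Dg 0 1 := by
  intro k
  rw [Polynomial.coeff_one]
  split_ifs <;> simp

theorem Dg.prod {d : ℕ} {β : Type*} (s : Finset β) (f : β → ℤ[X][X]) (h : ∀ i ∈ s, Dg d (f i)) :
    Dg (s.card * d) (∏ i ∈ s, f i) := by
  classical
  induction s using Finset.induction_on with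
  | empty => simpa using Dg.one
  | insert a s ha ih =>
    rw [prod_insert ha, card_insert_of_notMem ha, Nat.add_mul, Nat.one_mul, Nat.add_comm]
    exact (h a (mem_insert_self _ _)).mul (ih fun i hi => h i (mem_insert_of_mem hi))

theorem Dg.det {d : ℕ} {n : Type*} [Fintype n] [DecidableEq n] (A : Matrix n n ℤ[X][X])
    (hA : ∀ i j, Dg d (A i j)) : Dg (Fintype.card n * d) A.det := by
  rw [Matrix.det_apply]
  apply Dg.sum
  intro σ _
  have h1 : Dg (Fintype.card n * d) (∏ i, A (σ i) i) := by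
    have := Dg.prod (d := d) univ (fun i => A (σ i) i) fun i _ => hA _ _
    rwa [card_univ] at this
  rcases Int.units_eq_one_or (Equiv.Perm.sign σ) with h3 | h3
  · rw [h3, one_smul]
    exact h1
  · rw [h3, Units.neg_smul, one_smul]
    exact h1.neg

/-- the equation for the coordinate `i` of the solutions -/
theorem char_eq {ι : Type*} [Fintype ι] (E : ℕ) (h : ι → MvPolynomial ι ℤ)
    (hE : ∀ i, (h i).totalDegree < E) (K : ℕ) (hK : 1 ≤ K) (hmn : ∀ i, mn (h i) ≤ K) (i : ι) :
    ∃ χ : ℤ[X][X], χ ≠ 0 ∧ (∀ (ε : ℝ) (z : ι → ℝ), Sol E h ε z → ev ε (z i) χ = 0) ∧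
      Dg (E ^ Fintype.card ι) χ ∧
      pn (pn Int.natAbs) χ ≤ (E ^ Fintype.card ι).factorial * (1 + K ^ (Fintype.card ι * E)) ^ (E ^ Fintype.card ι) := by
  classical
  obtain ⟨M, hM1, hM2⟩ := mul_matrix E h hE K hK hmn i
  have hcard : Fintype.card (ι → Fin E) = E ^ Fintype.card ι := by simp
  obtain ⟨A, hA⟩ : ∃ A : Matrix (ι → Fin E) (ι → Fin E) ℤ[X][X], A = Matrix.scalar _ tt - M.map phi := ⟨_, rfl⟩
  have hAe : ∀ b b', A b b' = (if b = b' then tt else 0) - phi (M b b') := by
    intro b b'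
    rw [hA, Matrix.sub_apply, Matrix.scalar_apply, Matrix.diagonal_apply, Matrix.map_apply]
  refine ⟨A.det, ?_, ?_, ?_, ?_⟩
  · intro h0
    have h1 : (Polynomial.evalRingHom (0 : ℤ[X])).mapMatrix A =
        (M.map (fun p => p.eval 0)).charmatrix := by
      ext1 b b'
      rw [RingHom.mapMatrix_apply, Matrix.map_apply, hAe, Matrix.charmatrix_apply, Matrix.diagonal_apply, Matrix.map_apply, map_sub]
      congr 1
      · split_ifs
        · unfold tt
          simp
        · simp
      · unfold phi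
        rw [Polynomial.coe_mapRingHom, Polynomial.coe_evalRingHom, Polynomial.eval_map, ← Polynomial.C_0,
          Polynomial.eval₂_at_apply]
    have h2 : (Polynomial.evalRingHom (0 : ℤ[X])) A.det = (M.map (fun p => p.eval 0)).charpoly := by
      rw [RingHom.map_det, h1]
      rfl
    rw [h0, map_zero] at h2
    exact (Matrix.charpoly_monic _).ne_zero h2.symm
  · intro ε z hz
    rw [RingHom.map_det]
    rw [← Matrix.exists_mulVec_eq_zero_iff]
    refine ⟨fun b => ∏ j, z j ^ (b j : ℕ), ?_, ?_⟩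
    · intro h0
      have hE0 : 0 < E := by
        have := hE i
        omega
      have := congrFun h0 (fun _ => ⟨0, hE0⟩)
      simp at this
    · funext b
      rw [Matrix.mulVec, dotProduct]
      have h1 : ∀ b', (ev ε (z i)).mapMatrix A b b' * ∏ j, z j ^ (b' j : ℕ) =
          (if b = b' then z i * ∏ j, z j ^ (b' j : ℕ) else 0) - aeval ε (M b b') * ∏ j, z j ^ (b' j : ℕ) := by
        intro b'
        rw [RingHom.mapMatrix_apply, Matrix.map_apply, hAe, map_sub, ev_phi, sub_mul]
        congr 1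
        split_ifs
        · rw [ev_tt]
        · rw [map_zero, zero_mul]
      rw [sum_congr rfl fun b' _ => h1 b', sum_sub_distrib, sum_ite_eq, if_pos (mem_univ _), hM2 ε z hz b,
        sub_self]
      rfl
  · have := Dg.det (d := 1) A fun b b' => by
      intro k
      rw [hAe, Polynomial.coeff_sub]
      refine (Polynomial.natDegree_sub_le _ _).trans (max_le ?_ ?_)
      · split_ifs
        · unfold tt
          rw [Polynomial.coeff_C]
          split_ifs
          · exact Polynomial.natDegree_X_le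
          · simp
        · simp
      · unfold phi
        rw [Polynomial.coe_mapRingHom, Polynomial.coeff_map]
        simp
    rwa [hcard, mul_one] at this
  · have := (isN_pn (isN_pn isN_natAbs)).det A (1 + K ^ (Fintype.card ι * E)) fun b b' => by
      rw [hAe]
      refine ((isN_pn (isN_pn isN_natAbs)).sub _ _).trans (Nat.add_le_add ?_ ((pn_phi _).trans (hM1 b b')))
      split_ifs
      · unfold tt
        exact (pn_C (isN_pn isN_natAbs) _).trans (pn_X isN_natAbs)
      · rw [(isN_pn (isN_pn isN_natAbs)).zero]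
        exact Nat.zero_le _
    rwa [hcard] at this

/-- limits of solutions -/
theorem lim_eq {χ : ℤ[X][X]} (e t : ℕ → ℝ) (he : Tendsto (fun n => |e n|) atTop atTop) {t0 : ℝ}
    (ht : Tendsto t atTop (𝓝 t0)) (h0 : ∀ᶠ n in atTop, ev (e n) (t n) χ = 0) : aeval t0 χ.leadingCoeff = 0 := by
  obtain ⟨d, hd⟩ : ∃ d, d = χ.natDegree := ⟨_, rfl⟩
  have hcont : ∀ k, Tendsto (fun n => aeval (t n) (χ.coeff k)) atTop (𝓝 (aeval t0 (χ.coeff k))) := by
    intro k
    exact ((Polynomial.continuous_aeval (χ.coeff k)).tendsto t0).comp ht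
  have hinv : Tendsto (fun n => (e n)⁻¹) atTop (𝓝 0) := by
    rw [tendsto_zero_iff_abs_tendsto_zero]
    have : (fun n => |(e n)⁻¹|) = fun n => |e n|⁻¹ := by
      funext n
      rw [abs_inv]
    change Tendsto (fun n => |(e n)⁻¹|) atTop (𝓝 0)
    rw [this]
    exact he.inv_tendsto_atTop
  have hlow : Tendsto (fun n => ∑ k ∈ range d, aeval (t n) (χ.coeff k) * (e n)⁻¹ ^ (d - k)) atTop (𝓝 0) := by
    rw [← sum_const_zero (s := range d)]
    refine tendsto_finsetSum _ fun k hk => ?_
    have h1 : 0 < d - k := by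
      have := mem_range.1 hk
      omega
    have h2 := (hcont k).mul (hinv.pow (d - k))
    rwa [zero_pow h1.ne', mul_zero] at h2
  have heq : ∀ᶠ n in atTop, aeval (t n) (χ.coeff d) = - ∑ k ∈ range d, aeval (t n) (χ.coeff k) * (e n)⁻¹ ^ (d - k) := by
    filter_upwards [h0, he.eventually_gt_atTop 0] with n hn hen
    have hne : e n ≠ 0 := abs_pos.1 hen
    rw [ev_sum, ← hd, sum_range_succ] at hn
    have h1 : ∑ k ∈ range d, aeval (t n) (χ.coeff k) * (e n)⁻¹ ^ (d - k) =
        (∑ k ∈ range d, aeval (t n) (χ.coeff k) * (e n) ^ k) * (e n)⁻¹ ^ d := by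
      rw [sum_mul]
      refine sum_congr rfl fun k hk => ?_
      have h3 := mem_range.1 hk
      have h4 : (e n)⁻¹ ^ d = (e n)⁻¹ ^ (d - k) * (e n)⁻¹ ^ k := by
        rw [← pow_add]
        congr 1
        omega
      have h5 : (e n) ^ k * (e n)⁻¹ ^ k = 1 := by
        rw [← mul_pow, mul_inv_cancel₀ hne, one_pow]
      rw [h4]
      calc aeval (t n) (χ.coeff k) * (e n)⁻¹ ^ (d - k)
          = aeval (t n) (χ.coeff k) * (e n)⁻¹ ^ (d - k) * ((e n) ^ k * (e n)⁻¹ ^ k) := by rw [h5, mul_one]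
        _ = _ := by ring
    have h6 : (∑ k ∈ range d, aeval (t n) (χ.coeff k) * (e n) ^ k) = - (aeval (t n) (χ.coeff d) * (e n) ^ d) := by
      linarith
    rw [h1, h6]
    have h5 : (e n) ^ d * (e n)⁻¹ ^ d = 1 := by
      rw [← mul_pow, mul_inv_cancel₀ hne, one_pow]
    rw [neg_mul, neg_neg, mul_assoc, h5, mul_one]
  have h1 := (hcont d).congr' heq
  have h2 := hlow.neg
  rw [neg_zero] at h2
  have h3 := tendsto_nhds_unique h1 h2
  rw [Polynomial.leadingCoeff, ← hd]
  exact h3

end Pool.Agent.K7.H40.GP
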