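import Pool.Agent.K7.H40.GP.Main

/-!
Algorithms of bounded degree.
-/

set_option autoImplicit false

open Finset MvPolynomial Pool.Agent.H558R2 Pool.Agent.H622R3.SM

namespace Pool.Agent.K7.H40.GP

open Classical in
/-- the algorithm reaches, from the store `ρ0`, the beginning of the block after the outcomes `h`, with the
store `ρ` -/
inductive Reach (O : Set (List Bool)) (β : List Outcome → List Instr × Test) (ρ0 : Reg → ℝ) :
    List Outcome → (Reg → ℝ) → Prop
  | nil : Reach O β ρ0 [] ρ0
  | sign {h : List Outcome} {ρ ρ' : Reg → ℝ} {nums : List ℝ} {r : Reg} : Reach O β ρ0 h ρ →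
      exec (β h).1 ρ = some (ρ', nums) → (β h).2 = Test.sign r → Reach O β ρ0 (h ++ [signOut (ρ' r)]) ρ'
  | ask {h : List Outcome} {ρ ρ' : Reg → ℝ} {nums : List ℝ} {w : List Bool} : Reach O β ρ0 h ρ →
      exec (β h).1 ρ = some (ρ', nums) → (β h).2 = Test.ask w →
      Reach O β ρ0 (h ++ [some (decide (w ∈ O))]) ρ'

/-- a polynomial of degree at most `2 ^ j`, the sum of the absolute values of the coefficients being at most
`2 ^ 2 ^ j` -/
def Lw {ι : Type*} (j : ℕ) (g : MvPolynomial ι ℤ) : Prop := g.totalDegree ≤ 2 ^ j ∧ mn g ≤ 2 ^ 2 ^ j

/-- the variables -/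
abbrev Vr (m n : ℕ) : Type := (Fin m × Fin n) ⊕ Fin m

/-- along every path all registers contain fractions of small degree in the entries -/
def LowDeg (O : Set (List Bool)) {m n : ℕ} (β : List Outcome → List Instr × Test) (j : ℕ) : Prop :=
  ∀ (h : List Outcome) (t : ℕ) (r : Reg), ∃ P Q : MvPolynomial (Vr m n) ℤ, Lw j P ∧ Lw j Q ∧
    ∀ (x : Vr m n → ℝ) (ρ ρ' : Reg → ℝ) (nums : List ℝ),
      Reach O β (start (fun i j => x (Sum.inl (i, j))) (fun i => x (Sum.inr i))) h ρ →
      exec ((β h).1.take t) ρ = some (ρ', nums) → aeval x Q ≠ 0 ∧ ρ' r = aeval x P / aeval x Q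

/-- failure of a block -/
theorem exec_none : ∀ (P : List Instr) (ρ : Reg → ℝ), exec P ρ = none ↔
    ∃ (t : ℕ) (I : Instr) (ρ' : Reg → ℝ) (nums : List ℝ), P[t]? = some I ∧
      exec (P.take t) ρ = some (ρ', nums) ∧ I.op = Op.div ∧ ρ' I.snd = 0 := by
  intro P
  induction P with
  | nil =>
    intro ρ
    constructor
    · intro h
      rw [exec] at h
      exact absurd h (by simp)
    · rintro ⟨t, I, ρ', nums, h1, _⟩
      exact absurd h1 (by simp)
  | cons J P ih =>
    intro ρ
    constructor
    · intro h
      rw [exec] at h
      split_ifs at h with hd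
      · exact ⟨0, J, ρ, [], by simp, by rw [List.take_zero, exec], hd.1, hd.2⟩
      · rw [Option.map_eq_none_iff, ih] at h
        obtain ⟨t, I, ρ', nums, h1, h2, h3, h4⟩ := h
        refine ⟨t + 1, I, ρ', J.op.eval (ρ J.fst) (ρ J.snd) :: nums, by simpa using h1, ?_, h3, h4⟩
        rw [List.take_succ_cons, exec, if_neg hd, h2]
        rfl
    · rintro ⟨t, I, ρ', nums, h1, h2, h3, h4⟩
      cases t with
      | zero =>
        rw [List.take_zero, exec, Option.some.injEq, Prod.mk.injEq] at h2
        have h5 : J = I := by simpa using h1
        rw [exec, if_pos]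
        rw [h5]
        refine ⟨h3, ?_⟩
        rw [h2.1]
        exact h4
      | succ t =>
        rw [List.take_succ_cons, exec] at h2
        split_ifs at h2 with hd
        rw [Option.map_eq_some_iff] at h2
        obtain ⟨q, h5, h6⟩ := h2
        rw [exec, if_neg hd, Option.map_eq_none_iff, ih]
        refine ⟨t, I, q.1, q.2, by simpa using h1, h5, h3, ?_⟩
        rw [Prod.mk.injEq] at h6
        rw [h6.1]
        exact h4

/-- prefixes of a successful block -/
theorem exec_take : ∀ (P : List Instr) (ρ : Reg → ℝ) (r : (Reg → ℝ) × List ℝ), exec P ρ = some r → ∀ t,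
    ∃ r', exec (P.take t) ρ = some r' := by
  intro P
  induction P with
  | nil =>
    intro ρ r h t
    exact ⟨r, by rw [List.take_nil]; exact h⟩
  | cons J P ih =>
    intro ρ r h t
    cases t with
    | zero => exact ⟨(ρ, []), by rw [List.take_zero, exec]⟩
    | succ t =>
      rw [exec] at h
      split_ifs at h with hd
      rw [Option.map_eq_some_iff] at h
      obtain ⟨q, h5, _⟩ := h
      obtain ⟨r', hr'⟩ := ih _ _ h5 t
      exact ⟨(r'.1, J.op.eval (ρ J.fst) (ρ J.snd) :: r'.2), by rw [List.take_succ_cons, exec, if_neg hd, hr']; rfl⟩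

theorem sign_frac {p q p0 q0 : ℝ} (h1 : SignType.sign p = SignType.sign p0)
    (h2 : SignType.sign q = SignType.sign q0) : signOut (p / q) = signOut (p0 / q0) := by
  have h3 : SignType.sign (p / q) = SignType.sign (p0 / q0) := by
    rw [div_eq_mul_inv, div_eq_mul_inv, sign_mul, sign_mul, h1, sign_inv', sign_inv', h2]
  unfold signOut
  rcases lt_trichotomy 0 (p0 / q0) with hv | hv | hv
  · have hu : 0 < p / q := by rwa [sign_pos hv, sign_eq_one_iff] at h3
    rw [if_pos hu, if_pos hv]
  · have hu : p / q = 0 := by rwa [← hv, sign_zero, sign_eq_zero_iff] at h3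
    rw [hu, ← hv]
  · have hu : p / q < 0 := by rwa [sign_neg hv, sign_eq_neg_one_iff] at h3
    rw [if_neg (not_lt.2 hu.le), if_neg (not_lt.2 hv.le), if_pos hu, if_pos hv]

open Classical in
theorem sim_low (O : Set (List Bool)) {m n : ℕ} (β : List Outcome → List Instr × Test) (j : ℕ)
    (hLD : LowDeg O (m := m) (n := n) β j) (x0 : Vr m n → ℝ) :
    ∀ (s : ℕ) (h : List Outcome) (ρ0 : Reg → ℝ),
    Reach O β (start (fun i j => x0 (Sum.inl (i, j))) (fun i => x0 (Sum.inr i))) h ρ0 →
    ∃ L : List (MvPolynomial (Vr m n) ℤ), L.length ≤ 2 * s + 2 ∧ (∀ g ∈ L, Lw j g) ∧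
      ∀ (x : Vr m n → ℝ) (ρ : Reg → ℝ),
        Reach O β (start (fun i j => x (Sum.inl (i, j))) (fun i => x (Sum.inr i))) h ρ → Agree L x x0 →
        ∀ (k : ℕ) (ans : Bool) (nums : List ℝ) (steps : ℕ),
        run O β k h ρ = some (ans, nums, steps) → steps ≤ s →
        ∃ nums', run O β k h ρ0 = some (ans, nums', steps) := by
  choose FP FQ hFP hFQ hF using hLD
  intro s
  induction s using Nat.strong_induction_on with
  | _ s ih =>
    intro h ρ0 hR0
    have hlen : ∀ (ρ : Reg → ℝ) (k : ℕ) (ans : Bool) (nums : List ℝ) (steps : ℕ),
        run O β k h ρ = some (ans, nums, steps) → (β h).1.length ≤ steps := by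
      intro ρ k ans nums steps hr
      cases k with
      | zero => rw [run] at hr; exact absurd hr (by simp)
      | succ k =>
        rw [run, Option.bind_eq_some_iff] at hr
        obtain ⟨r, hr1, hr2⟩ := hr
        have hl := exec_len _ _ _ hr1
        cases ht : (β h).2 with
        | answer a =>
          rw [ht] at hr2
          simp only [Option.some.injEq, Prod.mk.injEq] at hr2
          omega
        | sign y =>
          rw [ht] at hr2
          simp only [Option.map_eq_some_iff, Prod.mk.injEq] at hr2
          obtain ⟨_, _, _, _, h3⟩ := hr2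
          omega
        | ask w =>
          rw [ht] at hr2
          simp only [Option.map_eq_some_iff, Prod.mk.injEq] at hr2
          obtain ⟨_, _, _, _, h3⟩ := hr2
          omega
    rcases lt_or_ge s (β h).1.length with hs | hs
    · refine ⟨[], by simp, fun g hg => absurd hg List.not_mem_nil, fun x ρ _ _ k ans nums steps hr hle => ?_⟩
      have := hlen ρ k ans nums steps hr
      omega
    -- the divisors
    obtain ⟨L1, hL1⟩ : ∃ L1 : List (MvPolynomial (Vr m n) ℤ), L1 = List.ofFn (fun t : Fin (β h).1.length =>
      FP h t ((β h).1[t]).snd) := ⟨_, rfl⟩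
    have hL1l : L1.length = (β h).1.length := by rw [hL1, List.length_ofFn]
    have hL1v : ∀ g ∈ L1, Lw j g := by
      intro g hg
      rw [hL1, List.mem_ofFn] at hg
      obtain ⟨t, rfl⟩ := hg
      exact hFP _ _ _
    have hL1e : ∀ (x : Vr m n → ℝ) (ρ : Reg → ℝ),
        Reach O β (start (fun i j => x (Sum.inl (i, j))) (fun i => x (Sum.inr i))) h ρ → Agree L1 x x0 →
        exec (β h).1 ρ0 = none → exec (β h).1 ρ = none := by
      intro x ρ hR hA h0
      rw [exec_none] at h0
      obtain ⟨t, I, ρ', nums, h1, h2, h3, h4⟩ := h0
      by_contra hne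
      obtain ⟨r, hr⟩ := Option.ne_none_iff_exists'.1 hne
      obtain ⟨r', hr'⟩ := exec_take _ _ _ hr t
      have e0 := hF h t I.snd x0 ρ0 ρ' nums hR0 h2
      have e1 := hF h t I.snd x ρ r'.1 r'.2 hR hr'
      have htl : t < (β h).1.length := by
        by_contra hcon
        rw [List.getElem?_eq_none (by omega)] at h1
        exact absurd h1 (by simp)
      have hI : (β h).1[t] = I := by
        rw [List.getElem?_eq_getElem htl, Option.some.injEq] at h1
        exact h1
      have hmem : FP h t I.snd ∈ L1 := by
        rw [hL1, List.mem_ofFn]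
        refine ⟨⟨t, htl⟩, ?_⟩
        change FP h t ((β h).1[t]).snd = _
        rw [hI]
      have hp0 : aeval x0 (FP h t I.snd) = 0 := by
        have h5 := e0.2
        rw [h4] at h5
        rcases div_eq_zero_iff.1 h5.symm with h6 | h6
        · exact h6
        · exact absurd h6 e0.1
      have hp : aeval x (FP h t I.snd) = 0 := by
        have h5 := hA _ hmem
        rw [hp0, sign_zero] at h5
        exact sign_eq_zero_iff.1 h5
      apply hne
      rw [exec_none]
      refine ⟨t, I, r'.1, r'.2, h1, hr', h3, ?_⟩
      rw [e1.2, hp, zero_div]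
    cases hex : exec (β h).1 ρ0 with
    | none =>
      refine ⟨L1, by omega, hL1v, fun x ρ hR hA k ans nums steps hr hle => ?_⟩
      cases k with
      | zero => rw [run] at hr; exact absurd hr (by simp)
      | succ k =>
        rw [run, hL1e x ρ hR hA hex] at hr
        exact absurd hr (by simp)
    | some r0 =>
      obtain ⟨ρ1, n0⟩ := r0
      have hn0l : n0.length = (β h).1.length := exec_len _ _ _ hex
      cases ht : (β h).2 with
      | answer a =>
        refine ⟨L1, by omega, hL1v, fun x ρ hR hA k ans nums steps hr hle => ?_⟩
        cases k with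
        | zero => rw [run] at hr; exact absurd hr (by simp)
        | succ k =>
          rw [run, Option.bind_eq_some_iff] at hr
          obtain ⟨r, hr1, hr2⟩ := hr
          have hl := exec_len _ _ _ hr1
          rw [ht] at hr2
          simp only [Option.some.injEq, Prod.mk.injEq] at hr2
          refine ⟨n0, ?_⟩
          rw [run, hex, ht]
          simp only [Option.bind_some, Option.some.injEq, Prod.mk.injEq, true_and]
          exact ⟨hr2.1, by omega⟩
      | sign y =>
        rcases Nat.lt_or_ge s ((β h).1.length + 1) with hs2 | hs2
        · refine ⟨[], by simp, fun g hg => absurd hg List.not_mem_nil, fun x ρ _ _ k ans nums steps hr hle => ?_⟩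
          exfalso
          cases k with
          | zero => rw [run] at hr; exact absurd hr (by simp)
          | succ k =>
            rw [run, Option.bind_eq_some_iff] at hr
            obtain ⟨r, hr1, hr2⟩ := hr
            have hl := exec_len _ _ _ hr1
            rw [ht] at hr2
            simp only [Option.map_eq_some_iff, Prod.mk.injEq] at hr2
            obtain ⟨_, _, _, _, h3⟩ := hr2
            omega
        · obtain ⟨L3, hL3, hL3v, hL3c⟩ := ih (s - (β h).1.length - 1) (by omega)
            (h ++ [signOut (ρ1 y)]) ρ1 (Reach.sign hR0 hex ht)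
          refine ⟨L1 ++ ([FP h (β h).1.length y, FQ h (β h).1.length y] ++ L3), ?_, ?_, ?_⟩
          · rw [List.length_append, List.length_append]
            simp only [List.length_cons, List.length_nil]
            omega
          · intro g hg
            rcases List.mem_append.1 hg with hg | hg
            · exact hL1v g hg
            · rcases List.mem_append.1 hg with hg | hg
              · simp only [List.mem_cons, List.not_mem_nil, or_false] at hg
                rcases hg with hg | hg
                · rw [hg]; exact hFP _ _ _
                · rw [hg]; exact hFQ _ _ _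
              · exact hL3v g hg
          · intro x ρ hR hA k ans nums steps hr hle
            cases k with
            | zero => rw [run] at hr; exact absurd hr (by simp)
            | succ k =>
              rw [run, Option.bind_eq_some_iff] at hr
              obtain ⟨⟨ρ2, n2⟩, hr1, hr2⟩ := hr
              have hl := exec_len _ _ _ hr1
              have e0 := hF h (β h).1.length y x0 ρ0 ρ1 n0 hR0 (by rw [List.take_length]; exact hex)
              have e1 := hF h (β h).1.length y x ρ ρ2 n2 hR (by rw [List.take_length]; exact hr1)
              have hso : signOut (ρ2 y) = signOut (ρ1 y) := by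
                rw [e0.2, e1.2]
                exact sign_frac (hA.right.left _ (by simp)) (hA.right.left _ (by simp))
              rw [ht] at hr2
              simp only [Option.map_eq_some_iff, Prod.mk.injEq] at hr2
              obtain ⟨⟨a1, nn, st⟩, h1, h2, h3, h4⟩ := hr2
              simp only at h2 h3 h4 hl
              have hR2 := Reach.sign hR hr1 ht
              rw [hso] at h1 hR2
              obtain ⟨nums', h5⟩ := hL3c x ρ2 hR2 hA.right.right k a1 nn st h1 (by omega)
              refine ⟨n0 ++ nums', ?_⟩
              rw [run, hex, ht]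
              simp only [Option.bind_some]
              rw [h5]
              simp only [Option.map_some, Option.some.injEq, Prod.mk.injEq, true_and]
              exact ⟨h2, by omega⟩
      | ask w =>
        rcases Nat.lt_or_ge s ((β h).1.length + 1) with hs2 | hs2
        · refine ⟨[], by simp, fun g hg => absurd hg List.not_mem_nil, fun x ρ _ _ k ans nums steps hr hle => ?_⟩
          exfalso
          cases k with
          | zero => rw [run] at hr; exact absurd hr (by simp)
          | succ k =>
            rw [run, Option.bind_eq_some_iff] at hr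
            obtain ⟨r, hr1, hr2⟩ := hr
            have hl := exec_len _ _ _ hr1
            rw [ht] at hr2
            simp only [Option.map_eq_some_iff, Prod.mk.injEq] at hr2
            obtain ⟨_, _, _, _, h3⟩ := hr2
            omega
        · obtain ⟨L3, hL3, hL3v, hL3c⟩ := ih (s - (β h).1.length - 1) (by omega)
            (h ++ [some (decide (w ∈ O))]) ρ1 (Reach.ask hR0 hex ht)
          refine ⟨L1 ++ L3, ?_, ?_, ?_⟩
          · rw [List.length_append]
            omega
          · intro g hg
            rcases List.mem_append.1 hg with hg | hg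
            · exact hL1v g hg
            · exact hL3v g hg
          · intro x ρ hR hA k ans nums steps hr hle
            cases k with
            | zero => rw [run] at hr; exact absurd hr (by simp)
            | succ k =>
              rw [run, Option.bind_eq_some_iff] at hr
              obtain ⟨⟨ρ2, n2⟩, hr1, hr2⟩ := hr
              have hl := exec_len _ _ _ hr1
              rw [ht] at hr2
              simp only [Option.map_eq_some_iff, Prod.mk.injEq] at hr2
              obtain ⟨⟨a1, nn, st⟩, h1, h2, h3, h4⟩ := hr2
              simp only at h2 h3 h4 hl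
              obtain ⟨nums', h5⟩ := hL3c x ρ2 (Reach.ask hR hr1 ht) hA.right k a1 nn st h1 (by omega)
              refine ⟨n0 ++ nums', ?_⟩
              rw [run, hex, ht]
              simp only [Option.bind_some]
              rw [h5]
              simp only [Option.map_some, Option.some.injEq, Prod.mk.injEq, true_and]
              exact ⟨h2, by omega⟩

end Pool.Agent.K7.H40.GP
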