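import Pool.Agent.K7.H40.GP.Low

/-!
Algorithms of bounded degree: transfer and bounds.
-/

set_option autoImplicit false

open Finset MvPolynomial Pool.Agent.H558R2 Pool.Agent.H622R3.SM

namespace Pool.Agent.K7.H40.GP

/-- **Transfer** for a list of polynomials in the entries -/
theorem transfer' {m n : ℕ} (A : Matrix (Fin m) (Fin n) ℝ) (b : Fin m → ℝ) (L : List (MvPolynomial (Vr m n) ℤ))
    (c d S : ℕ) (hc : L.length + (m + n + 1) ≤ c) (hd : ∀ g ∈ L, g.totalDegree ≤ d) (hd2 : 2 ≤ d)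
    (hS : ∀ g ∈ L, mn g ≤ S) (hS2 : m + n + 1 ≤ S) :
    ∃ (A' : Matrix (Fin m) (Fin n) ℝ) (b' : Fin m → ℝ),
      (∀ i j, AlgB ((2 * (c * d + d + 1) + 1) ^ (m * n + m + (m + n) + 1)) (HH (m * n + m + (m + n)) c d S)
        (A' i j)) ∧
      (∀ i, AlgB ((2 * (c * d + d + 1) + 1) ^ (m * n + m + (m + n) + 1)) (HH (m * n + m + (m + n)) c d S)
        (b' i)) ∧
      (Feas A' b' ↔ Feas A b) ∧ Agree L (Sum.elim (fun p => A' p.1 p.2) b') (Sum.elim (fun p => A p.1 p.2) b) := by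
  classical
  have hcard : Fintype.card (Var m n) = m * n + m + (m + n) := by simp
  have hinj : Function.Injective (Sum.inl : Vr m n → Var m n) := Sum.inl_injective
  -- the general step
  have key : ∀ (x0 : Var m n → ℝ) (L' : List (MvPolynomial (Var m n) ℤ)),
      (fun v : Vr m n => x0 (Sum.inl v)) = Sum.elim (fun p => A p.1 p.2) b → L'.length ≤ m + n + 1 →
      (∀ g ∈ L', g.totalDegree ≤ 2 ∧ mn g ≤ m + n + 1) →
      ∃ x : Var m n → ℝ, Agree L' x x0 ∧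
        (∀ v, AlgB ((2 * (c * d + d + 1) + 1) ^ (m * n + m + (m + n) + 1)) (HH (m * n + m + (m + n)) c d S) (x v)) ∧
        Agree L (fun v : Vr m n => x (Sum.inl v)) (Sum.elim (fun p => A p.1 p.2) b) := by
    intro x0 L' hx0 hL' hL'b
    obtain ⟨y, hy1, _, hy3⟩ := sample (L.map (rename (Sum.inl : Vr m n → Var m n)) ++ L').toFinset x0 c d S
      (by
        refine (List.toFinset_card_le _).trans ?_
        rw [List.length_append, List.length_map]
        omega)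
      (by
        intro g hg
        rw [List.mem_toFinset, List.mem_append, List.mem_map] at hg
        rcases hg with ⟨f, hf, rfl⟩ | hg
        · exact (totalDegree_rename_le _ _).trans (hd f hf)
        · exact (hL'b g hg).1.trans hd2)
      (by
        intro g hg
        rw [List.mem_toFinset, List.mem_append, List.mem_map] at hg
        rcases hg with ⟨f, hf, rfl⟩ | hg
        · exact (mn_rename _ hinj f).trans (hS f hf)
        · exact (hL'b g hg).2.trans hS2)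
      (by omega)
    rw [hcard] at hy3
    have hag : Agree (L.map (rename (Sum.inl : Vr m n → Var m n)) ++ L') (fun i => y (some i)) x0 :=
      fun g hg => hy1 g (List.mem_toFinset.2 hg)
    refine ⟨fun i => y (some i), hag.right, fun v => hy3 (some v), fun g hg => ?_⟩
    have h1 := hag.left (rename Sum.inl g) (List.mem_map.2 ⟨g, hg, rfl⟩)
    rw [aeval_rename, aeval_rename] at h1
    have h2 : (x0 ∘ (Sum.inl : Vr m n → Var m n)) = Sum.elim (fun p => A p.1 p.2) b := hx0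
    rw [h2] at h1
    exact h1
  have hvr : ∀ z : Var m n → ℝ, (fun v : Vr m n => z (Sum.inl v)) =
      Sum.elim (fun p => (fun i j => z (vA i j)) p.1 p.2) (fun i => z (vb i)) := by
    intro z
    funext v
    rcases v with ⟨i, j⟩ | i <;> rfl
  by_cases hF : Feas A b
  · obtain ⟨x, hx⟩ := hF
    obtain ⟨x0, hx0⟩ : ∃ x0 : Var m n → ℝ, x0 = Sum.elim (Sum.elim (fun p => A p.1 p.2) b) (Sum.elim 0 x) :=
      ⟨_, rfl⟩
    obtain ⟨z, hz1, hz2, hz3⟩ := key x0 (fl m n) (by rw [hx0]; rfl) (fl_bd m n).1 (fl_bd m n).2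
    rw [hvr z] at hz3
    refine ⟨fun i j => z (vA i j), fun i => z (vb i), fun i j => hz2 _, fun i => hz2 _, ?_, hz3⟩
    have h1 : Feas (fun i j => z (vA i j)) (fun i => z (vb i)) := by
      refine ⟨fun j => z (vx j), fun i => ?_⟩
      have h2 := hz1 (∑ j : Fin n, X (vA i j) * X (vx j) - X (vb i)) (by
        rw [fl, List.mem_ofFn]
        exact ⟨i, rfl⟩)
      have h3 : ∀ w : Var m n → ℝ, aeval w (∑ j : Fin n, X (vA i j) * X (vx j) - X (vb i) : MvPolynomial (Var m n) ℤ) =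
          ∑ j : Fin n, w (vA i j) * w (vx j) - w (vb i) := by
        intro w
        rw [map_sub, map_sum, aeval_X]
        congr 1
        refine sum_congr rfl fun j _ => ?_
        rw [map_mul, aeval_X, aeval_X]
      rw [h3, h3] at h2
      have h4 : 0 ≤ ∑ j : Fin n, x0 (vA i j) * x0 (vx j) - x0 (vb i) := by
        rw [hx0, sub_nonneg]
        exact hx i
      have h5 : 0 ≤ ∑ j : Fin n, z (vA i j) * z (vx j) - z (vb i) := by
        rw [← sign_nonneg_iff, h2, sign_nonneg_iff]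
        exact h4
      rw [sub_nonneg] at h5
      exact h5
    exact ⟨fun _ => ⟨x, hx⟩, fun _ => h1⟩
  · obtain ⟨y, hy1, hy2, hy3⟩ := (not_feas A b).1 hF
    obtain ⟨x0, hx0⟩ : ∃ x0 : Var m n → ℝ, x0 = Sum.elim (Sum.elim (fun p => A p.1 p.2) b) (Sum.elim y 0) :=
      ⟨_, rfl⟩
    obtain ⟨z, hz1, hz2, hz3⟩ := key x0 (gl m n) (by rw [hx0]; rfl) (gl_bd m n).1 (gl_bd m n).2
    rw [hvr z] at hz3
    refine ⟨fun i j => z (vA i j), fun i => z (vb i), fun i j => hz2 _, fun i => hz2 _, ?_, hz3⟩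
    have h1 : ¬ Feas (fun i j => z (vA i j)) (fun i => z (vb i)) := by
      rw [not_feas]
      have hs : ∀ (w : Var m n → ℝ) (f : Fin m → Var m n),
          aeval w (∑ i : Fin m, X (vy i) * X (f i) : MvPolynomial (Var m n) ℤ) = ∑ i, w (vy i) * w (f i) := by
        intro w f
        rw [map_sum]
        refine sum_congr rfl fun j _ => ?_
        rw [map_mul, aeval_X, aeval_X]
      refine ⟨fun i => z (vy i), fun i => ?_, fun j => ?_, ?_⟩
      · have h2 := hz1 (X (vy i)) (by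
          rw [gl, List.mem_append, List.mem_append, List.mem_ofFn]
          exact Or.inl (Or.inl ⟨i, rfl⟩))
        rw [aeval_X, aeval_X] at h2
        rw [← sign_nonneg_iff, h2, sign_nonneg_iff, hx0]
        exact hy1 i
      · have h2 := hz1 (∑ i : Fin m, X (vy i) * X (vA i j)) (by
          rw [gl, List.mem_append, List.mem_append, List.mem_ofFn, List.mem_ofFn]
          exact Or.inl (Or.inr ⟨j, rfl⟩))
        rw [hs _ (fun i => vA i j), hs _ (fun i => vA i j)] at h2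
        have h3 : ∑ i, x0 (vy i) * x0 (vA i j) = 0 := by
          rw [hx0]
          exact hy2 j
        rw [h3, sign_zero] at h2
        exact sign_eq_zero_iff.1 h2
      · have h2 := hz1 (∑ i : Fin m, X (vy i) * X (vb i)) (by
          rw [gl, List.mem_append, List.mem_singleton]
          exact Or.inr rfl)
        rw [hs _ (fun i => vb i), hs _ (fun i => vb i)] at h2
        have h3 : 0 < ∑ i, x0 (vy i) * x0 (vb i) := by
          rw [hx0]
          exact hy3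
        rw [sign_pos h3] at h2
        exact sign_eq_one_iff.1 h2
    exact ⟨fun h => absurd h h1, fun h => absurd h hF⟩

/-- general bounds -/
theorem HH_gen {N c d S l M : ℕ} (hc : c + 1 ≤ 2 ^ l) (hd1 : 1 ≤ d) (hd : d ≤ 2 ^ l) (hS1 : 1 ≤ S)
    (hS : S ≤ 2 ^ 2 ^ l) (hN : N + 1 ≤ M) (hM : M ≤ 2 ^ l) :
    (2 * (c * d + d + 1) + 1) ^ (N + 1) ≤ 2 ^ ((2 * l + 3) * M + 5 * l + 8) ∧
      HH N c d S ≤ 2 ^ 2 ^ ((2 * l + 3) * M + 5 * l + 8) := by
  obtain ⟨E, hE⟩ : ∃ E, E = 2 * (c * d + d + 1) + 1 := ⟨_, rfl⟩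
  obtain ⟨K, hK⟩ : ∃ K, K = KK c d S := ⟨_, rfl⟩
  obtain ⟨w, hw⟩ : ∃ w, w = 2 ^ l := ⟨_, rfl⟩
  have hw1 : 1 ≤ w := by rw [hw]; exact Nat.one_le_two_pow
  have hE1 : E ≤ 2 ^ (2 * l + 3) := by
    have h1 : (c + 1) * d ≤ w * w := Nat.mul_le_mul (by rw [hw]; exact hc) (by rw [hw]; exact hd)
    have h2 : 1 ≤ (c + 1) * d := Nat.mul_pos (by omega) hd1
    have h3 : 2 ^ (2 * l + 3) = 8 * (w * w) := by
      rw [hw, ← pow_add, pow_add]
      ring
    rw [hE, h3]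
    nlinarith
  have hc1 : c + 1 ≤ w := by rw [hw]; exact hc
  have hK1 : K ≤ 2 ^ 2 ^ (2 * l + 4) := by
    rw [hK]
    unfold KK
    have h1 : S ^ 2 ≤ S ^ (2 * c + 2) := Nat.pow_le_pow_right hS1 (by omega)
    have h2 : (S ^ c + 1) ^ 2 ≤ 4 * S ^ (2 * c + 2) := by
      have h3 : 1 ≤ S ^ c := Nat.one_le_pow _ _ hS1
      calc (S ^ c + 1) ^ 2 ≤ (2 * S ^ c) ^ 2 := Nat.pow_le_pow_left (by omega) 2
        _ = 4 * S ^ (2 * c) := by rw [mul_pow, ← pow_mul]; ring_nf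
        _ ≤ _ := Nat.mul_le_mul_left _ (Nat.pow_le_pow_right hS1 (by omega))
    have h4 : c * S ^ 2 + (S ^ c + 1) ^ 2 ≤ (c + 4) * S ^ (2 * c + 2) := by nlinarith
    have h5 : c + 4 ≤ 2 ^ (l + 2) := by
      rw [pow_add, ← hw]
      omega
    have h6 : S ^ (2 * c + 2) ≤ 2 ^ (w * (2 * w)) := by
      calc S ^ (2 * c + 2) ≤ (2 ^ 2 ^ l) ^ (2 * c + 2) := Nat.pow_le_pow_left hS _
        _ = 2 ^ (w * (2 * c + 2)) := by rw [← pow_mul, hw]
        _ ≤ _ := Nat.pow_le_pow_right (by norm_num) (Nat.mul_le_mul_left _ (by omega))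
    have h7 : 2 * (c * d + d + 1) ≤ 2 ^ (2 * l + 3) := by omega
    calc 2 * (c * d + d + 1) * (c * S ^ 2 + (S ^ c + 1) ^ 2)
        ≤ 2 ^ (2 * l + 3) * (2 ^ (l + 2) * 2 ^ (w * (2 * w))) :=
          Nat.mul_le_mul h7 (h4.trans (Nat.mul_le_mul h5 h6))
      _ = 2 ^ (2 * l + 3 + (l + 2 + w * (2 * w))) := by rw [pow_add 2 (2 * l + 3), pow_add 2 (l + 2)]
      _ ≤ 2 ^ 2 ^ (2 * l + 4) := by
          apply Nat.pow_le_pow_right (by norm_num)
          have e1 : l < w := by rw [hw]; exact lt2 l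
          have e3 : 2 ^ (2 * l + 4) = 16 * (w * w) := by
            rw [hw, ← pow_add, pow_add]
            ring
          rw [e3]
          nlinarith
  have hB1 : E ^ (N + 1) ≤ 2 ^ ((2 * l + 3) * M) := by
    calc E ^ (N + 1) ≤ (2 ^ (2 * l + 3)) ^ (N + 1) := Nat.pow_le_pow_left hE1 _
      _ = 2 ^ ((2 * l + 3) * (N + 1)) := by rw [← pow_mul]
      _ ≤ _ := Nat.pow_le_pow_right (by norm_num) (Nat.mul_le_mul_left _ hN)
  rw [← hE]
  refine ⟨hB1.trans (Nat.pow_le_pow_right (by norm_num) (by omega)), ?_⟩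
  obtain ⟨B, hB⟩ : ∃ B, B = E ^ (N + 1) := ⟨_, rfl⟩
  unfold HH
  rw [← hE, ← hK, ← hB]
  rw [← hB] at hB1
  have hMw : M ≤ w := by rw [hw]; exact hM
  have hM1 : 1 ≤ M := by omega
  have h1 : K ^ ((N + 1) * E) ≤ 2 ^ (2 ^ (2 * l + 4) * (M * 2 ^ (2 * l + 3))) := by
    calc K ^ ((N + 1) * E) ≤ (2 ^ 2 ^ (2 * l + 4)) ^ ((N + 1) * E) := Nat.pow_le_pow_left hK1 _
      _ = 2 ^ (2 ^ (2 * l + 4) * ((N + 1) * E)) := by rw [← pow_mul]
      _ ≤ _ := Nat.pow_le_pow_right (by norm_num)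
          (Nat.mul_le_mul_left _ (Nat.mul_le_mul hN hE1))
  obtain ⟨e, he⟩ : ∃ e, e = 2 ^ (2 * l + 4) * (M * 2 ^ (2 * l + 3)) := ⟨_, rfl⟩
  rw [← he] at h1
  have h2 : 1 + K ^ ((N + 1) * E) ≤ 2 ^ (e + 1) := by
    have := two_succ e
    omega
  have h3 : B.factorial ≤ 2 ^ ((2 * l + 3) * M * B) := by
    calc B.factorial ≤ B ^ B := Nat.factorial_le_pow B
      _ ≤ (2 ^ ((2 * l + 3) * M)) ^ B := Nat.pow_le_pow_left hB1 _
      _ = _ := by rw [← pow_mul]
  have h4 : (2 * l + 3) * M + (e + 1) ≤ 2 ^ (5 * l + 8) := by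
    have e1 : l < w := by rw [hw]; exact lt2 l
    have a1 : 2 ^ (2 * l + 4) = 16 * (w * w) := by
      rw [hw, ← pow_add, pow_add]
      ring
    have a2 : 2 ^ (2 * l + 3) = 8 * (w * w) := by
      rw [hw, ← pow_add, pow_add]
      ring
    have a3 : 2 ^ (5 * l + 8) = 256 * w ^ 5 := by
      rw [hw, ← pow_mul, pow_add]
      ring
    rw [a3, he, a1, a2]
    have b1 : 16 * (w * w) * (M * (8 * (w * w))) ≤ 128 * w ^ 5 := by
      calc 16 * (w * w) * (M * (8 * (w * w))) ≤ 16 * (w * w) * (w * (8 * (w * w))) :=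
            Nat.mul_le_mul_left _ (Nat.mul_le_mul_right _ hMw)
        _ = 128 * w ^ 5 := by ring
    have b2 : (2 * l + 3) * M ≤ 5 * (w * w) := by
      calc (2 * l + 3) * M ≤ (5 * w) * w := Nat.mul_le_mul (by omega) hMw
        _ = _ := by ring
    have b3 : w * w ≤ w ^ 5 := by
      calc w * w = w ^ 2 := by ring
        _ ≤ w ^ 5 := Nat.pow_le_pow_right hw1 (by norm_num)
    have b4 : 1 ≤ w ^ 5 := Nat.one_le_pow _ _ hw1
    omega
  calc B.factorial * (1 + K ^ ((N + 1) * E)) ^ B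
      ≤ 2 ^ ((2 * l + 3) * M * B) * (2 ^ (e + 1)) ^ B := Nat.mul_le_mul h3 (Nat.pow_le_pow_left h2 _)
    _ = 2 ^ (((2 * l + 3) * M + (e + 1)) * B) := by
        rw [← pow_mul, ← pow_add]
        congr 1
        ring
    _ ≤ 2 ^ 2 ^ ((2 * l + 3) * M + 5 * l + 8) := by
        apply Nat.pow_le_pow_right (by norm_num)
        calc ((2 * l + 3) * M + (e + 1)) * B ≤ 2 ^ (5 * l + 8) * 2 ^ ((2 * l + 3) * M) :=
              Nat.mul_le_mul h4 hB1
          _ = _ := by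
              rw [← pow_add]
              congr 1
              ring

/-- the logarithm of the size, for `s` steps and degree `2 ^ j` -/
def wl (m n t j : ℕ) : ℕ := (2 * (t + j + 2 * (m + n) + 6) + 3) * (m + n + 1) ^ 2 + 5 * (t + j + 2 * (m + n) + 6) + 8

/-- the principle for algorithms of bounded degree -/
theorem principle_low (O : Set (List Bool)) {m n : ℕ} (β : List Outcome → List Instr × Test) (s t j : ℕ)
    (hst : s + 1 ≤ 2 ^ t) (hLD : LowDeg O (m := m) (n := n) β j)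
    (H : ∀ (A : Matrix (Fin m) (Fin n) ℝ) (b : Fin m → ℝ), (∀ i j', AlgSize (2 ^ wl m n t j) (A i j')) →
      (∀ i, AlgSize (2 ^ wl m n t j) (b i)) → ∃ k ans nums steps,
        run O β k [] (start A b) = some (ans, nums, steps) ∧ (ans = true ↔ Feas A b) ∧ steps ≤ s)
    (A : Matrix (Fin m) (Fin n) ℝ) (b : Fin m → ℝ) : ∃ ans nums steps,
      run O β (s + 1) [] (start A b) = some (ans, nums, steps) ∧ (ans = true ↔ Feas A b) ∧ steps ≤ s := by
  obtain ⟨L, hL1, hL2, hL3⟩ := sim_low O β j hLD (Sum.elim (fun p => A p.1 p.2) b) s [] _ Reach.nil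
  obtain ⟨l, hl⟩ : ∃ l, l = t + j + 2 * (m + n) + 6 := ⟨_, rfl⟩
  have hp : ∀ a : ℕ, a ≤ l → 2 ^ a ≤ 2 ^ l := fun a ha => Nat.pow_le_pow_right (by norm_num) ha
  obtain ⟨A', b', hA, hb, hF, hag⟩ := transfer' A b L (cc m n s) (2 ^ (j + 1)) (2 ^ 2 ^ j + (m + n + 1))
    (by unfold cc; omega)
    (fun g hg => (hL2 g hg).1.trans (Nat.pow_le_pow_right (by norm_num) (by omega)))
    (by
      calc 2 = 2 ^ 1 := rfl
        _ ≤ _ := Nat.pow_le_pow_right (by norm_num) (by omega))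
    (fun g hg => (hL2 g hg).2.trans (Nat.le_add_right _ _)) (Nat.le_add_left _ _)
  have hgen := HH_gen (N := m * n + m + (m + n)) (c := cc m n s) (d := 2 ^ (j + 1)) (S := 2 ^ 2 ^ j + (m + n + 1))
    (l := l) (M := (m + n + 1) ^ 2)
    (by
      have h1 : cc m n s + 1 ≤ 2 * (s + 1) + (m + n + 2) := by unfold cc; omega
      have h2 : m + n + 2 < 2 ^ (m + n + 2) := lt2 _
      have h3 : 2 * (s + 1) ≤ 2 ^ (t + 1) := by rw [pow_succ]; omega
      have h4 : 2 ^ (t + 1) ≤ 2 ^ (t + m + n + 2) := Nat.pow_le_pow_right (by norm_num) (by omega)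
      have h5 : 2 ^ (m + n + 2) ≤ 2 ^ (t + m + n + 2) := Nat.pow_le_pow_right (by norm_num) (by omega)
      have h6 : 2 * 2 ^ (t + m + n + 2) ≤ 2 ^ l := by
        rw [← pow_succ']
        exact hp _ (by omega)
      omega)
    Nat.one_le_two_pow (hp _ (by omega)) (le_trans (Nat.le_add_left 1 (m + n)) (Nat.le_add_left _ _))
    (by
      have h1 : m + n + 1 < 2 ^ (m + n + 1) := lt2 _
      have h2 : 2 ^ (m + n + 1) ≤ 2 ^ (l - 1) := Nat.pow_le_pow_right (by norm_num) (by omega)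
      have h3 : 2 ^ (l - 1) < 2 ^ 2 ^ (l - 1) := lt2 _
      have h4 : 2 ^ 2 ^ j ≤ 2 ^ 2 ^ (l - 1) :=
        Nat.pow_le_pow_right (by norm_num) (Nat.pow_le_pow_right (by norm_num) (by omega))
      have h5 : 2 * 2 ^ 2 ^ (l - 1) ≤ 2 ^ 2 ^ l := by
        rw [← pow_succ']
        apply Nat.pow_le_pow_right (by norm_num)
        obtain ⟨l', hl'⟩ : ∃ l', l = l' + 1 := ⟨l - 1, by omega⟩
        rw [hl', Nat.add_sub_cancel, pow_succ]
        have := Nat.one_le_two_pow (n := l')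
        omega
      linarith)
    (card_le m n)
    (by
      have h1 : m + n + 1 ≤ 2 ^ (m + n + 1) := (lt2 _).le
      calc (m + n + 1) ^ 2 ≤ (2 ^ (m + n + 1)) ^ 2 := Nat.pow_le_pow_left h1 2
        _ = 2 ^ (2 * (m + n + 1)) := by rw [← pow_mul, mul_comm]
        _ ≤ _ := hp _ (by omega))
  rw [hl] at hgen
  obtain ⟨k, ans, nums, steps, h1, h2, h3⟩ := H A' b'
    (fun i j' => algSize_of (hA i j') hgen.1 hgen.2) (fun i => algSize_of (hb i) hgen.1 hgen.2)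
  obtain ⟨nums', h4⟩ := hL3 (Sum.elim (fun p => A' p.1 p.2) b') _ Reach.nil hag k ans nums steps h1 h3
  exact ⟨ans, nums', steps, run_fuel O β k [] _ _ h4 _ (by simpa using h3), h2.trans hF, h3⟩

theorem pow_le_two (C t : ℕ) : t ^ C ≤ C.factorial * 2 ^ C * 2 ^ t := by
  have h1 := Nat.pow_sub_le_descFactorial (t + C) C
  rw [show t + C + 1 - C = t + 1 by omega, Nat.descFactorial_eq_factorial_mul_choose] at h1
  calc t ^ C ≤ (t + 1) ^ C := Nat.pow_le_pow_left (by omega) _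
    _ ≤ C.factorial * (t + C).choose C := h1
    _ ≤ C.factorial * 2 ^ (t + C) := Nat.mul_le_mul_left _ (Nat.choose_le_two_pow _ _)
    _ = _ := by rw [pow_add]; ring

theorem polylog (C : ℕ) : ∃ κ : ℕ, ∀ R : ℕ, 1 ≤ R → (Nat.size (R ^ 2) + 1) ^ C ≤ κ * R := by
  refine ⟨3 ^ C * (C.factorial * 2 ^ C) * 2, fun R hR => ?_⟩
  obtain ⟨t, ht⟩ : ∃ t, t = Nat.size R := ⟨_, rfl⟩
  have h1 : R < 2 ^ t := by rw [ht]; exact Nat.lt_size_self R
  have ht1 : 1 ≤ t := by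
    rw [ht]
    exact Nat.size_pos.2 hR
  have h2 : Nat.size (R ^ 2) ≤ 2 * t := by
    rw [Nat.size_le]
    calc R ^ 2 < (2 ^ t) ^ 2 := Nat.pow_lt_pow_left h1 (by norm_num)
      _ = 2 ^ (2 * t) := by rw [← pow_mul, mul_comm]
  have h3 : 2 ^ (t - 1) ≤ R := by
    by_contra hcon
    push Not at hcon
    have := Nat.size_le.2 hcon
    omega
  have h4 : 2 ^ t ≤ 2 * R := by
    have h5 : 2 ^ t = 2 * 2 ^ (t - 1) := by
      rw [← pow_succ']
      congr 1
      omega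
    omega
  calc (Nat.size (R ^ 2) + 1) ^ C ≤ (3 * t) ^ C := Nat.pow_le_pow_left (by omega) _
    _ = 3 ^ C * t ^ C := by rw [mul_pow]
    _ ≤ 3 ^ C * (C.factorial * 2 ^ C * (2 * R)) :=
        Nat.mul_le_mul_left _ ((pow_le_two C t).trans (Nat.mul_le_mul_left _ h4))
    _ = _ := by ring

theorem wl_le (m n t j : ℕ) : wl m n t j + 2 ≤ 13 * (m + n + 1) ^ 2 * (j + 2 * (m + n) + 7) * (t + 1) := by
  obtain ⟨N, hN⟩ : ∃ N, N = m + n := ⟨_, rfl⟩
  obtain ⟨M, hM⟩ : ∃ M, M = (N + 1) ^ 2 := ⟨_, rfl⟩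
  have hM1 : 1 ≤ M := by rw [hM]; exact Nat.one_le_pow _ _ (by omega)
  unfold wl
  rw [← hN, ← hM]
  obtain ⟨l, hl⟩ : ∃ l, l = t + j + 2 * N + 6 := ⟨_, rfl⟩
  rw [← hl]
  have h1 : l + 1 ≤ (j + 2 * N + 7) * (t + 1) := by
    rw [hl]
    nlinarith [Nat.zero_le (j * t), Nat.zero_le (N * t)]
  calc (2 * l + 3) * M + 5 * l + 8 + 2 ≤ 13 * M * (l + 1) := by nlinarith
    _ ≤ 13 * M * ((j + 2 * N + 7) * (t + 1)) := Nat.mul_le_mul_left _ h1
    _ = _ := by ring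

theorem log_two_pow (w : ℕ) : 0 ≤ Real.log (((2 ^ w : ℕ) : ℝ) + 2) ∧
    Real.log (((2 ^ w : ℕ) : ℝ) + 2) ≤ ((w + 2 : ℕ) : ℝ) := by
  constructor
  · apply Real.log_nonneg
    have : (0 : ℝ) ≤ ((2 ^ w : ℕ) : ℝ) := Nat.cast_nonneg _
    linarith
  · have h1 : ((2 ^ w : ℕ) : ℝ) + 2 ≤ (2 : ℝ) ^ (w + 2) := by
      have h2 : 2 ^ w + 2 ≤ 2 ^ (w + 2) := by
        rw [pow_add]
        have := Nat.one_le_two_pow (n := w)
        omega
      exact_mod_cast h2
    have h2 := Real.log_le_log (by positivity) h1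
    rw [Real.log_pow] at h2
    have h3 : Real.log 2 ≤ 1 := by
      have := Real.log_two_lt_d9
      linarith
    refine h2.trans ?_
    have h4 : (0 : ℝ) ≤ ((w + 2 : ℕ) : ℝ) := Nat.cast_nonneg _
    nlinarith

theorem part_low (O : Set (List Bool)) (α : Alg) (p r : Polynomial ℕ) (C : ℕ)
    (hLD : ∀ m n : ℕ, 1 ≤ m → 1 ≤ n → LowDeg O (m := m) (n := n) (α m n) (r.eval (m + n)))
    (H : ∀ m n : ℕ, 1 ≤ m → 1 ≤ n → ∀ (L : ℕ) (A : Matrix (Fin m) (Fin n) ℝ) (b : Fin m → ℝ),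
      (∀ i j, AlgSize L (A i j)) → (∀ i, AlgSize L (b i)) → ∃ k ans nums steps,
        run O (α m n) k [] (start A b) = some (ans, nums, steps) ∧ (ans = true ↔ Feas A b) ∧
        (steps : ℝ) ≤ p.eval (m + n) * Real.log ((L : ℝ) + 2) ^ C) :
    ∃ q : Polynomial ℕ, ∀ m n : ℕ, 1 ≤ m → 1 ≤ n → ∀ (A : Matrix (Fin m) (Fin n) ℝ) (b : Fin m → ℝ),
      ∃ ans nums steps, run O (α m n) (q.eval (m + n)) [] (start A b) = some (ans, nums, steps) ∧
        (ans = true ↔ Feas A b) ∧ steps ≤ q.eval (m + n) := by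
  obtain ⟨κ, hκ⟩ := polylog C
  refine ⟨(Polynomial.C κ * p * (13 * (Polynomial.X + 1) ^ 2 * (r + 2 * Polynomial.X + 7)) ^ C + 1) ^ 2 + 1,
    fun m n hm hn A b => ?_⟩
  obtain ⟨G, hG⟩ : ∃ G, G = 13 * (m + n + 1) ^ 2 * (r.eval (m + n) + 2 * (m + n) + 7) := ⟨_, rfl⟩
  obtain ⟨P, hP⟩ : ∃ P, P = p.eval (m + n) := ⟨_, rfl⟩
  obtain ⟨R, hR⟩ : ∃ R, R = κ * P * G ^ C + 1 := ⟨_, rfl⟩
  have hq : ((Polynomial.C κ * p * (13 * (Polynomial.X + 1) ^ 2 * (r + 2 * Polynomial.X + 7)) ^ C + 1) ^ 2 + 1 :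
      Polynomial ℕ).eval (m + n) = R ^ 2 + 1 := by
    rw [hR, hG, hP]
    simp
  rw [hq]
  have hR1 : 1 ≤ R := by omega
  have hst : R ^ 2 + 1 ≤ 2 ^ Nat.size (R ^ 2) := Nat.lt_size_self _
  obtain ⟨t, ht⟩ : ∃ t, t = Nat.size (R ^ 2) := ⟨_, rfl⟩
  have hκR := hκ R hR1
  rw [← ht] at hst hκR
  obtain ⟨ans, nums, steps, e1, e2, e3⟩ := principle_low O (α m n) (R ^ 2) t (r.eval (m + n)) hst
    (hLD m n hm hn) (fun A' b' hA hb => by
    obtain ⟨k', ans, nums, steps, e1, e2, e3⟩ := H m n hm hn _ A' b' hA hb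
    refine ⟨k', ans, nums, steps, e1, e2, ?_⟩
    have h1 := log_two_pow (wl m n t (r.eval (m + n)))
    have h2 : Real.log (((2 ^ wl m n t (r.eval (m + n)) : ℕ) : ℝ) + 2) ≤ ((G * (t + 1) : ℕ) : ℝ) := by
      refine h1.2.trans ?_
      have := wl_le m n t (r.eval (m + n))
      rw [← hG] at this
      exact_mod_cast this
    have h3 := pow_le_pow_left₀ h1.1 h2 C
    have h4 : (steps : ℝ) ≤ P * ((G * (t + 1) : ℕ) : ℝ) ^ C := by
      rw [hP]
      exact e3.trans (mul_le_mul_of_nonneg_left h3 (Nat.cast_nonneg _))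
    have h5 : steps ≤ P * (G * (t + 1)) ^ C := by exact_mod_cast h4
    calc steps ≤ P * (G * (t + 1)) ^ C := h5
      _ = P * G ^ C * (t + 1) ^ C := by rw [mul_pow]; ring
      _ ≤ P * G ^ C * (κ * R) := Nat.mul_le_mul_left _ hκR
      _ = (κ * P * G ^ C) * R := by ring
      _ ≤ R * R := Nat.mul_le_mul_right _ (by omega)
      _ = R ^ 2 := by ring) A b
  exact ⟨ans, nums, steps, e1, e2, by omega⟩

end Pool.Agent.K7.H40.GP
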