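import Pool.Agent.K7.H40.GP.LowB

/-!
Algorithms of bounded degree: rational instances.
-/

set_option autoImplicit false

open Finset MvPolynomial Pool.Agent.H558R2 Pool.Agent.H622R3.SM

namespace Pool.Agent.K7.H40.GP

theorem len_bd {m n c d S Λ : ℕ} (h21 : 21 ≤ Λ) (hc : c ≤ Λ) (hd : d ≤ Λ) (hS : S ≤ 2 ^ Λ)
    (hmn : m * n + m ≤ Λ) (z : Vr m n → ℚ)
    (hz : ∀ i, (z i).num.natAbs ≤ (2 ^ Λ + 1) * TT (2 ^ Λ) c d S ∧ (z i).den ≤ TT (2 ^ Λ) c d S) :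
    inputLength (fun i j => z (Sum.inl (i, j)) : Matrix (Fin m) (Fin n) ℚ) (fun i => z (Sum.inr i)) ≤ Λ ^ 5 := by
  have hTT := TT_le (R := 2 ^ Λ) (c := c) (d := d) (S := S) (Λ := Λ) (by omega) le_rfl hc hd hS
  have hbit : ∀ v, bitLength (z v) ≤ 21 * Λ ^ 3 := by
    intro v
    obtain ⟨h1, h2⟩ := hz v
    have h3 : Nat.size (z v).den ≤ 8 * Λ ^ 3 + 1 := by
      rw [Nat.size_le]
      refine lt_of_le_of_lt (h2.trans hTT) ?_
      exact Nat.pow_lt_pow_right (by norm_num) (by omega)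
    have h4 : Nat.size (z v).num.natAbs ≤ 8 * Λ ^ 3 + Λ + 2 := by
      rw [Nat.size_le]
      refine lt_of_le_of_lt (h1.trans (Nat.mul_le_mul_left _ hTT)) ?_
      have h5 : 2 ^ Λ + 1 ≤ 2 ^ (Λ + 1) := two_succ Λ
      calc (2 ^ Λ + 1) * 2 ^ (8 * Λ ^ 3) ≤ 2 ^ (Λ + 1) * 2 ^ (8 * Λ ^ 3) := Nat.mul_le_mul_right _ h5
        _ = 2 ^ (Λ + 1 + 8 * Λ ^ 3) := by rw [← pow_add]
        _ < _ := Nat.pow_lt_pow_right (by norm_num) (by omega)
    unfold bitLength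
    have e9 : Λ ≤ Λ ^ 3 := by
      calc Λ = Λ ^ 1 := (pow_one _).symm
        _ ≤ _ := Nat.pow_le_pow_right (by omega) (by norm_num)
    omega
  unfold inputLength
  have h1 : ∑ i : Fin m, ∑ j : Fin n, bitLength (z (Sum.inl (i, j))) ≤ m * (n * (21 * Λ ^ 3)) := by
    calc ∑ i : Fin m, ∑ j : Fin n, bitLength (z (Sum.inl (i, j))) ≤
          ∑ _i : Fin m, ∑ _j : Fin n, 21 * Λ ^ 3 := sum_le_sum fun i _ => sum_le_sum fun j _ => hbit _
      _ = _ := by simp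
  have h2 : ∑ i : Fin m, bitLength (z (Sum.inr i)) ≤ m * (21 * Λ ^ 3) := by
    calc ∑ i : Fin m, bitLength (z (Sum.inr i)) ≤ ∑ _i : Fin m, 21 * Λ ^ 3 := sum_le_sum fun i _ => hbit _
      _ = _ := by simp
  calc _ ≤ m * (n * (21 * Λ ^ 3)) + m * (21 * Λ ^ 3) := Nat.add_le_add h1 h2
    _ = (m * n + m) * (21 * Λ ^ 3) := by ring
    _ ≤ Λ * (Λ * Λ ^ 3) := Nat.mul_le_mul hmn (Nat.mul_le_mul_right _ h21)
    _ = Λ ^ 5 := by ring

theorem principle_rat_low (O : Set (List Bool)) {m n : ℕ} (β : List Outcome → List Instr × Test) (s t j : ℕ)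
    (hst : s + 1 ≤ 2 ^ t) (hLD : LowDeg O (m := m) (n := n) β j)
    (H : ∀ (A : Matrix (Fin m) (Fin n) ℚ) (b : Fin m → ℚ), inputLength A b ≤ 2 ^ (5 * wl m n t j) →
      ∃ k ans nums steps, run O β k [] (start (fun i j => ((A i j : ℚ) : ℝ)) fun i => ((b i : ℚ) : ℝ)) =
        some (ans, nums, steps) ∧ steps ≤ s)
    (A : Matrix (Fin m) (Fin n) ℝ) (b : Fin m → ℝ)
    (hgen : ∀ g : MvPolynomial (Vr m n) ℤ, g ≠ 0 → Lw j g →
      aeval (Sum.elim (fun p => A p.1 p.2) b) g ≠ 0) : ∃ ans nums steps,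
      run O β (s + 1) [] (start A b) = some (ans, nums, steps) ∧ steps ≤ s := by
  classical
  obtain ⟨x0, hx0⟩ : ∃ x0 : Vr m n → ℝ, x0 = Sum.elim (fun p => A p.1 p.2) b := ⟨_, rfl⟩
  rw [← hx0] at hgen
  have hst0 : start (fun i j => x0 (Sum.inl (i, j))) (fun i => x0 (Sum.inr i)) = start A b := by
    rw [hx0]
    rfl
  obtain ⟨L, hL1, hL2, hL3⟩ := sim_low O β j hLD x0 s [] _ Reach.nil
  rw [hst0] at hL3
  obtain ⟨l, hl⟩ : ∃ l, l = t + j + 2 * (m + n) + 6 := ⟨_, rfl⟩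
  have hp : ∀ a : ℕ, a ≤ l → 2 ^ a ≤ 2 ^ l := fun a ha => Nat.pow_le_pow_right (by norm_num) ha
  obtain ⟨W, hW⟩ : ∃ W, W = wl m n t j := ⟨_, rfl⟩
  have hWl : l ≤ W ∧ 5 ≤ W := by
    rw [hW, hl]
    unfold wl
    have := Nat.zero_le ((2 * (t + j + 2 * (m + n) + 6) + 3) * (m + n + 1) ^ 2)
    constructor <;> omega
  obtain ⟨Λ, hΛ⟩ : ∃ Λ, Λ = 2 ^ W := ⟨_, rfl⟩
  have hΛl : 2 ^ l ≤ Λ := by
    rw [hΛ]
    exact Nat.pow_le_pow_right (by norm_num) hWl.1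
  have hccl : cc m n s + 1 ≤ 2 ^ l := by
    have h1 : cc m n s + 1 ≤ 2 * (s + 1) + (m + n + 2) := by unfold cc; omega
    have h2 : m + n + 2 < 2 ^ (m + n + 2) := lt2 _
    have h3 : 2 * (s + 1) ≤ 2 ^ (t + 1) := by rw [pow_succ]; omega
    have h4 : 2 ^ (t + 1) ≤ 2 ^ (t + m + n + 2) := Nat.pow_le_pow_right (by norm_num) (by omega)
    have h5 : 2 ^ (m + n + 2) ≤ 2 ^ (t + m + n + 2) := Nat.pow_le_pow_right (by norm_num) (by omega)
    have h6 : 2 * 2 ^ (t + m + n + 2) ≤ 2 ^ l := by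
      rw [← pow_succ']
      exact hp _ (by omega)
    omega
  have hSl : 2 ^ 2 ^ j + (m + n + 1) ≤ 2 ^ 2 ^ l := by
    have h1 : m + n + 1 < 2 ^ (m + n + 1) := lt2 _
    have h2 : 2 ^ (m + n + 1) ≤ 2 ^ (l - 1) := Nat.pow_le_pow_right (by norm_num) (by omega)
    have h3 : 2 ^ (l - 1) < 2 ^ 2 ^ (l - 1) := lt2 _
    have h4 : 2 ^ 2 ^ j ≤ 2 ^ 2 ^ (l - 1) :=
      Nat.pow_le_pow_right (by norm_num) (Nat.pow_le_pow_right (by norm_num) (by omega))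
    have h5 : 2 * 2 ^ 2 ^ (l - 1) ≤ 2 ^ 2 ^ l := by
      rw [← pow_succ']
      apply Nat.pow_le_pow_right (by norm_num)
      obtain ⟨l', hl'⟩ : ∃ l', l = l' + 1 := ⟨l - 1, by omega⟩
      rw [hl', Nat.add_sub_cancel, pow_succ]
      have := Nat.one_le_two_pow (n := l')
      omega
    linarith
  have hMl : (m + n + 1) ^ 2 ≤ 2 ^ l := by
    have h1 : m + n + 1 ≤ 2 ^ (m + n + 1) := (lt2 _).le
    calc (m + n + 1) ^ 2 ≤ (2 ^ (m + n + 1)) ^ 2 := Nat.pow_le_pow_left h1 2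
      _ = 2 ^ (2 * (m + n + 1)) := by rw [← pow_mul, mul_comm]
      _ ≤ _ := hp _ (by omega)
  have hgenb := HH_gen (N := m * n + m + (m + n)) (c := cc m n s) (d := 2 ^ (j + 1)) (S := 2 ^ 2 ^ j + (m + n + 1))
    (l := l) (M := (m + n + 1) ^ 2) hccl Nat.one_le_two_pow (hp _ (by omega))
    (le_trans (Nat.le_add_left 1 (m + n)) (Nat.le_add_left _ _)) hSl (card_le m n) hMl
  have hWe : (2 * l + 3) * (m + n + 1) ^ 2 + 5 * l + 8 = W := by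
    rw [hW, hl]
    rfl
  rw [hWe, ← hΛ] at hgenb
  have hcΛ : cc m n s ≤ Λ := by omega
  have hdΛ : 2 ^ (j + 1) ≤ Λ := (hp _ (by omega)).trans hΛl
  have hSΛ : 2 ^ 2 ^ j + (m + n + 1) ≤ 2 ^ Λ := hSl.trans (Nat.pow_le_pow_right (by norm_num) hΛl)
  have hcard : Fintype.card (Vr m n) = m * n + m := by simp
  obtain ⟨z, hz1, hz2⟩ := rational (L.toFinset.filter (fun g => g ≠ 0)) x0 (cc m n s) (2 ^ (j + 1))
    (2 ^ 2 ^ j + (m + n + 1)) (2 ^ Λ)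
    (by
      refine (card_le_card (filter_subset _ _)).trans ((List.toFinset_card_le _).trans ?_)
      unfold cc
      omega)
    (fun g hg => (hL2 g (List.mem_toFinset.1 (mem_filter.1 hg).1)).1.trans
      (Nat.pow_le_pow_right (by norm_num) (by omega)))
    (fun g hg => (hL2 g (List.mem_toFinset.1 (mem_filter.1 hg).1)).2.trans (Nat.le_add_right _ _))
    (le_trans (Nat.le_add_left 1 (m + n)) (Nat.le_add_left _ _))
    (fun g hg => hgen g (mem_filter.1 hg).2 (hL2 g (List.mem_toFinset.1 (mem_filter.1 hg).1)))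
    (by
      rw [hcard]
      exact (HH_mono (N' := m * n + m + (m + n)) (Nat.le_add_right _ _) _ _ _ (KK_pos _ _ _)).trans hgenb.2)
  have hag : Agree L (fun i => ((z i : ℚ) : ℝ)) x0 := by
    intro g hg
    by_cases h0 : g = 0
    · have e : ∀ x : Vr m n → ℝ, aeval x g = 0 := fun x => by rw [h0]; exact map_zero _
      rw [e, e]
    · exact hz1 g (mem_filter.2 ⟨List.mem_toFinset.2 hg, h0⟩)
  have hΛ21 : 21 ≤ Λ := by
    rw [hΛ]
    calc 21 ≤ 2 ^ 5 := by norm_num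
      _ ≤ _ := Nat.pow_le_pow_right (by norm_num) hWl.2
  have hmnΛ : m * n + m ≤ Λ := by
    have h4 : m * n + m ≤ (m + n + 1) ^ 2 := by nlinarith [Nat.zero_le (m * n)]
    exact h4.trans (hMl.trans hΛl)
  have hlen := len_bd (m := m) (n := n) hΛ21 hcΛ hdΛ hSΛ hmnΛ z hz2
  have hlen2 : Λ ^ 5 = 2 ^ (5 * wl m n t j) := by
    rw [hΛ, hW, ← pow_mul, mul_comm]
  rw [hlen2] at hlen
  obtain ⟨k, ans, nums, steps, h1, h2⟩ := H _ _ hlen
  obtain ⟨nums', h4⟩ := hL3 (fun i => ((z i : ℚ) : ℝ)) _ Reach.nil hag k ans nums steps h1 h2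
  exact ⟨ans, nums', steps, run_fuel O β k [] _ _ h4 _ (by simpa using h2), h2⟩

theorem exists_F' {ι : Type*} [Fintype ι] (j : ℕ) : ∃ F : MvPolynomial ι ℤ, F ≠ 0 ∧ ∀ x : ι → ℝ,
    aeval x F ≠ 0 → ∀ g : MvPolynomial ι ℤ, g ≠ 0 → Lw j g → aeval x g ≠ 0 := by
  classical
  have hfin := fin_lv (ι := ι) (2 ^ j) (2 ^ 2 ^ j)
  refine ⟨∏ g ∈ hfin.toFinset.filter (fun g => g ≠ 0), g, ?_, ?_⟩
  · exact prod_ne_zero_iff.2 fun g hg => (mem_filter.1 hg).2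
  · intro x hx g hg hL
    rw [map_prod] at hx
    exact prod_ne_zero_iff.1 hx g (mem_filter.2 ⟨hfin.mem_toFinset.2 hL, hg⟩)

theorem part_rat_low (O : Set (List Bool)) (α : Alg) (p r : Polynomial ℕ) (C : ℕ)
    (hLD : ∀ m n : ℕ, 1 ≤ m → 1 ≤ n → LowDeg O (m := m) (n := n) (α m n) (r.eval (m + n)))
    (H : ∀ m n : ℕ, 1 ≤ m → 1 ≤ n → ∀ (A : Matrix (Fin m) (Fin n) ℚ) (b : Fin m → ℚ), ∃ k ans nums steps,
        run O (α m n) k [] (start (fun i j => ((A i j : ℚ) : ℝ)) fun i => ((b i : ℚ) : ℝ)) =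
          some (ans, nums, steps) ∧
        (steps : ℝ) ≤ p.eval (m + n) * Real.log ((inputLength A b : ℝ) + 2) ^ C) :
    ∃ q : Polynomial ℕ, ∀ m n : ℕ, 1 ≤ m → 1 ≤ n → ∃ F : MvPolynomial (Vr m n) ℤ, F ≠ 0 ∧
      ∀ (A : Matrix (Fin m) (Fin n) ℝ) (b : Fin m → ℝ), aeval (Sum.elim (fun p => A p.1 p.2) b) F ≠ 0 →
      ∃ ans nums steps, run O (α m n) (q.eval (m + n)) [] (start A b) = some (ans, nums, steps) ∧
        steps ≤ q.eval (m + n) := by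
  obtain ⟨κ, hκ⟩ := polylog C
  refine ⟨(Polynomial.C κ * p * (5 * (13 * (Polynomial.X + 1) ^ 2 * (r + 2 * Polynomial.X + 7))) ^ C + 1) ^ 2 + 1,
    fun m n hm hn => ?_⟩
  obtain ⟨G, hG⟩ : ∃ G, G = 5 * (13 * (m + n + 1) ^ 2 * (r.eval (m + n) + 2 * (m + n) + 7)) := ⟨_, rfl⟩
  obtain ⟨P, hP⟩ : ∃ P, P = p.eval (m + n) := ⟨_, rfl⟩
  obtain ⟨R, hR⟩ : ∃ R, R = κ * P * G ^ C + 1 := ⟨_, rfl⟩
  have hq : ((Polynomial.C κ * p * (5 * (13 * (Polynomial.X + 1) ^ 2 * (r + 2 * Polynomial.X + 7))) ^ C + 1) ^ 2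
      + 1 : Polynomial ℕ).eval (m + n) = R ^ 2 + 1 := by
    rw [hR, hG, hP]
    simp
  rw [hq]
  have hR1 : 1 ≤ R := by omega
  have hst : R ^ 2 + 1 ≤ 2 ^ Nat.size (R ^ 2) := Nat.lt_size_self _
  obtain ⟨t, ht⟩ : ∃ t, t = Nat.size (R ^ 2) := ⟨_, rfl⟩
  have hκR := hκ R hR1
  rw [← ht] at hst hκR
  obtain ⟨F, hF0, hF⟩ := exists_F' (ι := Vr m n) (r.eval (m + n))
  refine ⟨F, hF0, fun A b hAb => ?_⟩
  obtain ⟨ans, nums, steps, e1, e3⟩ := principle_rat_low O (α m n) (R ^ 2) t (r.eval (m + n)) hst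
    (hLD m n hm hn) (fun A' b' hlen => by
    obtain ⟨k', ans, nums, steps, e1, e3⟩ := H m n hm hn A' b'
    refine ⟨k', ans, nums, steps, e1, ?_⟩
    have h1 := log_two_pow (5 * wl m n t (r.eval (m + n)))
    have h2 : Real.log ((inputLength A' b' : ℝ) + 2) ≤ ((G * (t + 1) : ℕ) : ℝ) := by
      obtain ⟨le, hle⟩ : ∃ le : ℕ, le = inputLength A' b' := ⟨_, rfl⟩
      rw [← hle] at hlen ⊢
      have a1 : (0 : ℝ) ≤ (le : ℝ) := Nat.cast_nonneg _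
      have a2 : (le : ℝ) ≤ ((2 ^ (5 * wl m n t (r.eval (m + n))) : ℕ) : ℝ) := by exact_mod_cast hlen
      have a3 : Real.log ((le : ℝ) + 2) ≤ Real.log (((2 ^ (5 * wl m n t (r.eval (m + n))) : ℕ) : ℝ) + 2) :=
        Real.log_le_log (by linarith) (by linarith)
      refine a3.trans (h1.2.trans ?_)
      have h5 := wl_le m n t (r.eval (m + n))
      have h6 : 5 * wl m n t (r.eval (m + n)) + 2 ≤ G * (t + 1) := by
        rw [hG, mul_assoc 5]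
        omega
      exact_mod_cast h6
    have h0 : 0 ≤ Real.log ((inputLength A' b' : ℝ) + 2) := by
      apply Real.log_nonneg
      obtain ⟨le, hle⟩ : ∃ le : ℕ, le = inputLength A' b' := ⟨_, rfl⟩
      rw [← hle]
      have a1 : (0 : ℝ) ≤ (le : ℝ) := Nat.cast_nonneg _
      linarith
    have h3 := pow_le_pow_left₀ h0 h2 C
    have h4 : (steps : ℝ) ≤ P * ((G * (t + 1) : ℕ) : ℝ) ^ C := by
      rw [hP]
      exact e3.trans (mul_le_mul_of_nonneg_left h3 (Nat.cast_nonneg _))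
    have h5 : steps ≤ P * (G * (t + 1)) ^ C := by exact_mod_cast h4
    calc steps ≤ P * (G * (t + 1)) ^ C := h5
      _ = P * G ^ C * (t + 1) ^ C := by rw [mul_pow]; ring
      _ ≤ P * G ^ C * (κ * R) := Nat.mul_le_mul_left _ hκR
      _ = (κ * P * G ^ C) * R := by ring
      _ ≤ R * R := Nat.mul_le_mul_right _ (by omega)
      _ = R ^ 2 := by ring) A b (hF _ hAb)
  exact ⟨ans, nums, steps, e1, by omega⟩

end Pool.Agent.K7.H40.GP
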