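import Pool.Agent.K7.H40.GP.Apx

/-!
The gap theorem.
-/

set_option autoImplicit false

open Finset MvPolynomial Pool.Agent.H558R2 Pool.Agent.H622R3.SM

namespace Pool.Agent.K7.H40.GP

/-- if all instances with algebraic entries of bounded size are solved in `s` steps, then all instances are -/
theorem principle_alg (O : Set (List Bool)) {m n : ℕ} (β : List Outcome → List Instr × Test) (s : ℕ)
    (H : ∀ (A : Matrix (Fin m) (Fin n) ℝ) (b : Fin m → ℝ), (∀ i j, AlgSize (2 ^ ww m n s) (A i j)) →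
      (∀ i, AlgSize (2 ^ ww m n s) (b i)) → ∃ k ans nums steps,
        run O β k [] (start A b) = some (ans, nums, steps) ∧ (ans = true ↔ Feas A b) ∧ steps ≤ s)
    (A : Matrix (Fin m) (Fin n) ℝ) (b : Fin m → ℝ) : ∃ ans nums steps,
      run O β (s + 1) [] (start A b) = some (ans, nums, steps) ∧ (ans = true ↔ Feas A b) ∧ steps ≤ s := by
  obtain ⟨A', b', hA, hb, hF, hr⟩ := transfer O β s A b
  obtain ⟨k, ans, nums, steps, h1, h2, h3⟩ := H A' b'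
    (fun i j => algSize_of (hA i j) (BB_le' m n s) (HH_le m n s))
    (fun i => algSize_of (hb i) (BB_le' m n s) (HH_le m n s))
  obtain ⟨nums', h4⟩ := hr k ans nums steps h1 h3
  exact ⟨ans, nums', steps, run_fuel O β k [] _ _ h4 _ (by simpa using h3), h2.trans hF, h3⟩

theorem two_succ (e : ℕ) : 2 ^ e + 1 ≤ 2 ^ (e + 1) := by
  rw [pow_succ]
  have := Nat.one_le_two_pow (n := e)
  omega

theorem KK_pos (c d S : ℕ) : 1 ≤ KK c d S := by
  unfold KK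
  have h1 : 0 < (S ^ c + 1) ^ 2 := by positivity
  have h2 : 0 < 2 * (c * d + d + 1) := by omega
  have h3 : 0 < c * S ^ 2 + (S ^ c + 1) ^ 2 := by omega
  exact Nat.mul_pos h2 h3

theorem TT_le {R c d S Λ : ℕ} (h1 : 1 ≤ Λ) (hR : R ≤ 2 ^ Λ) (hc : c ≤ Λ) (hd : d ≤ Λ) (hS : S ≤ 2 ^ Λ) :
    TT R c d S ≤ 2 ^ (8 * Λ ^ 3) := by
  have e1 : S * R ^ d ≤ 2 ^ (Λ + Λ * Λ) := by
    rw [pow_add]
    apply Nat.mul_le_mul hS
    calc R ^ d ≤ (2 ^ Λ) ^ d := Nat.pow_le_pow_left hR _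
      _ = 2 ^ (Λ * d) := by rw [← pow_mul]
      _ ≤ _ := Nat.pow_le_pow_right (by norm_num) (Nat.mul_le_mul_left _ hd)
  have e2 : (S * R ^ d) ^ c ≤ 2 ^ ((Λ + Λ * Λ) * Λ) := by
    calc (S * R ^ d) ^ c ≤ (2 ^ (Λ + Λ * Λ)) ^ c := Nat.pow_le_pow_left e1 _
      _ = 2 ^ ((Λ + Λ * Λ) * c) := by rw [← pow_mul]
      _ ≤ _ := Nat.pow_le_pow_right (by norm_num) (Nat.mul_le_mul_left _ hc)
  have e3 : (R + 1) ^ d ≤ 2 ^ ((Λ + 1) * Λ) := by
    calc (R + 1) ^ d ≤ (2 ^ (Λ + 1)) ^ d := Nat.pow_le_pow_left ((Nat.add_le_add_right hR 1).trans (two_succ Λ)) _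
      _ = 2 ^ ((Λ + 1) * d) := by rw [← pow_mul]
      _ ≤ _ := Nat.pow_le_pow_right (by norm_num) (Nat.mul_le_mul_left _ hd)
  have e4 : d ≤ 2 ^ Λ := hd.trans (lt2 Λ).le
  have e5 : R * (S * R ^ d) ^ c * (S * (d * (R + 1) ^ d)) ≤
      2 ^ Λ * 2 ^ ((Λ + Λ * Λ) * Λ) * (2 ^ Λ * (2 ^ Λ * 2 ^ ((Λ + 1) * Λ))) :=
    Nat.mul_le_mul (Nat.mul_le_mul hR e2) (Nat.mul_le_mul hS (Nat.mul_le_mul e4 e3))
  unfold TT
  have e6 : 2 ^ Λ * 2 ^ ((Λ + Λ * Λ) * Λ) * (2 ^ Λ * (2 ^ Λ * 2 ^ ((Λ + 1) * Λ))) =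
      2 ^ (Λ ^ 3 + 2 * Λ ^ 2 + 4 * Λ) := by
    rw [← pow_add, ← pow_add, ← pow_add, ← pow_add]
    congr 1
    ring
  rw [e6] at e5
  have e7 : 2 ^ (Λ ^ 3 + 2 * Λ ^ 2 + 4 * Λ) + 1 ≤ 2 ^ (Λ ^ 3 + 2 * Λ ^ 2 + 4 * Λ + 1) := by
    obtain ⟨e, he⟩ : ∃ e, e = Λ ^ 3 + 2 * Λ ^ 2 + 4 * Λ := ⟨_, rfl⟩
    rw [← he]
    exact two_succ e
  refine (Nat.add_le_add_right e5 1).trans (e7.trans (Nat.pow_le_pow_right (by norm_num) ?_))
  have e8 : Λ ^ 2 ≤ Λ ^ 3 := Nat.pow_le_pow_right h1 (by norm_num)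
  have e9 : Λ ≤ Λ ^ 3 := by
    calc Λ = Λ ^ 1 := (pow_one _).symm
      _ ≤ _ := Nat.pow_le_pow_right h1 (by norm_num)
  omega

theorem ww_big (m n s : ℕ) : 34 ≤ ww m n s ∧ 2 * (s + m + n + 4) ≤ ww m n s := by
  have h : 1 ≤ (m + n + 1) ^ 2 := Nat.one_le_pow _ _ (by omega)
  unfold ww
  have : 0 ≤ (2 * (s + m + n + 4) + 1) * (m + n + 1) ^ 2 := Nat.zero_le _
  constructor <;> omega

/-- if all rational instances of bounded length are solved in `s` steps, then almost all instances are -/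
theorem principle_rat (O : Set (List Bool)) {m n : ℕ} (β : List Outcome → List Instr × Test) (s : ℕ)
    (H : ∀ (A : Matrix (Fin m) (Fin n) ℚ) (b : Fin m → ℚ), inputLength A b ≤ 2 ^ (5 * ww m n s) →
      ∃ k ans nums steps, run O β k [] (start (fun i j => ((A i j : ℚ) : ℝ)) fun i => ((b i : ℚ) : ℝ)) =
        some (ans, nums, steps) ∧ steps ≤ s)
    (A : Matrix (Fin m) (Fin n) ℝ) (b : Fin m → ℝ)
    (hgen : ∀ g : MvPolynomial ((Fin m × Fin n) ⊕ Fin m) ℤ, g ≠ 0 → Lv s g →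
      aeval (Sum.elim (fun p => A p.1 p.2) b) g ≠ 0) : ∃ ans nums steps,
      run O β (s + 1) [] (start A b) = some (ans, nums, steps) ∧ steps ≤ s := by
  classical
  obtain ⟨x0, hx0⟩ : ∃ x0 : (Fin m × Fin n) ⊕ Fin m → ℝ, x0 = Sum.elim (fun p => A p.1 p.2) b := ⟨_, rfl⟩
  rw [← hx0] at hgen
  obtain ⟨L, hL1, hL2, hL3⟩ := sim O β x0 s []
    (st (fun i j => (Sum.inl (i, j) : (Fin m × Fin n) ⊕ Fin m)) (fun i => Sum.inr i)) 0 (st_lvs _ _) (st_val _ _ _)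
  obtain ⟨Λ, hΛ⟩ : ∃ Λ, Λ = 2 ^ ww m n s := ⟨_, rfl⟩
  have hw := ww_big m n s
  have hcard : Fintype.card ((Fin m × Fin n) ⊕ Fin m) = m * n + m := by simp
  have hK1 : 1 ≤ KK (cc m n s) (2 ^ (s + 1)) (hh s + (m + n + 1)) := KK_pos _ _ _
  have hu := lt2 (s + m + n + 4)
  have hΛu : 2 ^ (s + m + n + 4) ≤ Λ := by
    rw [hΛ]
    exact Nat.pow_le_pow_right (by norm_num) (by omega)
  have hcΛ : cc m n s ≤ Λ := by
    have h1 : cc m n s ≤ 2 * (s + m + n + 4) := by unfold cc; omega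
    have h2 : 2 * (s + m + n + 4) ≤ 2 ^ (s + m + n + 4 + 1) := by rw [pow_succ]; omega
    rw [hΛ]
    exact h1.trans (h2.trans (Nat.pow_le_pow_right (by norm_num) (by omega)))
  have hdΛ : 2 ^ (s + 1) ≤ Λ := by
    rw [hΛ]
    exact Nat.pow_le_pow_right (by norm_num) (by omega)
  have hSΛ : hh s + (m + n + 1) ≤ 2 ^ Λ :=
    (SS_le m n s).trans (Nat.pow_le_pow_right (by norm_num) hΛu)
  obtain ⟨z, hz1, hz2⟩ := rational (L.toFinset.filter (fun g => g ≠ 0)) x0 (cc m n s) (2 ^ (s + 1))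
    (hh s + (m + n + 1)) (2 ^ Λ)
    (by
      refine (card_le_card (filter_subset _ _)).trans ((List.toFinset_card_le _).trans ?_)
      unfold cc
      omega)
    (by
      intro g hg
      have h1 := hL2 g (List.mem_toFinset.1 (mem_filter.1 hg).1)
      refine h1.1.trans ?_
      rw [zero_add]
      exact Nat.pow_le_pow_right (by norm_num) (by omega))
    (by
      intro g hg
      have h1 := hL2 g (List.mem_toFinset.1 (mem_filter.1 hg).1)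
      have := h1.2
      rw [zero_add] at this
      omega)
    (by omega)
    (by
      intro g hg
      have h1 := hL2 g (List.mem_toFinset.1 (mem_filter.1 hg).1)
      rw [zero_add] at h1
      exact hgen g (mem_filter.1 hg).2 h1)
    (by
      rw [hcard]
      refine (HH_mono (N' := m * n + m + (m + n)) (Nat.le_add_right _ _) _ _ _ hK1).trans ?_
      rw [hΛ]
      exact HH_le m n s)
  have hTT := TT_le (R := 2 ^ Λ) (c := cc m n s) (d := 2 ^ (s + 1)) (S := hh s + (m + n + 1)) (Λ := Λ)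
    (by omega) le_rfl hcΛ hdΛ hSΛ
  have hag : Agree L (fun i => ((z i : ℚ) : ℝ)) x0 := by
    intro g hg
    by_cases h0 : g = 0
    · have e : ∀ x : (Fin m × Fin n) ⊕ Fin m → ℝ, aeval x g = 0 := fun x => by rw [h0]; exact map_zero _
      rw [e, e]
    · exact hz1 g (mem_filter.2 ⟨List.mem_toFinset.2 hg, h0⟩)
  -- the length
  have hΛ21 : 21 ≤ Λ := by
    rw [hΛ]
    calc 21 ≤ 2 ^ 34 := by norm_num
      _ ≤ _ := Nat.pow_le_pow_right (by norm_num) hw.1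
  have hbit : ∀ v, bitLength (z v) ≤ 21 * Λ ^ 3 := by
    intro v
    obtain ⟨h1, h2⟩ := hz2 v
    have h3 : Nat.size (z v).den ≤ 8 * Λ ^ 3 + 1 := by
      rw [Nat.size_le]
      refine lt_of_le_of_lt (h2.trans hTT) ?_
      exact Nat.pow_lt_pow_right (by norm_num) (by omega)
    have h4 : Nat.size (z v).num.natAbs ≤ 8 * Λ ^ 3 + Λ + 2 := by
      rw [Nat.size_le]
      refine lt_of_le_of_lt (h1.trans (Nat.mul_le_mul_left _ hTT)) ?_
      have h5 : 2 ^ Λ + 1 ≤ 2 ^ (Λ + 1) := two_succ Λ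
      calc (2 ^ Λ + 1) * 2 ^ (8 * Λ ^ 3) ≤ 2 ^ (Λ + 1) * 2 ^ (8 * Λ ^ 3) := Nat.mul_le_mul_right _ h5
        _ = 2 ^ (Λ + 1 + 8 * Λ ^ 3) := by rw [← pow_add]
        _ < _ := Nat.pow_lt_pow_right (by norm_num) (by omega)
    unfold bitLength
    have e9 : Λ ≤ Λ ^ 3 := by
      calc Λ = Λ ^ 1 := (pow_one _).symm
        _ ≤ _ := Nat.pow_le_pow_right (by omega) (by norm_num)
    omega
  have hlen : inputLength (fun i j => z (Sum.inl (i, j)) : Matrix (Fin m) (Fin n) ℚ) (fun i => z (Sum.inr i)) ≤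
      2 ^ (5 * ww m n s) := by
    unfold inputLength
    have h1 : ∑ i : Fin m, ∑ j : Fin n, bitLength (z (Sum.inl (i, j))) ≤ m * (n * (21 * Λ ^ 3)) := by
      calc ∑ i : Fin m, ∑ j : Fin n, bitLength (z (Sum.inl (i, j))) ≤
            ∑ _i : Fin m, ∑ _j : Fin n, 21 * Λ ^ 3 := sum_le_sum fun i _ => sum_le_sum fun j _ => hbit _
        _ = _ := by simp
    have h2 : ∑ i : Fin m, bitLength (z (Sum.inr i)) ≤ m * (21 * Λ ^ 3) := by
      calc ∑ i : Fin m, bitLength (z (Sum.inr i)) ≤ ∑ _i : Fin m, 21 * Λ ^ 3 := sum_le_sum fun i _ => hbit _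
        _ = _ := by simp
    have h3 : m * n + m ≤ Λ := by
      have h4 : m * n + m ≤ (s + m + n + 4) * (s + m + n + 4) := by nlinarith [Nat.zero_le (m * n)]
      have h5 : (s + m + n + 4) * (s + m + n + 4) ≤ 2 ^ (s + m + n + 4) * 2 ^ (s + m + n + 4) :=
        Nat.mul_le_mul hu.le hu.le
      rw [← pow_add] at h5
      rw [hΛ]
      exact h4.trans (h5.trans (Nat.pow_le_pow_right (by norm_num) (by omega)))
    calc _ ≤ m * (n * (21 * Λ ^ 3)) + m * (21 * Λ ^ 3) := Nat.add_le_add h1 h2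
      _ = (m * n + m) * (21 * Λ ^ 3) := by ring
      _ ≤ Λ * (Λ * Λ ^ 3) := Nat.mul_le_mul h3 (Nat.mul_le_mul_right _ hΛ21)
      _ = Λ ^ 5 := by ring
      _ = _ := by rw [hΛ, ← pow_mul, mul_comm]
  obtain ⟨k, ans, nums, steps, h1, h2⟩ := H _ _ hlen
  have h3 := hL3 (fun i => ((z i : ℚ) : ℝ)) (st_val _ _ _) hag k ans nums steps
  rw [st_evs, st_evs] at h3
  obtain ⟨nums', h4⟩ := h3 h1 h2
  have e1 : (fun i j => x0 (Sum.inl (i, j))) = A := by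
    rw [hx0]
    rfl
  have e2 : (fun i => x0 (Sum.inr i)) = b := by
    rw [hx0]
    rfl
  rw [e1, e2] at h4
  exact ⟨ans, nums', steps, run_fuel O β k [] _ _ h4 _ (by simpa using h2), h2⟩

theorem fin_lv {ι : Type*} [Fintype ι] (D H : ℕ) :
    {g : MvPolynomial ι ℤ | g.totalDegree ≤ D ∧ mn g ≤ H}.Finite := by
  classical
  obtain ⟨F, hF⟩ : ∃ F : Finset (ι →₀ ℕ), ∀ a : ι →₀ ℕ, ∑ i, a i ≤ D → a ∈ F := by
    refine ⟨(Set.finite_range (fun f : ι → Fin (D + 1) =>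
      Finsupp.equivFunOnFinite.symm (fun i => (f i : ℕ)))).toFinset, fun a ha => ?_⟩
    rw [Set.Finite.mem_toFinset, Set.mem_range]
    refine ⟨fun i => ⟨a i, ?_⟩, ?_⟩
    · have := single_le_sum (f := fun i => a i) (fun _ _ => Nat.zero_le _) (mem_univ i)
      exact Nat.lt_succ_of_le (this.trans ha)
    · ext i
      simp
  refine Set.Finite.subset (Set.finite_range (fun f : F → Fin (2 * H + 1) =>
    ∑ a : F, MvPolynomial.monomial (a : ι →₀ ℕ) (((f a : ℕ) : ℤ) - H))) ?_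
  intro g hg
  obtain ⟨h1, h2⟩ := hg
  have hco : ∀ a, (g.coeff a).natAbs ≤ H := by
    intro a
    by_cases ha : a ∈ g.support
    · exact (single_le_sum (f := fun a => (g.coeff a).natAbs) (fun _ _ => Nat.zero_le _) ha).trans h2
    · rw [notMem_support_iff.1 ha, Int.natAbs_zero]
      exact Nat.zero_le _
  rw [Set.mem_range]
  refine ⟨fun a => ⟨(g.coeff a + H).toNat, ?_⟩, ?_⟩
  · have := hco a
    omega
  · have hsup : g.support ⊆ F := by
      intro a ha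
      apply hF
      have h3 := MvPolynomial.le_totalDegree ha
      have h4 : (a.sum fun _ e => e) = ∑ j, a j := Finsupp.sum_fintype _ _ fun _ => rfl
      rw [h4] at h3
      exact h3.trans h1
    conv_rhs => rw [g.as_sum]
    rw [sum_subset hsup (fun a _ ha => by rw [notMem_support_iff.1 ha, monomial_zero])]
    rw [← Finset.sum_coe_sort F]
    refine sum_congr rfl fun a _ => ?_
    congr 1
    have := hco a
    simp only
    omega

/-- one polynomial for all -/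
theorem exists_F {ι : Type*} [Fintype ι] (s : ℕ) : ∃ F : MvPolynomial ι ℤ, F ≠ 0 ∧ ∀ x : ι → ℝ,
    aeval x F ≠ 0 → ∀ g : MvPolynomial ι ℤ, g ≠ 0 → Lv s g → aeval x g ≠ 0 := by
  classical
  have hfin := fin_lv (ι := ι) (2 ^ s) (hh s)
  refine ⟨∏ g ∈ hfin.toFinset.filter (fun g => g ≠ 0), g, ?_, ?_⟩
  · exact prod_ne_zero_iff.2 fun g hg => (mem_filter.1 hg).2
  · intro x hx g hg hL
    rw [map_prod] at hx
    exact prod_ne_zero_iff.1 hx g (mem_filter.2 ⟨hfin.mem_toFinset.2 hL, hg⟩)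

/-- the choice of the number of steps -/
theorem choose_s {θ : ℝ} (h0 : 0 ≤ θ) {k : ℕ} (hk : 1 ≤ k * (1 - θ)) (P Q w : ℕ) (hQ : 1 ≤ Q)
    (hw : w + 2 ≤ ((2 * P * Q + 1) ^ k + 1) * Q) :
    (P : ℝ) * Real.log (((2 ^ w : ℕ) : ℝ) + 2) ^ θ ≤ ((2 * P * Q + 1) ^ k : ℕ) := by
  obtain ⟨R, hR⟩ : ∃ R, R = 2 * P * Q + 1 := ⟨_, rfl⟩
  obtain ⟨s, hs⟩ : ∃ s, s = R ^ k := ⟨_, rfl⟩
  rw [← hR, ← hs] at hw ⊢
  have hR1 : 1 ≤ R := by omega
  have hs1 : 1 ≤ s := by rw [hs]; exact Nat.one_le_pow _ _ hR1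
  have hR1' : (1 : ℝ) ≤ R := by exact_mod_cast hR1
  have hs1' : (1 : ℝ) ≤ s := by exact_mod_cast hs1
  have hQ' : (1 : ℝ) ≤ Q := by exact_mod_cast hQ
  have hθ1 : θ ≤ 1 := by
    by_contra hcon
    push Not at hcon
    have : (k : ℝ) * (1 - θ) ≤ 0 := mul_nonpos_of_nonneg_of_nonpos (Nat.cast_nonneg _) (by linarith)
    linarith
  have hl : Real.log (((2 ^ w : ℕ) : ℝ) + 2) ≤ (w : ℝ) + 2 := by
    have h1 : ((2 ^ w : ℕ) : ℝ) + 2 ≤ (2 : ℝ) ^ (w + 2) := by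
      have h2 : 2 ^ w + 2 ≤ 2 ^ (w + 2) := by
        rw [pow_add]
        have := Nat.one_le_two_pow (n := w)
        omega
      exact_mod_cast h2
    have h2 := Real.log_le_log (by positivity) h1
    rw [Real.log_pow] at h2
    have h3 : Real.log 2 ≤ 1 := by
      have := Real.log_two_lt_d9
      linarith
    refine h2.trans ?_
    push_cast
    nlinarith
  have hlpos : 0 ≤ Real.log (((2 ^ w : ℕ) : ℝ) + 2) := by
    apply Real.log_nonneg
    have : (0 : ℝ) ≤ ((2 ^ w : ℕ) : ℝ) := Nat.cast_nonneg _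
    linarith
  have hl2 : Real.log (((2 ^ w : ℕ) : ℝ) + 2) ≤ (2 * Q) * s := by
    refine hl.trans ?_
    have h1 : (w : ℝ) + 2 ≤ ((s : ℝ) + 1) * Q := by exact_mod_cast hw
    nlinarith
  have h1 : Real.log (((2 ^ w : ℕ) : ℝ) + 2) ^ θ ≤ (2 * Q) * (s : ℝ) ^ θ := by
    calc Real.log (((2 ^ w : ℕ) : ℝ) + 2) ^ θ ≤ ((2 * Q) * s : ℝ) ^ θ := Real.rpow_le_rpow hlpos hl2 h0
      _ = (2 * Q : ℝ) ^ θ * (s : ℝ) ^ θ := Real.mul_rpow (by positivity) (by positivity)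
      _ ≤ (2 * Q : ℝ) ^ (1 : ℝ) * (s : ℝ) ^ θ := by
          apply mul_le_mul_of_nonneg_right _ (by positivity)
          exact Real.rpow_le_rpow_of_exponent_le (by linarith) hθ1
      _ = _ := by rw [Real.rpow_one]
  have h2 : (R : ℝ) ≤ (s : ℝ) ^ (1 - θ) := by
    rw [hs]
    push_cast
    rw [← Real.rpow_natCast, ← Real.rpow_mul (by linarith)]
    calc (R : ℝ) = (R : ℝ) ^ (1 : ℝ) := (Real.rpow_one _).symm
      _ ≤ _ := Real.rpow_le_rpow_of_exponent_le hR1' hk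
  have h3 : (s : ℝ) ^ (1 - θ) * (s : ℝ) ^ θ = s := by
    rw [← Real.rpow_add (by linarith)]
    simp
  have hsθ : 0 ≤ (s : ℝ) ^ θ := by positivity
  calc (P : ℝ) * Real.log (((2 ^ w : ℕ) : ℝ) + 2) ^ θ ≤ P * ((2 * Q) * (s : ℝ) ^ θ) :=
        mul_le_mul_of_nonneg_left h1 (Nat.cast_nonneg _)
    _ = (2 * P * Q) * (s : ℝ) ^ θ := by ring
    _ ≤ R * (s : ℝ) ^ θ := by
        apply mul_le_mul_of_nonneg_right _ hsθ
        rw [hR]
        push_cast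
        linarith
    _ ≤ (s : ℝ) ^ (1 - θ) * (s : ℝ) ^ θ := mul_le_mul_of_nonneg_right h2 hsθ
    _ = s := h3

/-- the polynomial -/
noncomputable def QP : Polynomial ℕ :=
  (2 * (Polynomial.X + 4) + 1) * (Polynomial.X + 1) ^ 2 + 8 * (Polynomial.X + 4) + 4

theorem QP_eval (N : ℕ) : QP.eval N = QQ N := by
  unfold QP QQ
  simp

theorem QQ_pos (N : ℕ) : 1 ≤ QQ N := by
  unfold QQ
  omega

theorem part_alg (O : Set (List Bool)) (α : Alg) (p : Polynomial ℕ) (θ : ℝ) (h0 : 0 ≤ θ) (h1 : θ < 1)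
    (H : ∀ m n : ℕ, 1 ≤ m → 1 ≤ n → ∀ (L : ℕ) (A : Matrix (Fin m) (Fin n) ℝ) (b : Fin m → ℝ),
      (∀ i j, AlgSize L (A i j)) → (∀ i, AlgSize L (b i)) → ∃ k ans nums steps,
        run O (α m n) k [] (start A b) = some (ans, nums, steps) ∧ (ans = true ↔ Feas A b) ∧
        (steps : ℝ) ≤ p.eval (m + n) * Real.log ((L : ℝ) + 2) ^ θ) :
    ∃ q : Polynomial ℕ, ∀ m n : ℕ, 1 ≤ m → 1 ≤ n → ∀ (A : Matrix (Fin m) (Fin n) ℝ) (b : Fin m → ℝ),
      ∃ ans nums steps, run O (α m n) (q.eval (m + n)) [] (start A b) = some (ans, nums, steps) ∧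
        (ans = true ↔ Feas A b) ∧ steps ≤ q.eval (m + n) := by
  obtain ⟨k, hk⟩ := exists_nat_ge (1 / (1 - θ))
  have hk' : 1 ≤ k * (1 - θ) := by
    rwa [div_le_iff₀ (by linarith)] at hk
  refine ⟨(2 * p * QP + 1) ^ k + 1, fun m n hm hn A b => ?_⟩
  obtain ⟨s, hs⟩ : ∃ s, s = (2 * p.eval (m + n) * QQ (m + n) + 1) ^ k := ⟨_, rfl⟩
  have hq : ((2 * p * QP + 1) ^ k + 1 : Polynomial ℕ).eval (m + n) = s + 1 := by
    rw [hs, ← QP_eval]
    simp
  rw [hq]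
  have hw : ww m n s + 2 ≤ ((2 * p.eval (m + n) * QQ (m + n) + 1) ^ k + 1) * QQ (m + n) := by
    rw [← hs]
    exact ww_le m n s
  have hbd := choose_s h0 hk' (p.eval (m + n)) (QQ (m + n)) (ww m n s) (QQ_pos _) hw
  rw [← hs] at hbd
  obtain ⟨ans, nums, steps, e1, e2, e3⟩ := principle_alg O (α m n) s (fun A' b' hA hb => by
    obtain ⟨k', ans, nums, steps, e1, e2, e3⟩ := H m n hm hn _ A' b' hA hb
    refine ⟨k', ans, nums, steps, e1, e2, ?_⟩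
    have := e3.trans hbd
    exact_mod_cast this) A b
  exact ⟨ans, nums, steps, e1, e2, by omega⟩

theorem part_rat (O : Set (List Bool)) (α : Alg) (p : Polynomial ℕ) (θ : ℝ) (h0 : 0 ≤ θ) (h1 : θ < 1)
    (H : ∀ m n : ℕ, 1 ≤ m → 1 ≤ n → ∀ (A : Matrix (Fin m) (Fin n) ℚ) (b : Fin m → ℚ), ∃ k ans nums steps,
        run O (α m n) k [] (start (fun i j => ((A i j : ℚ) : ℝ)) fun i => ((b i : ℚ) : ℝ)) =
          some (ans, nums, steps) ∧
        (steps : ℝ) ≤ p.eval (m + n) * Real.log ((inputLength A b : ℝ) + 2) ^ θ) :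
    ∃ q : Polynomial ℕ, ∀ m n : ℕ, 1 ≤ m → 1 ≤ n → ∃ F : MvPolynomial ((Fin m × Fin n) ⊕ Fin m) ℤ, F ≠ 0 ∧
      ∀ (A : Matrix (Fin m) (Fin n) ℝ) (b : Fin m → ℝ), aeval (Sum.elim (fun p => A p.1 p.2) b) F ≠ 0 →
      ∃ ans nums steps, run O (α m n) (q.eval (m + n)) [] (start A b) = some (ans, nums, steps) ∧
        steps ≤ q.eval (m + n) := by
  obtain ⟨k, hk⟩ := exists_nat_ge (1 / (1 - θ))
  have hk' : 1 ≤ k * (1 - θ) := by
    rwa [div_le_iff₀ (by linarith)] at hk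
  refine ⟨(2 * p * (5 * QP) + 1) ^ k + 1, fun m n hm hn => ?_⟩
  obtain ⟨s, hs⟩ : ∃ s, s = (2 * p.eval (m + n) * (5 * QQ (m + n)) + 1) ^ k := ⟨_, rfl⟩
  have hq : ((2 * p * (5 * QP) + 1) ^ k + 1 : Polynomial ℕ).eval (m + n) = s + 1 := by
    rw [hs, ← QP_eval]
    simp
  rw [hq]
  have hw : 5 * ww m n s + 2 ≤ ((2 * p.eval (m + n) * (5 * QQ (m + n)) + 1) ^ k + 1) * (5 * QQ (m + n)) := by
    rw [← hs]
    have := ww_le m n s
    nlinarith
  have hbd := choose_s h0 hk' (p.eval (m + n)) (5 * QQ (m + n)) (5 * ww m n s)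
    ((QQ_pos (m + n)).trans (Nat.le_mul_of_pos_left _ (by norm_num))) hw
  rw [← hs] at hbd
  obtain ⟨F, hF0, hF⟩ := exists_F (ι := (Fin m × Fin n) ⊕ Fin m) s
  refine ⟨F, hF0, fun A b hAb => ?_⟩
  obtain ⟨ans, nums, steps, e1, e3⟩ := principle_rat O (α m n) s (fun A' b' hlen => by
    obtain ⟨k', ans, nums, steps, e1, e3⟩ := H m n hm hn A' b'
    refine ⟨k', ans, nums, steps, e1, ?_⟩
    have h2 : Real.log ((inputLength A' b' : ℝ) + 2) ^ θ ≤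
        Real.log (((2 ^ (5 * ww m n s) : ℕ) : ℝ) + 2) ^ θ := by
      obtain ⟨l, hl⟩ : ∃ l : ℕ, l = inputLength A' b' := ⟨_, rfl⟩
      obtain ⟨e, he⟩ : ∃ e : ℕ, e = 2 ^ (5 * ww m n s) := ⟨_, rfl⟩
      rw [← hl, ← he] at hlen
      rw [← hl, ← he]
      have a1 : (0 : ℝ) ≤ (l : ℝ) := Nat.cast_nonneg _
      have a2 : (l : ℝ) ≤ (e : ℝ) := by exact_mod_cast hlen
      apply Real.rpow_le_rpow _ _ h0
      · apply Real.log_nonneg
        linarith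
      · apply Real.log_le_log
        · linarith
        · linarith
    have := (e3.trans (mul_le_mul_of_nonneg_left h2 (Nat.cast_nonneg _))).trans hbd
    exact_mod_cast this) A b (hF _ hAb)
  exact ⟨ans, nums, steps, e1, by omega⟩

end Pool.Agent.K7.H40.GP
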