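import Mathlib

/-!
Sums of absolute values of coefficients.
-/

set_option autoImplicit false

open Finset

namespace Pool.Agent.K7.H40.GP

/-- a submultiplicative length on a commutative ring -/
structure IsN {R : Type*} [CommRing R] (ν : R → ℕ) : Prop where
  zero : ν 0 = 0
  one : ν 1 ≤ 1
  neg : ∀ a, ν (-a) = ν a
  add : ∀ a b, ν (a + b) ≤ ν a + ν b
  mul : ∀ a b, ν (a * b) ≤ ν a * ν b

theorem isN_natAbs : IsN (Int.natAbs : ℤ → ℕ) where
  zero := rfl
  one := le_rfl
  neg := Int.natAbs_neg
  add := Int.natAbs_add_le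
  mul := fun a b => (Int.natAbs_mul a b).le

section
variable {R : Type*} [CommRing R] {ν : R → ℕ}

theorem IsN.sum (h : IsN ν) {β : Type*} (s : Finset β) (f : β → R) : ν (∑ i ∈ s, f i) ≤ ∑ i ∈ s, ν (f i) := by
  classical
  induction s using Finset.induction_on with
  | empty => simp [h.zero]
  | insert a s ha ih =>
    rw [sum_insert ha, sum_insert ha]
    exact (h.add _ _).trans (Nat.add_le_add_left ih _)

theorem IsN.prod (h : IsN ν) {β : Type*} (s : Finset β) (f : β → R) : ν (∏ i ∈ s, f i) ≤ ∏ i ∈ s, ν (f i) := by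
  classical
  induction s using Finset.induction_on with
  | empty => simp [h.one]
  | insert a s ha ih =>
    rw [prod_insert ha, prod_insert ha]
    exact (h.mul _ _).trans (Nat.mul_le_mul_left _ ih)

theorem IsN.pow (h : IsN ν) (a : R) (n : ℕ) : ν (a ^ n) ≤ ν a ^ n := by
  induction n with
  | zero => simpa using h.one
  | succ n ih =>
    rw [pow_succ, pow_succ]
    exact (h.mul _ _).trans (Nat.mul_le_mul_right _ ih)

theorem IsN.sub (h : IsN ν) (a b : R) : ν (a - b) ≤ ν a + ν b := by
  rw [sub_eq_add_neg]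
  exact (h.add _ _).trans (by rw [h.neg])

theorem IsN.det (h : IsN ν) {n : Type*} [Fintype n] [DecidableEq n] (A : Matrix n n R) (K : ℕ)
    (hA : ∀ i j, ν (A i j) ≤ K) : ν A.det ≤ (Fintype.card n).factorial * K ^ Fintype.card n := by
  rw [Matrix.det_apply]
  refine (h.sum _ _).trans ?_
  have h1 : ∀ σ : Equiv.Perm n, ν (Equiv.Perm.sign σ • ∏ i, A (σ i) i) ≤ K ^ Fintype.card n := by
    intro σ
    have h2 : ν (Equiv.Perm.sign σ • ∏ i, A (σ i) i) = ν (∏ i, A (σ i) i) := by
      rcases Int.units_eq_one_or (Equiv.Perm.sign σ) with h3 | h3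
      · rw [h3, one_smul]
      · rw [h3, Units.neg_smul, one_smul, h.neg]
    rw [h2]
    refine (h.prod _ _).trans ?_
    calc ∏ i, ν (A (σ i) i) ≤ ∏ _i : n, K := prod_le_prod (fun _ _ => Nat.zero_le _) fun i _ => hA _ _
      _ = K ^ Fintype.card n := by simp
  calc ∑ σ : Equiv.Perm n, ν (Equiv.Perm.sign σ • ∏ i, A (σ i) i)
      ≤ ∑ _σ : Equiv.Perm n, K ^ Fintype.card n := sum_le_sum fun σ _ => h1 σ
    _ = _ := by simp [Fintype.card_perm]

/-- the sum of the lengths of the coefficients -/
def pn (ν : R → ℕ) (p : Polynomial R) : ℕ := ∑ i ∈ p.support, ν (p.coeff i)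

theorem pn_eq (h : IsN ν) (p : Polynomial R) {s : Finset ℕ} (hs : p.support ⊆ s) :
    pn ν p = ∑ i ∈ s, ν (p.coeff i) := by
  unfold pn
  apply sum_subset hs
  intro i _ hi
  rw [Polynomial.notMem_support_iff.1 hi, h.zero]

theorem pn_add (h : IsN ν) (p q : Polynomial R) : pn ν (p + q) ≤ pn ν p + pn ν q := by
  rw [pn_eq h p (s := p.support ∪ q.support) subset_union_left,
    pn_eq h q (s := p.support ∪ q.support) subset_union_right,
    pn_eq h (p + q) (s := p.support ∪ q.support) Polynomial.support_add, ← sum_add_distrib]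
  exact sum_le_sum fun i _ => by rw [Polynomial.coeff_add]; exact h.add _ _

theorem pn_neg (h : IsN ν) (p : Polynomial R) : pn ν (-p) = pn ν p := by
  unfold pn
  rw [Polynomial.support_neg]
  exact sum_congr rfl fun i _ => by rw [Polynomial.coeff_neg, h.neg]

theorem pn_sum (h : IsN ν) {β : Type*} (s : Finset β) (f : β → Polynomial R) :
    pn ν (∑ i ∈ s, f i) ≤ ∑ i ∈ s, pn ν (f i) := by
  classical
  induction s using Finset.induction_on with
  | empty => simp [pn]
  | insert a s ha ih =>
    rw [sum_insert ha, sum_insert ha]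
    exact (pn_add h _ _).trans (Nat.add_le_add_left ih _)

theorem pn_monomial_mul (h : IsN ν) (n : ℕ) (c : R) (q : Polynomial R) :
    pn ν (Polynomial.monomial n c * q) ≤ ν c * pn ν q := by
  classical
  have h1 : (Polynomial.monomial n c * q).support ⊆ q.support.image (fun i => i + n) := by
    intro k hk
    rw [Polynomial.mem_support_iff] at hk
    by_cases hkn : n ≤ k
    · obtain ⟨j, rfl⟩ := Nat.exists_eq_add_of_le' hkn
      rw [Polynomial.coeff_monomial_mul] at hk
      exact mem_image.2 ⟨j, Polynomial.mem_support_iff.2 fun h0 => hk (by rw [h0, mul_zero]), rfl⟩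
    · exfalso
      apply hk
      rw [← Polynomial.C_mul_X_pow_eq_monomial, mul_assoc, Polynomial.coeff_C_mul,
        mul_comm (Polynomial.X ^ n) q, Polynomial.coeff_mul_X_pow', if_neg hkn, mul_zero]
  rw [pn_eq h _ h1, sum_image (fun a _ b _ hab => by simpa using hab)]
  unfold pn
  rw [mul_sum]
  refine sum_le_sum fun i _ => ?_
  rw [Polynomial.coeff_monomial_mul]
  exact h.mul _ _

theorem pn_mul (h : IsN ν) (p q : Polynomial R) : pn ν (p * q) ≤ pn ν p * pn ν q := by
  have h1 : p * q = ∑ i ∈ p.support, Polynomial.monomial i (p.coeff i) * q := by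
    rw [← sum_mul]
    congr 1
    exact p.as_sum_support
  rw [h1]
  refine (pn_sum h _ _).trans ?_
  unfold pn
  rw [sum_mul]
  exact sum_le_sum fun i _ => pn_monomial_mul h i _ q

theorem pn_monomial (h : IsN ν) (n : ℕ) (c : R) : pn ν (Polynomial.monomial n c) ≤ ν c := by
  rw [pn_eq h _ (Polynomial.support_monomial' n c)]
  simp

theorem pn_C (h : IsN ν) (c : R) : pn ν (Polynomial.C c) ≤ ν c := pn_monomial h 0 c

theorem pn_X (h : IsN ν) : pn ν (Polynomial.X : Polynomial R) ≤ 1 := by
  rw [← Polynomial.monomial_one_one_eq_X]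
  exact (pn_monomial h 1 1).trans h.one

theorem isN_pn (h : IsN ν) : IsN (pn ν) where
  zero := by simp [pn]
  one := by
    have := pn_C h 1
    rw [Polynomial.C_1] at this
    exact this.trans h.one
  neg := pn_neg h
  add := pn_add h
  mul := pn_mul h

theorem coeff_le_pn (h : IsN ν) (p : Polynomial R) (i : ℕ) : ν (p.coeff i) ≤ pn ν p := by
  classical
  by_cases hi : i ∈ p.support
  · exact single_le_sum (f := fun i => ν (p.coeff i)) (fun _ _ => Nat.zero_le _) hi
  · rw [Polynomial.notMem_support_iff.1 hi, h.zero]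
    exact Nat.zero_le _

end

section
variable {ι : Type*}

/-- the sum of the absolute values of the coefficients -/
def mn (p : MvPolynomial ι ℤ) : ℕ := ∑ a ∈ p.support, (p.coeff a).natAbs

theorem mn_eq (p : MvPolynomial ι ℤ) {s : Finset (ι →₀ ℕ)} (hs : p.support ⊆ s) :
    mn p = ∑ i ∈ s, (p.coeff i).natAbs := by
  unfold mn
  apply sum_subset hs
  intro i _ hi
  rw [MvPolynomial.notMem_support_iff.1 hi, Int.natAbs_zero]

theorem mn_add (p q : MvPolynomial ι ℤ) : mn (p + q) ≤ mn p + mn q := by
  classical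
  rw [mn_eq p (s := p.support ∪ q.support) subset_union_left,
    mn_eq q (s := p.support ∪ q.support) subset_union_right,
    mn_eq (p + q) (s := p.support ∪ q.support) MvPolynomial.support_add, ← sum_add_distrib]
  exact sum_le_sum fun i _ => by rw [MvPolynomial.coeff_add]; exact Int.natAbs_add_le _ _

theorem mn_neg (p : MvPolynomial ι ℤ) : mn (-p) = mn p := by
  unfold mn
  rw [MvPolynomial.support_neg]
  exact sum_congr rfl fun i _ => by rw [MvPolynomial.coeff_neg, Int.natAbs_neg]

theorem mn_zero : mn (0 : MvPolynomial ι ℤ) = 0 := by simp [mn]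

theorem mn_sum {β : Type*} (s : Finset β) (f : β → MvPolynomial ι ℤ) :
    mn (∑ i ∈ s, f i) ≤ ∑ i ∈ s, mn (f i) := by
  classical
  induction s using Finset.induction_on with
  | empty => simp [mn]
  | insert a s ha ih =>
    rw [sum_insert ha, sum_insert ha]
    exact (mn_add _ _).trans (Nat.add_le_add_left ih _)

theorem mn_monomial_mul (a : ι →₀ ℕ) (c : ℤ) (q : MvPolynomial ι ℤ) :
    mn (MvPolynomial.monomial a c * q) ≤ c.natAbs * mn q := by
  classical
  have h1 : (MvPolynomial.monomial a c * q).support ⊆ q.support.image (fun i => a + i) := by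
    intro k hk
    rw [MvPolynomial.mem_support_iff, MvPolynomial.coeff_monomial_mul'] at hk
    by_cases hkn : a ≤ k
    · rw [if_pos hkn] at hk
      refine mem_image.2 ⟨k - a, MvPolynomial.mem_support_iff.2 fun h0 => hk (by rw [h0, mul_zero]), ?_⟩
      exact add_tsub_cancel_of_le hkn
    · rw [if_neg hkn] at hk
      exact absurd rfl hk
  rw [mn_eq _ h1, sum_image (fun a _ b _ hab => by simpa using hab)]
  unfold mn
  rw [mul_sum]
  refine sum_le_sum fun i _ => ?_
  rw [MvPolynomial.coeff_monomial_mul]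
  exact (Int.natAbs_mul _ _).le

theorem mn_mul (p q : MvPolynomial ι ℤ) : mn (p * q) ≤ mn p * mn q := by
  have h1 : p * q = ∑ i ∈ p.support, MvPolynomial.monomial i (p.coeff i) * q := by
    rw [← sum_mul]
    congr 1
    exact p.as_sum
  rw [h1]
  refine (mn_sum _ _).trans ?_
  unfold mn
  rw [sum_mul]
  exact sum_le_sum fun i _ => mn_monomial_mul i _ q

theorem mn_monomial (a : ι →₀ ℕ) (c : ℤ) : mn (MvPolynomial.monomial a c) ≤ c.natAbs := by
  classical
  rw [mn_eq _ MvPolynomial.support_monomial_subset]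
  simp

theorem isN_mn : IsN (mn : MvPolynomial ι ℤ → ℕ) where
  zero := mn_zero
  one := by
    have := mn_monomial (0 : ι →₀ ℕ) 1
    simpa using this
  neg := mn_neg
  add := mn_add
  mul := mn_mul

theorem mn_C (c : ℤ) : mn (MvPolynomial.C c : MvPolynomial ι ℤ) ≤ c.natAbs := mn_monomial 0 c

theorem mn_X (i : ι) : mn (MvPolynomial.X i : MvPolynomial ι ℤ) ≤ 1 := mn_monomial _ 1

theorem mn_pderiv (i : ι) (p : MvPolynomial ι ℤ) :
    mn (MvPolynomial.pderiv i p) ≤ p.totalDegree * mn p := by
  classical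
  have h1 : MvPolynomial.pderiv i p =
      ∑ a ∈ p.support, MvPolynomial.pderiv i (MvPolynomial.monomial a (p.coeff a)) := by
    conv_lhs => rw [p.as_sum]
    rw [map_sum]
  rw [h1]
  refine (mn_sum _ _).trans ?_
  unfold mn
  rw [mul_sum]
  refine sum_le_sum fun a ha => ?_
  rw [MvPolynomial.pderiv_monomial]
  refine (mn_monomial _ _).trans ?_
  rw [Int.natAbs_mul, mul_comm]
  refine Nat.mul_le_mul_right _ ?_
  rw [Int.natAbs_natCast]
  refine le_trans ?_ (MvPolynomial.le_totalDegree ha)
  by_cases hi : i ∈ a.support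
  · exact single_le_sum (f := fun i => a i) (fun _ _ => Nat.zero_le _) hi
  · rw [Finsupp.notMem_support_iff.1 hi]
    exact Nat.zero_le _

theorem mn_rename {κ : Type*} (f : ι → κ) (hf : Function.Injective f) (p : MvPolynomial ι ℤ) :
    mn (MvPolynomial.rename f p) ≤ mn p := by
  classical
  have h1 : MvPolynomial.rename f p =
      ∑ a ∈ p.support, MvPolynomial.rename f (MvPolynomial.monomial a (p.coeff a)) := by
    conv_lhs => rw [p.as_sum]
    rw [map_sum]
  rw [h1]
  refine (mn_sum _ _).trans ?_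
  unfold mn
  refine sum_le_sum fun a _ => ?_
  rw [MvPolynomial.rename_monomial]
  exact mn_monomial _ _

end

end Pool.Agent.K7.H40.GP
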