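import Pool.Agent.K7.H40.GP.Nrm

/-!
Polynomial systems `z i ^ E = ε * h i (z)` with `h i` of degree less than `E`: reduction of monomials, and
polynomial equations for the coordinates of the solutions.
-/

set_option autoImplicit false

open Finset

namespace Pool.Agent.K7.H40.GP

variable {ι : Type*} [Fintype ι]

/-- `z` is a solution of the system with the parameter `ε` -/
def Sol (E : ℕ) (h : ι → MvPolynomial ι ℤ) (ε : ℝ) (z : ι → ℝ) : Prop :=
  ∀ i, z i ^ E = ε * MvPolynomial.aeval z (h i)

theorem red [DecidableEq ι] (E : ℕ) (h : ι → MvPolynomial ι ℤ) (hE : ∀ i, (h i).totalDegree < E) (K : ℕ)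
    (hK : 1 ≤ K) (hmn : ∀ i, mn (h i) ≤ K) : ∀ (n : ℕ) (a : ι →₀ ℕ), (∑ i, a i) = n →
    ∃ v : (ι → Fin E) → Polynomial ℤ, (∑ b, pn Int.natAbs (v b)) ≤ K ^ n ∧
      ∀ (ε : ℝ) (z : ι → ℝ), Sol E h ε z →
        ∏ i, z i ^ a i = ∑ b, Polynomial.aeval ε (v b) * ∏ i, z i ^ (b i : ℕ) := by
  intro n
  induction n using Nat.strong_induction_on with
  | _ n ih =>
    intro a ha
    by_cases hlt : ∀ i, a i < E
    · refine ⟨fun b => if b = fun i => ⟨a i, hlt i⟩ then 1 else 0, ?_, ?_⟩
      · have h1 : ∀ b : ι → Fin E, pn Int.natAbs (if b = fun i => ⟨a i, hlt i⟩ then (1 : Polynomial ℤ) else 0) =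
            if b = fun i => ⟨a i, hlt i⟩ then pn Int.natAbs (1 : Polynomial ℤ) else 0 := by
          intro b
          split_ifs
          · rfl
          · exact (isN_pn isN_natAbs).zero
        rw [sum_congr rfl fun b _ => h1 b, sum_ite_eq' univ, if_pos (mem_univ _)]
        exact (isN_pn isN_natAbs).one.trans (Nat.one_le_pow _ _ hK)
      · intro ε z _
        rw [sum_eq_single (fun i => ⟨a i, hlt i⟩ : ι → Fin E)]
        · simp
        · intro b _ hb
          simp [hb]
        · intro h
          exact absurd (mem_univ _) h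
    · push Not at hlt
      obtain ⟨i, hi⟩ := hlt
      obtain ⟨a', ha'⟩ : ∃ a' : ι →₀ ℕ, a' = a - Finsupp.single i E := ⟨_, rfl⟩
      have hmm : a = a' + Finsupp.single i E := by
        rw [ha', tsub_add_cancel_of_le]
        intro j
        by_cases hj : j = i
        · subst hj
          simpa using hi
        · rw [Finsupp.single_apply, if_neg (Ne.symm hj)]
          exact Nat.zero_le _
      have hsingle : ∑ j, (Finsupp.single i E) j = E := by
        rw [sum_eq_single i]
        · simp
        · intro j _ hj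
          rw [Finsupp.single_apply, if_neg (Ne.symm hj)]
        · intro h
          exact absurd (mem_univ _) h
      have hsum : (∑ j, a' j) + E = n := by
        rw [← ha, hmm]
        simp only [Finsupp.add_apply, sum_add_distrib]
        rw [hsingle]
      have hdeg : ∀ c ∈ (h i).support, ∑ j, (a' + c) j < n := by
        intro c hc
        have h1 := MvPolynomial.le_totalDegree hc
        have h2 : (c.sum fun _ e => e) = ∑ j, c j := Finsupp.sum_fintype _ _ fun _ => rfl
        rw [h2] at h1
        have h3 := hE i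
        simp only [Finsupp.add_apply, sum_add_distrib]
        omega
      have hn1 : 1 ≤ n := by
        have := hE i
        omega
      have hex : ∀ c : ι →₀ ℕ, ∃ v : (ι → Fin E) → Polynomial ℤ, c ∈ (h i).support →
          (∑ b, pn Int.natAbs (v b)) ≤ K ^ (n - 1) ∧
          ∀ (ε : ℝ) (z : ι → ℝ), Sol E h ε z →
            ∏ i, z i ^ (a' + c) i = ∑ b, Polynomial.aeval ε (v b) * ∏ i, z i ^ (b i : ℕ) := by
        intro c
        by_cases hc : c ∈ (h i).support
        · obtain ⟨v, hv1, hv2⟩ := ih _ (hdeg c hc) (a' + c) rfl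
          exact ⟨v, fun _ => ⟨hv1.trans (Nat.pow_le_pow_right hK (by have := hdeg c hc; omega)), hv2⟩⟩
        · exact ⟨0, fun h => absurd h hc⟩
      choose v hv using hex
      refine ⟨fun b => ∑ c ∈ (h i).support, Polynomial.monomial 1 ((h i).coeff c) * v c b, ?_, ?_⟩
      · calc ∑ b, pn Int.natAbs (∑ c ∈ (h i).support, Polynomial.monomial 1 ((h i).coeff c) * v c b)
            ≤ ∑ b, ∑ c ∈ (h i).support, ((h i).coeff c).natAbs * pn Int.natAbs (v c b) :=
              sum_le_sum fun b _ => (pn_sum isN_natAbs _ _).trans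
                (sum_le_sum fun c _ => pn_monomial_mul isN_natAbs 1 _ _)
          _ = ∑ c ∈ (h i).support, ((h i).coeff c).natAbs * ∑ b, pn Int.natAbs (v c b) := by
              rw [sum_comm]
              exact sum_congr rfl fun c _ => by rw [mul_sum]
          _ ≤ ∑ c ∈ (h i).support, ((h i).coeff c).natAbs * K ^ (n - 1) :=
              sum_le_sum fun c hc => Nat.mul_le_mul_left _ (hv c hc).1
          _ = mn (h i) * K ^ (n - 1) := by rw [← sum_mul]; rfl
          _ ≤ K * K ^ (n - 1) := Nat.mul_le_mul_right _ (hmn i)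
          _ = K ^ n := by
              rw [← pow_succ']
              congr 1
              omega
      · intro ε z hz
        have h1 : ∏ j, z j ^ a j = (∏ j, z j ^ a' j) * z i ^ E := by
          rw [hmm]
          simp only [Finsupp.add_apply, pow_add, prod_mul_distrib]
          congr 1
          rw [prod_eq_single i]
          · simp
          · intro j _ hj
            rw [Finsupp.single_apply, if_neg (Ne.symm hj), pow_zero]
          · intro h
            exact absurd (mem_univ _) h
        rw [h1, hz i, MvPolynomial.aeval_def, MvPolynomial.eval₂_eq', mul_sum, mul_sum]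
        have h2 : ∀ c ∈ (h i).support, (∏ j, z j ^ a' j) * (ε * ((algebraMap ℤ ℝ) ((h i).coeff c) *
            ∏ j, z j ^ c j)) = ∑ b, Polynomial.aeval ε (Polynomial.monomial 1 ((h i).coeff c) * v c b) *
              ∏ j, z j ^ (b j : ℕ) := by
          intro c hc
          have h3 := (hv c hc).2 ε z hz
          simp only [Finsupp.add_apply, pow_add, prod_mul_distrib] at h3
          have h4 : (∏ j, z j ^ a' j) * (ε * ((algebraMap ℤ ℝ) ((h i).coeff c) * ∏ j, z j ^ c j)) =
              (ε * (algebraMap ℤ ℝ) ((h i).coeff c)) * ((∏ j, z j ^ a' j) * ∏ j, z j ^ c j) := by ring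
          rw [h4, h3, mul_sum]
          refine sum_congr rfl fun b _ => ?_
          rw [map_mul, Polynomial.aeval_monomial, pow_one]
          ring
        rw [sum_congr rfl h2, sum_comm]
        refine sum_congr rfl fun b _ => ?_
        rw [map_sum, sum_mul]

open Polynomial in
theorem mul_matrix [DecidableEq ι] (E : ℕ) (h : ι → MvPolynomial ι ℤ) (hE : ∀ i, (h i).totalDegree < E)
    (K : ℕ) (hK : 1 ≤ K) (hmn : ∀ i, mn (h i) ≤ K) (i : ι) :
    ∃ M : Matrix (ι → Fin E) (ι → Fin E) ℤ[X],
      (∀ b b', pn Int.natAbs (M b b') ≤ K ^ (Fintype.card ι * E)) ∧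
      ∀ (ε : ℝ) (z : ι → ℝ), Sol E h ε z → ∀ b : ι → Fin E,
        z i * ∏ j, z j ^ (b j : ℕ) = ∑ b', aeval ε (M b b') * ∏ j, z j ^ (b' j : ℕ) := by
  classical
  have hex : ∀ b : ι → Fin E, ∃ v : (ι → Fin E) → Polynomial ℤ,
      (∑ b', pn Int.natAbs (v b')) ≤ K ^ (Fintype.card ι * E) ∧
      ∀ (ε : ℝ) (z : ι → ℝ), Sol E h ε z →
        z i * ∏ j, z j ^ (b j : ℕ) = ∑ b', Polynomial.aeval ε (v b') * ∏ j, z j ^ (b' j : ℕ) := by
    intro b
    obtain ⟨v, h1, h2⟩ := red E h hE K hK hmn _
      (Finsupp.equivFunOnFinite.symm (fun j => (b j : ℕ) + if j = i then 1 else 0)) rfl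
    refine ⟨v, h1.trans (Nat.pow_le_pow_right hK ?_), fun ε z hz => ?_⟩
    · simp only [Finsupp.equivFunOnFinite_symm_apply_apply, sum_add_distrib, sum_ite_eq', mem_univ, if_true]
      have h3 : ∑ j, (b j : ℕ) ≤ ∑ _j : ι, (E - 1) := sum_le_sum fun j _ => by
        have := (b j).2
        omega
      rw [sum_const, card_univ, smul_eq_mul] at h3
      have h4 : 1 ≤ Fintype.card ι := Fintype.card_pos_iff.2 ⟨i⟩
      have h5 : 1 ≤ E := by
        have := hE i
        omega
      obtain ⟨e, rfl⟩ := Nat.exists_eq_add_of_le' h5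
      rw [Nat.add_sub_cancel] at h3
      rw [Nat.mul_add, Nat.mul_one]
      omega
    · rw [← h2 ε z hz]
      simp only [Finsupp.equivFunOnFinite_symm_apply_apply, pow_add, prod_mul_distrib]
      rw [mul_comm]
      congr 1
      rw [prod_eq_single i]
      · simp
      · intro j _ hj
        rw [if_neg hj, pow_zero]
      · intro h
        exact absurd (mem_univ _) h
  choose v hv using hex
  refine ⟨fun b b' => v b b', fun b b' => ?_, fun ε z hz b => (hv b).2 ε z hz⟩
  exact (single_le_sum (f := fun b' => pn Int.natAbs (v b b')) (fun _ _ => Nat.zero_le _)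
    (mem_univ b')).trans (hv b).1

end Pool.Agent.K7.H40.GP
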