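import Pool.Agent.K7.H40.GP.Char

/-!
Every sign condition on integer polynomials which is satisfied by a real point is satisfied by a point with
algebraic coordinates of bounded degree and height.
-/

set_option autoImplicit false

open Finset Filter Topology MvPolynomial

namespace Pool.Agent.K7.H40.GP

section
variable {ι : Type*}

theorem aeval_eq_eval (p : MvPolynomial ι ℤ) (x : ι → ℝ) :
    aeval x p = eval x (map (Int.castRingHom ℝ) p) := by
  rw [eval_map, aeval_def]
  rfl

theorem cont_aeval (p : MvPolynomial ι ℤ) : Continuous (fun x : ι → ℝ => aeval x p) := by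
  have : (fun x : ι → ℝ => aeval x p) = fun x => eval x (map (Int.castRingHom ℝ) p) :=
    funext fun x => aeval_eq_eval p x
  rw [this]
  exact continuous_eval _

theorem hasDerivAt_upd [DecidableEq ι] (x : ι → ℝ) (i : ι) (p : MvPolynomial ι ℤ) (t : ℝ) :
    HasDerivAt (fun t => aeval (Function.update x i t) p)
      (aeval (Function.update x i t) (pderiv i p)) t := by
  induction p using MvPolynomial.induction_on with
  | C a =>
    simp only [aeval_C, pderiv_C, map_zero]
    exact hasDerivAt_const t _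
  | add p q hp hq =>
    simp only [map_add]
    exact hp.add hq
  | mul_X p j hp =>
    have hj : HasDerivAt (fun t => Function.update x i t j) (if j = i then 1 else 0) t := by
      by_cases h : j = i
      · subst h
        simp only [Function.update_self, if_true]
        exact hasDerivAt_id t
      · simp only [Function.update_of_ne h, if_neg h]
        exact hasDerivAt_const t _
    have h := hp.fun_mul hj
    have e1 : (fun t => aeval (Function.update x i t) (p * X j)) =
        (fun t => aeval (Function.update x i t) p * Function.update x i t j) := by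
      funext t
      simp
    rw [e1]
    refine h.congr_deriv ?_
    rw [pderiv_mul, map_add, map_mul, map_mul, aeval_X, pderiv_X]
    congr 2
    by_cases hji : j = i
    · subst hji; simp
    · rw [if_neg hji, Pi.single_eq_of_ne hji]; simp

theorem deg_pderiv (i : ι) (p : MvPolynomial ι ℤ) :
    (pderiv i p).totalDegree ≤ p.totalDegree := by
  classical
  unfold totalDegree
  apply Finset.sup_le
  intro m hm
  rw [mem_support_iff, coeff_pderiv] at hm
  have h1 : m + Finsupp.single i 1 ∈ p.support := by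
    rw [mem_support_iff]
    intro h0
    rw [h0, zero_mul] at hm
    exact hm rfl
  have h2 := Finset.le_sup (f := fun s : ι →₀ ℕ => s.sum fun _ e => e) h1
  refine le_trans ?_ h2
  rw [Finsupp.sum_add_index' (by simp) (by simp)]
  exact Nat.le_add_right _ _

end

/-- `t` is a root of a nonzero integer polynomial of degree at most `d`, the sum of the absolute values of the
coefficients being at most `H` -/
def AlgB (d H : ℕ) (t : ℝ) : Prop :=
  ∃ f : Polynomial ℤ, f ≠ 0 ∧ f.natDegree ≤ d ∧ pn Int.natAbs f ≤ H ∧ Polynomial.aeval t f = 0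

/-- the bound for the coefficients -/
def KK (c d S : ℕ) : ℕ := 2 * (c * d + d + 1) * (c * S ^ 2 + (S ^ c + 1) ^ 2)

/-- the bound for the heights -/
def HH (N c d S : ℕ) : ℕ :=
  ((2 * (c * d + d + 1) + 1) ^ (N + 1)).factorial *
    (1 + KK c d S ^ ((N + 1) * (2 * (c * d + d + 1) + 1))) ^ ((2 * (c * d + d + 1) + 1) ^ (N + 1))

/-- critical points -/
theorem critical {κ : Type*} [Fintype κ] [DecidableEq κ] (P : MvPolynomial κ ℤ) (a : ℕ) (η : ℝ) (hη : 0 < η)
    (y : κ → ℝ) (hy : IsLocalMin (fun y : κ → ℝ => aeval y P + η * ∑ i, y i ^ (2 * (a + 1))) y) :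
    Sol (2 * a + 1) (fun i => pderiv i P) (-1 / (η * (2 * (a + 1)))) y := by
  intro i
  have hupd : Function.update y i (y i) = y := Function.update_eq_self i y
  have hcontU : Continuous (fun t => Function.update y i t) := continuous_const.update i continuous_id
  set G : (κ → ℝ) → ℝ := fun y : κ → ℝ => aeval y P + η * ∑ i, y i ^ (2 * (a + 1)) with hG
  have hloc2 : IsLocalMin (fun t => G (Function.update y i t)) (y i) := by
    have : Filter.Tendsto (fun t => Function.update y i t) (nhds (y i)) (nhds y) := by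
      have h := hcontU.tendsto (y i)
      rwa [hupd] at h
    have h2 := this.eventually hy
    change ∀ᶠ t in nhds (y i), G (Function.update y i (y i)) ≤ G (Function.update y i t)
    rw [hupd]
    exact h2
  have hder : HasDerivAt (fun t => G (Function.update y i t))
      (aeval y (pderiv i P) + η * (2 * (a + 1) * y i ^ (2 * a + 1))) (y i) := by
    have d1 := hasDerivAt_upd y i P (y i)
    rw [hupd] at d1
    have d2 : HasDerivAt (fun t => ∑ k, (Function.update y i t k) ^ (2 * (a + 1)))
        (2 * (a + 1) * y i ^ (2 * a + 1)) (y i) := by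
      have e : ∀ k, HasDerivAt (fun t => (Function.update y i t k) ^ (2 * (a + 1)))
          (if k = i then 2 * (a + 1) * y i ^ (2 * a + 1) else 0) (y i) := by
        intro k
        by_cases hk : k = i
        · subst hk
          simp only [Function.update_self, if_true]
          refine (hasDerivAt_pow (2 * (a + 1)) (y k)).congr_deriv ?_
          rw [show 2 * (a + 1) - 1 = 2 * a + 1 by omega]
          push_cast
          ring
        · simp only [Function.update_of_ne hk, if_neg hk]
          exact hasDerivAt_const _ _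
      have := HasDerivAt.fun_sum (fun k (_ : k ∈ Finset.univ) => e k)
      rw [Finset.sum_ite_eq' Finset.univ i, if_pos (Finset.mem_univ i)] at this
      exact this
    have d3 := d1.fun_add (d2.const_mul η)
    have e : (fun t => G (Function.update y i t)) = fun t => aeval (Function.update y i t) P +
        η * ∑ k, (Function.update y i t k) ^ (2 * (a + 1)) := by
      funext t
      simp [hG]
    rw [e]
    exact d3
  have h0 := hloc2.hasDerivAt_eq_zero hder
  have hne : η * (2 * ((a : ℝ) + 1)) ≠ 0 := by positivity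
  field_simp
  linarith

theorem sample {ι : Type*} [Fintype ι] (Q : Finset (MvPolynomial ι ℤ)) (x0 : ι → ℝ) (c d S : ℕ)
    (hc : Q.card ≤ c) (hd : ∀ g ∈ Q, g.totalDegree ≤ d) (hS : ∀ g ∈ Q, mn g ≤ S) (hS1 : 1 ≤ S) :
    ∃ y : Option ι → ℝ, (∀ g ∈ Q, SignType.sign (aeval (fun i => y (some i)) g) = SignType.sign (aeval x0 g)) ∧
      y none * ∏ g ∈ Q.filter (fun g => aeval x0 g ≠ 0), aeval (fun i => y (some i)) g = 1 ∧
      ∀ i, AlgB ((2 * (c * d + d + 1) + 1) ^ (Fintype.card ι + 1)) (HH (Fintype.card ι) c d S) (y i) := by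
  classical
  set J1 := Q.filter (fun g => aeval x0 g ≠ 0) with hJ1
  set J0 := Q.filter (fun g => aeval x0 g = 0) with hJ0
  obtain ⟨D, hD⟩ : ∃ D, D = c * d + d + 1 := ⟨_, rfl⟩
  obtain ⟨G, hG⟩ : ∃ G : MvPolynomial ι ℤ, G = ∏ g ∈ J1, g := ⟨_, rfl⟩
  obtain ⟨P, hP⟩ : ∃ P : MvPolynomial (Option ι) ℤ, P = ∑ g ∈ J0, (rename some g) ^ 2 +
    (X none * rename some G - 1) ^ 2 := ⟨_, rfl⟩
  have hcJ0 : J0.card ≤ c := (card_le_card (filter_subset _ _)).trans hc
  have hcJ1 : J1.card ≤ c := (card_le_card (filter_subset _ _)).trans hc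
  have hPe : ∀ y : Option ι → ℝ, aeval y P = ∑ g ∈ J0, (aeval (fun i => y (some i)) g) ^ 2 +
      (y none * aeval (fun i => y (some i)) G - 1) ^ 2 := by
    intro y
    rw [hP, map_add, map_sum, map_pow, map_sub, map_mul, aeval_X, map_one, aeval_rename]
    congr 1
    refine sum_congr rfl fun g _ => ?_
    rw [map_pow, aeval_rename]
    rfl
  have hP0 : ∀ y : Option ι → ℝ, 0 ≤ aeval y P := by
    intro y
    rw [hPe]
    exact add_nonneg (sum_nonneg fun _ _ => sq_nonneg _) (sq_nonneg _)
  have hGdeg : G.totalDegree ≤ c * d := by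
    rw [hG]
    refine (totalDegree_finsetProd _ _).trans ?_
    calc ∑ g ∈ J1, g.totalDegree ≤ ∑ _g ∈ J1, d := sum_le_sum fun g hg => hd g (mem_filter.1 hg).1
      _ = J1.card * d := by rw [sum_const, smul_eq_mul]
      _ ≤ c * d := Nat.mul_le_mul_right _ hcJ1
  have hPdeg : P.totalDegree ≤ 2 * D := by
    rw [hP]
    refine (totalDegree_add _ _).trans (max_le ?_ ?_)
    · refine totalDegree_finsetSum_le fun g hg => ?_
      refine (totalDegree_pow _ _).trans ?_
      have h1 : (rename (some : ι → Option ι) g).totalDegree ≤ d :=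
        (totalDegree_rename_le _ _).trans (hd g (mem_filter.1 hg).1)
      rw [hD]
      nlinarith [Nat.zero_le (c * d)]
    · refine (totalDegree_pow _ _).trans (Nat.mul_le_mul_left _ ?_)
      refine (totalDegree_sub _ _).trans (max_le ?_ ?_)
      · refine (totalDegree_mul _ _).trans ?_
        have h1 : (X none : MvPolynomial (Option ι) ℤ).totalDegree ≤ 1 := by simp
        have h2 : (rename (some : ι → Option ι) G).totalDegree ≤ c * d := (totalDegree_rename_le _ _).trans hGdeg
        omega
      · simp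
  have hmnG : mn G ≤ S ^ c := by
    rw [hG]
    refine (isN_mn.prod _ _).trans ?_
    calc ∏ g ∈ J1, mn g ≤ ∏ _g ∈ J1, S := prod_le_prod (fun _ _ => Nat.zero_le _)
          fun g hg => hS g (mem_filter.1 hg).1
      _ = S ^ J1.card := by rw [prod_const]
      _ ≤ S ^ c := Nat.pow_le_pow_right hS1 hcJ1
  have hsi : Function.Injective (some : ι → Option ι) := Option.some_injective ι
  have hmnP : mn P ≤ c * S ^ 2 + (S ^ c + 1) ^ 2 := by
    rw [hP]
    refine (isN_mn.add _ _).trans (Nat.add_le_add ?_ ?_)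
    · refine (isN_mn.sum _ _).trans ?_
      calc ∑ g ∈ J0, mn ((rename (some : ι → Option ι) g) ^ 2) ≤ ∑ _g ∈ J0, S ^ 2 := by
            refine sum_le_sum fun g hg => ?_
            refine (isN_mn.pow _ _).trans (Nat.pow_le_pow_left ?_ _)
            exact (mn_rename _ hsi g).trans (hS g (mem_filter.1 hg).1)
        _ = J0.card * S ^ 2 := by rw [sum_const, smul_eq_mul]
        _ ≤ c * S ^ 2 := Nat.mul_le_mul_right _ hcJ0
    · refine (isN_mn.pow _ _).trans (Nat.pow_le_pow_left ?_ _)
      refine (isN_mn.sub _ _).trans (Nat.add_le_add ?_ isN_mn.one)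
      refine (isN_mn.mul _ _).trans ?_
      calc mn (X none : MvPolynomial (Option ι) ℤ) * mn (rename (some : ι → Option ι) G) ≤ 1 * S ^ c :=
            Nat.mul_le_mul (mn_X _) ((mn_rename _ hsi G).trans hmnG)
        _ = S ^ c := one_mul _
  have hK : ∀ i : Option ι, mn (pderiv i P) ≤ KK c d S := by
    intro i
    refine (mn_pderiv i P).trans ?_
    unfold KK
    rw [← hD]
    exact Nat.mul_le_mul hPdeg hmnP
  have hK1 : 1 ≤ KK c d S := by
    unfold KK
    have h1 : 0 < (S ^ c + 1) ^ 2 := by positivity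
    have h2 : 0 < 2 * (c * d + d + 1) := by omega
    have h3 : 0 < c * S ^ 2 + (S ^ c + 1) ^ 2 := by omega
    exact Nat.mul_pos h2 h3
  have hE : ∀ i : Option ι, (pderiv i P).totalDegree < 2 * D + 1 := fun i => by
    have := deg_pderiv i P
    omega
  -- the starting point
  have hGx0 : aeval x0 G ≠ 0 := by
    rw [hG, map_prod]
    exact prod_ne_zero_iff.2 fun g hg => (mem_filter.1 hg).2
  obtain ⟨y0, hy0⟩ : ∃ y0 : Option ι → ℝ, y0 = fun o => o.elim (aeval x0 G)⁻¹ x0 := ⟨_, rfl⟩
  have hy0s : (fun i => y0 (some i)) = x0 := by rw [hy0]; rfl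
  have hy0n : y0 none = (aeval x0 G)⁻¹ := by rw [hy0]; rfl
  have hPy0 : aeval y0 P = 0 := by
    rw [hPe, hy0s, hy0n, inv_mul_cancel₀ hGx0, sub_self, zero_pow two_ne_zero, add_zero]
    refine sum_eq_zero fun g hg => ?_
    rw [(mem_filter.1 hg).2, zero_pow two_ne_zero]
  -- the compact set
  obtain ⟨q, hq⟩ : ∃ q : (Option ι → ℝ) → ℝ, q = fun y => ∑ i, y i ^ (2 * (D + 1)) := ⟨_, rfl⟩
  have hq0 : ∀ y, 0 ≤ q y := by
    intro y
    rw [hq]
    exact sum_nonneg fun i _ => by rw [pow_mul]; positivity
  have hqc : Continuous q := by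
    rw [hq]
    exact continuous_finsetSum _ fun i _ => (continuous_apply i).pow _
  obtain ⟨W, hW⟩ : ∃ W : Set (Option ι → ℝ),
    W = {y | ∀ g ∈ J1, 0 ≤ aeval (fun i => y (some i)) g * aeval x0 g} := ⟨_, rfl⟩
  have hcs : ∀ g : MvPolynomial ι ℤ, Continuous (fun y : Option ι → ℝ => aeval (fun i => y (some i)) g) :=
    fun g => (cont_aeval g).comp (continuous_pi fun i => continuous_apply (some i))
  have hWc : IsClosed W := by
    have : W = ⋂ g ∈ J1, {y : Option ι → ℝ | 0 ≤ aeval (fun i => y (some i)) g * aeval x0 g} := by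
      ext y
      rw [hW]
      simp
    rw [this]
    exact isClosed_biInter fun g _ => isClosed_le continuous_const ((hcs g).mul continuous_const)
  obtain ⟨K0, hK0⟩ : ∃ K0 : Set (Option ι → ℝ), K0 = W ∩ {y | q y ≤ q y0 + 1} := ⟨_, rfl⟩
  have hK0c : IsCompact K0 := by
    refine (isCompact_closedBall (0 : Option ι → ℝ) (q y0 + 1)).of_isClosed_subset ?_ ?_
    · rw [hK0]
      exact hWc.inter (isClosed_le hqc continuous_const)
    · intro y hy
      rw [hK0] at hy
      rw [mem_closedBall_zero_iff, pi_norm_le_iff_of_nonneg (by have := hq0 y0; linarith)]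
      intro i
      have h1 : y i ^ (2 * (D + 1)) ≤ q y := by
        rw [hq]
        exact single_le_sum (f := fun i => y i ^ (2 * (D + 1))) (fun j _ => by rw [pow_mul]; positivity) (mem_univ i)
      have h2 : q y ≤ q y0 + 1 := hy.2
      rw [Real.norm_eq_abs]
      by_contra hcon
      push Not at hcon
      have h3 : 1 ≤ q y0 + 1 := by have := hq0 y0; linarith
      have h4 : (1 : ℝ) ≤ |y i| := by linarith
      have h5 : |y i| ≤ |y i| ^ (2 * (D + 1)) := by
        calc |y i| = |y i| ^ 1 := (pow_one _).symm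
          _ ≤ _ := pow_le_pow_right₀ h4 (by omega)
      have h6 : |y i| ^ (2 * (D + 1)) = y i ^ (2 * (D + 1)) := by rw [pow_mul, sq_abs, ← pow_mul]
      linarith
  have hy0K : y0 ∈ K0 := by
    rw [hK0]
    refine ⟨?_, ?_⟩
    · rw [hW]
      intro g _
      rw [hy0s]
      exact mul_self_nonneg _
    · change q y0 ≤ q y0 + 1
      linarith
  -- minimizers
  have hex : ∀ n : ℕ, ∃ y ∈ K0, ∀ y' ∈ K0, aeval y P + (1 / ((n : ℝ) + 1)) * q y ≤
      aeval y' P + (1 / ((n : ℝ) + 1)) * q y' := by
    intro n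
    have hcont : Continuous (fun y : Option ι → ℝ => aeval y P + (1 / ((n : ℝ) + 1)) * q y) :=
      (cont_aeval P).add (continuous_const.mul hqc)
    obtain ⟨y, hy, hmin⟩ := hK0c.exists_isMinOn ⟨y0, hy0K⟩ hcont.continuousOn
    exact ⟨y, hy, fun y' hy' => hmin hy'⟩
  choose Y hYK hYm using hex
  have hη : ∀ n : ℕ, (0 : ℝ) < 1 / ((n : ℝ) + 1) := fun n => by positivity
  have hYq : ∀ n, q (Y n) ≤ q y0 := by
    intro n
    have h1 := hYm n y0 hy0K
    rw [hPy0, zero_add] at h1
    have h2 := hP0 (Y n)
    have h3 : (1 / ((n : ℝ) + 1)) * q (Y n) ≤ (1 / ((n : ℝ) + 1)) * q y0 := by linarith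
    exact le_of_mul_le_mul_left h3 (hη n)
  have hYP : ∀ n : ℕ, aeval (Y n) P ≤ (1 / ((n : ℝ) + 1)) * q y0 := by
    intro n
    have h1 := hYm n y0 hy0K
    rw [hPy0, zero_add] at h1
    have h2 := mul_nonneg (hη n).le (hq0 (Y n))
    linarith
  obtain ⟨y, hyK, φ, hφ, hlim⟩ := hK0c.tendsto_subseq hYK
  have hPy : aeval y P = 0 := by
    have h1 : Tendsto (fun n => aeval (Y (φ n)) P) atTop (𝓝 (aeval y P)) :=
      ((cont_aeval P).tendsto y).comp hlim
    have h2 : Tendsto (fun n => (1 / (((φ n : ℕ) : ℝ) + 1)) * q y0) atTop (𝓝 0) := by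
      have h3 : Tendsto (fun n : ℕ => 1 / ((n : ℝ) + 1)) atTop (𝓝 0) := tendsto_one_div_add_atTop_nhds_zero_nat
      have h4 := (h3.comp hφ.tendsto_atTop).mul_const (q y0)
      rwa [zero_mul] at h4
    exact le_antisymm (le_of_tendsto_of_tendsto' h1 h2 fun n => hYP (φ n)) (hP0 y)
  rw [hPe] at hPy
  have hPy1 : ∑ g ∈ J0, (aeval (fun i => y (some i)) g) ^ 2 = 0 := by
    have h1 : 0 ≤ ∑ g ∈ J0, (aeval (fun i => y (some i)) g) ^ 2 := sum_nonneg fun _ _ => sq_nonneg _
    have h2 := sq_nonneg (y none * aeval (fun i => y (some i)) G - 1)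
    linarith
  have hPy2 : y none * aeval (fun i => y (some i)) G = 1 := by
    have h1 : 0 ≤ ∑ g ∈ J0, (aeval (fun i => y (some i)) g) ^ 2 := sum_nonneg fun _ _ => sq_nonneg _
    have h2 := sq_nonneg (y none * aeval (fun i => y (some i)) G - 1)
    have h3 : (y none * aeval (fun i => y (some i)) G - 1) ^ 2 = 0 := by linarith
    have h4 := pow_eq_zero_iff (two_ne_zero) |>.mp h3
    linarith
  have hJ0y : ∀ g ∈ J0, aeval (fun i => y (some i)) g = 0 := by
    intro g hg
    have h1 := (sum_eq_zero_iff_of_nonneg fun g _ => sq_nonneg (aeval (fun i => y (some i)) g)).1 hPy1 g hg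
    exact pow_eq_zero_iff (two_ne_zero) |>.mp h1
  have hGy : aeval (fun i => y (some i)) G ≠ 0 := fun h0 => by
    rw [h0, mul_zero] at hPy2
    exact zero_ne_one hPy2
  have hJ1y : ∀ g ∈ J1, 0 < aeval (fun i => y (some i)) g * aeval x0 g := by
    intro g hg
    have h1 : 0 ≤ aeval (fun i => y (some i)) g * aeval x0 g := by
      have := hyK
      rw [hK0, hW] at this
      exact this.1 g hg
    refine lt_of_le_of_ne h1 (Ne.symm (mul_ne_zero ?_ (mem_filter.1 hg).2))
    rw [hG, map_prod] at hGy
    exact prod_ne_zero_iff.1 hGy g hg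
  -- interior
  have hint : ∀ᶠ n in atTop, ∀ g ∈ J1, 0 < aeval (fun i => Y (φ n) (some i)) g * aeval x0 g := by
    rw [Filter.eventually_all_finset]
    intro g hg
    have h1 : Tendsto (fun n => aeval (fun i => Y (φ n) (some i)) g * aeval x0 g) atTop
        (𝓝 (aeval (fun i => y (some i)) g * aeval x0 g)) :=
      ((((hcs g).tendsto y).comp hlim).mul_const _)
    exact h1.eventually (lt_mem_nhds (hJ1y g hg))
  have hsol : ∀ᶠ n in atTop, Sol (2 * D + 1) (fun i => pderiv i P)
      (-1 / ((1 / (((φ n : ℕ) : ℝ) + 1)) * (2 * ((D : ℝ) + 1)))) (Y (φ n)) := by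
    filter_upwards [hint] with n hn
    apply critical P D _ (hη (φ n))
    have hopen : ∀ᶠ z in 𝓝 (Y (φ n)), z ∈ K0 := by
      have h1 : ∀ᶠ z in 𝓝 (Y (φ n)), ∀ g ∈ J1, 0 < aeval (fun i => z (some i)) g * aeval x0 g := by
        rw [Filter.eventually_all_finset]
        intro g hg
        exact ((hcs g).mul continuous_const).continuousAt.eventually (lt_mem_nhds (hn g hg))
      have h2 : ∀ᶠ z in 𝓝 (Y (φ n)), q z < q y0 + 1 :=
        hqc.continuousAt.eventually (gt_mem_nhds (by have := hYq (φ n); linarith))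
      filter_upwards [h1, h2] with z hz1 hz2
      rw [hK0, hW]
      exact ⟨fun g hg => (hz1 g hg).le, hz2.le⟩
    filter_upwards [hopen] with z hz
    have := hYm (φ n) z hz
    rw [hq] at this
    exact this
  refine ⟨y, ?_, ?_, ?_⟩
  · intro g hg
    by_cases h0 : aeval x0 g = 0
    · rw [h0, hJ0y g (mem_filter.2 ⟨hg, h0⟩)]
    · have h1 := hJ1y g (mem_filter.2 ⟨hg, h0⟩)
      rcases lt_or_gt_of_ne h0 with h2 | h2
      · have h3 : aeval (fun i => y (some i)) g < 0 := by
          by_contra hcon
          push Not at hcon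
          have := mul_nonpos_of_nonneg_of_nonpos hcon h2.le
          linarith
        rw [sign_neg h2, sign_neg h3]
      · have h3 : 0 < aeval (fun i => y (some i)) g := by
          by_contra hcon
          push Not at hcon
          have := mul_nonpos_of_nonpos_of_nonneg hcon h2.le
          linarith
        rw [sign_pos h2, sign_pos h3]
  · rw [← hPy2, hG, map_prod]
  · intro i
    obtain ⟨χ, hχ0, hχ1, hχ2, hχ3⟩ := char_eq (2 * D + 1) (fun i => pderiv i P) hE (KK c d S) hK1 hK i
    have hcO : Fintype.card (Option ι) = Fintype.card ι + 1 := Fintype.card_option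
    rw [hcO] at hχ2 hχ3
    refine ⟨χ.leadingCoeff, Polynomial.leadingCoeff_ne_zero.2 hχ0, ?_, ?_, ?_⟩
    · have := hχ2 χ.natDegree
      rw [← hD]
      exact this
    · unfold HH
      rw [← hD]
      exact (coeff_le_pn (isN_pn isN_natAbs) χ χ.natDegree).trans hχ3
    · refine lim_eq (fun n => -1 / ((1 / (((φ n : ℕ) : ℝ) + 1)) * (2 * ((D : ℝ) + 1)))) (fun n => Y (φ n) i) ?_ ?_ ?_
      · have h1 : (fun n => |(-1 : ℝ) / ((1 / (((φ n : ℕ) : ℝ) + 1)) * (2 * ((D : ℝ) + 1)))|) =
            fun n => (((φ n : ℕ) : ℝ) + 1) / (2 * ((D : ℝ) + 1)) := by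
          funext n
          rw [abs_div, abs_neg, abs_one, abs_of_pos (by positivity)]
          field_simp
        rw [h1]
        refine Tendsto.atTop_div_const (by positivity) ?_
        refine tendsto_atTop_add_const_right _ _ ?_
        exact tendsto_natCast_atTop_atTop.comp hφ.tendsto_atTop
      · exact ((continuous_apply i).tendsto y).comp hlim
      · filter_upwards [hsol] with n hn
        exact hχ1 _ _ hn

end Pool.Agent.K7.H40.GP
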