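import Pool.Agent.K7.H40.GP.Samp
import Pool.Agent.H622R3.SM.Model

/-!
Symbolic execution of an algorithm: the behaviour during the first `s` steps depends only on the signs of a few
integer polynomials of controlled degree and height.
-/

set_option autoImplicit false

open Finset MvPolynomial Pool.Agent.H558R2 Pool.Agent.H622R3.SM

namespace Pool.Agent.K7.H40.GP

variable {ι : Type*}

/-- numerator and denominator -/
abbrev Fr (ι : Type*) : Type _ := MvPolynomial ι ℤ × MvPolynomial ι ℤ

/-- bound for the sums of the absolute values of the coefficients after `j` steps -/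
def hh : ℕ → ℕ
  | 0 => 2
  | j + 1 => 2 * hh j ^ 2

theorem hh_pos : ∀ j, 2 ≤ hh j
  | 0 => le_rfl
  | j + 1 => by
    have := hh_pos j
    unfold hh
    nlinarith

theorem hh_succ (j : ℕ) : hh j ≤ hh (j + 1) := by
  have := hh_pos j
  change hh j ≤ 2 * hh j ^ 2
  nlinarith

theorem hh_mono {j j' : ℕ} (h : j ≤ j') : hh j ≤ hh j' := monotone_nat_of_le_succ hh_succ h

theorem hh_le : ∀ j, 2 * hh j ≤ 2 ^ 2 ^ (j + 1)
  | 0 => by norm_num [hh]
  | j + 1 => by
    have h1 := hh_le j
    calc 2 * hh (j + 1) = (2 * hh j) ^ 2 := by
          change 2 * (2 * hh j ^ 2) = (2 * hh j) ^ 2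
          ring
      _ ≤ (2 ^ 2 ^ (j + 1)) ^ 2 := Nat.pow_le_pow_left h1 2
      _ = 2 ^ 2 ^ (j + 1 + 1) := by rw [← pow_mul, ← pow_succ]

/-- a polynomial of level `j` -/
def Lv (j : ℕ) (g : MvPolynomial ι ℤ) : Prop := g.totalDegree ≤ 2 ^ j ∧ mn g ≤ hh j

theorem Lv.mono {j j' : ℕ} {g : MvPolynomial ι ℤ} (h : Lv j g) (hj : j ≤ j') : Lv j' g :=
  ⟨h.1.trans (Nat.pow_le_pow_right (by norm_num) hj), h.2.trans (hh_mono hj)⟩

theorem Lv.mul {j : ℕ} {f g : MvPolynomial ι ℤ} (hf : Lv j f) (hg : Lv j g) :
    (f * g).totalDegree ≤ 2 ^ (j + 1) ∧ mn (f * g) ≤ hh j ^ 2 := by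
  refine ⟨(totalDegree_mul _ _).trans ?_, (isN_mn.mul _ _).trans ?_⟩
  · rw [pow_succ]
    have h1 := hf.1
    have h2 := hg.1
    omega
  · rw [sq]
    exact Nat.mul_le_mul hf.2 hg.2

theorem Lv.mul' {j : ℕ} {f g : MvPolynomial ι ℤ} (hf : Lv j f) (hg : Lv j g) : Lv (j + 1) (f * g) := by
  refine ⟨(hf.mul hg).1, (hf.mul hg).2.trans ?_⟩
  change hh j ^ 2 ≤ 2 * hh j ^ 2
  omega

theorem Lv.mul_add {j : ℕ} {f g f' g' : MvPolynomial ι ℤ} (hf : Lv j f) (hg : Lv j g) (hf' : Lv j f')
    (hg' : Lv j g') : Lv (j + 1) (f * g + f' * g') := by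
  refine ⟨(totalDegree_add _ _).trans (max_le (hf.mul hg).1 (hf'.mul hg').1), (isN_mn.add _ _).trans ?_⟩
  have h1 := (hf.mul hg).2
  have h2 := (hf'.mul hg').2
  change _ ≤ 2 * hh j ^ 2
  omega

theorem Lv.mul_sub {j : ℕ} {f g f' g' : MvPolynomial ι ℤ} (hf : Lv j f) (hg : Lv j g) (hf' : Lv j f')
    (hg' : Lv j g') : Lv (j + 1) (f * g - f' * g') := by
  refine ⟨(totalDegree_sub _ _).trans (max_le (hf.mul hg).1 (hf'.mul hg').1), (isN_mn.sub _ _).trans ?_⟩
  have h1 := (hf.mul hg).2
  have h2 := (hf'.mul hg').2
  change _ ≤ 2 * hh j ^ 2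
  omega

/-- all registers have level `j` -/
def Lvs (j : ℕ) (σ : Reg → Fr ι) : Prop := ∀ r, Lv j (σ r).1 ∧ Lv j (σ r).2

/-- no denominator vanishes -/
def Val (x : ι → ℝ) (σ : Reg → Fr ι) : Prop := ∀ r, aeval x (σ r).2 ≠ 0

/-- the real registers -/
noncomputable def evs (x : ι → ℝ) (σ : Reg → Fr ι) : Reg → ℝ := fun r => aeval x (σ r).1 / aeval x (σ r).2

/-- one operation on fractions -/
noncomputable def osym : Op → Fr ι → Fr ι → Fr ι
  | Op.add, f, g => (f.1 * g.2 + g.1 * f.2, f.2 * g.2)
  | Op.sub, f, g => (f.1 * g.2 - g.1 * f.2, f.2 * g.2)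
  | Op.mul, f, g => (f.1 * g.1, f.2 * g.2)
  | Op.div, f, g => (f.1 * g.2, f.2 * g.1)

theorem osym_lv {j : ℕ} (o : Op) {f g : Fr ι} (hf : Lv j f.1 ∧ Lv j f.2) (hg : Lv j g.1 ∧ Lv j g.2) :
    Lv (j + 1) (osym o f g).1 ∧ Lv (j + 1) (osym o f g).2 := by
  cases o
  · exact ⟨hf.1.mul_add hg.2 hg.1 hf.2, hf.2.mul' hg.2⟩
  · exact ⟨hf.1.mul_sub hg.2 hg.1 hf.2, hf.2.mul' hg.2⟩
  · exact ⟨hf.1.mul' hg.1, hf.2.mul' hg.2⟩
  · exact ⟨hf.1.mul' hg.2, hf.2.mul' hg.1⟩

theorem osym_val (x : ι → ℝ) (o : Op) {f g : Fr ι} (hf : aeval x f.2 ≠ 0) (hg : aeval x g.2 ≠ 0)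
    (h : o = Op.div → aeval x g.1 ≠ 0) : aeval x (osym o f g).2 ≠ 0 ∧
      aeval x (osym o f g).1 / aeval x (osym o f g).2 = o.eval (aeval x f.1 / aeval x f.2) (aeval x g.1 / aeval x g.2) := by
  cases o
  · simp only [osym, map_mul, map_add, Op.eval]
    exact ⟨mul_ne_zero hf hg, by field_simp⟩
  · simp only [osym, map_mul, map_sub, Op.eval]
    exact ⟨mul_ne_zero hf hg, by field_simp⟩
  · simp only [osym, map_mul, Op.eval]
    exact ⟨mul_ne_zero hf hg, by field_simp⟩
  · have h1 := h rfl
    simp only [osym, map_mul, Op.eval]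
    exact ⟨mul_ne_zero hf h1, by field_simp⟩

/-- the same signs -/
def Agree (L : List (MvPolynomial ι ℤ)) (x x0 : ι → ℝ) : Prop :=
  ∀ g ∈ L, SignType.sign (aeval x g) = SignType.sign (aeval x0 g)

theorem Agree.left {L L' : List (MvPolynomial ι ℤ)} {x x0 : ι → ℝ} (h : Agree (L ++ L') x x0) : Agree L x x0 :=
  fun g hg => h g (List.mem_append_left _ hg)

theorem Agree.right {L L' : List (MvPolynomial ι ℤ)} {x x0 : ι → ℝ} (h : Agree (L ++ L') x x0) : Agree L' x x0 :=
  fun g hg => h g (List.mem_append_right _ hg)

theorem Agree.refl (L : List (MvPolynomial ι ℤ)) (x : ι → ℝ) : Agree L x x := fun _ _ => rfl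

theorem evs_zero {x : ι → ℝ} {σ : Reg → Fr ι} {r : Reg} (hv : Val x σ) :
    evs x σ r = 0 ↔ aeval x (σ r).1 = 0 := by
  unfold evs
  rw [div_eq_zero_iff]
  constructor
  · rintro (h | h)
    · exact h
    · exact absurd h (hv r)
  · exact Or.inl

theorem sim_exec (x0 : ι → ℝ) : ∀ (P : List Instr) (σ : Reg → Fr ι) (j : ℕ), Lvs j σ → Val x0 σ →
    ∃ L : List (MvPolynomial ι ℤ), L.length ≤ P.length ∧ (∀ g ∈ L, Lv (j + P.length) g) ∧
      ((∀ x, Val x σ → Agree L x x0 → exec P (evs x σ) = none) ∨
        ∃ σ' : Reg → Fr ι, Lvs (j + P.length) σ' ∧ ∀ x, Val x σ → Agree L x x0 → Val x σ' ∧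
          ∃ n, exec P (evs x σ) = some (evs x σ', n) ∧ n.length = P.length) := by
  intro P
  induction P with
  | nil =>
    intro σ j hσ _
    exact ⟨[], le_rfl, fun g hg => absurd hg List.not_mem_nil, Or.inr ⟨σ, hσ, fun x hx _ =>
      ⟨hx, [], rfl, rfl⟩⟩⟩
  | cons I P ih =>
    intro σ j hσ hv
    by_cases hdiv : I.op = Op.div ∧ aeval x0 (σ I.snd).1 = 0
    · refine ⟨[(σ I.snd).1], by simp, ?_, Or.inl fun x hx hA => ?_⟩
      · intro g hg
        rw [List.mem_singleton] at hg
        rw [hg]
        exact (hσ I.snd).1.mono (by omega)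
      · have h1 := hA _ (List.mem_singleton.2 rfl)
        rw [hdiv.2, sign_zero] at h1
        have h2 := sign_eq_zero_iff.1 h1
        rw [exec, if_pos ⟨hdiv.1, (evs_zero hx).2 h2⟩]
    · obtain ⟨σ1, hσ1⟩ : ∃ σ1 : Reg → Fr ι, σ1 = Function.update σ I.dst (osym I.op (σ I.fst) (σ I.snd)) :=
        ⟨_, rfl⟩
      have hlv : Lvs (j + 1) σ1 := by
        intro r
        rw [hσ1]
        by_cases hr : r = I.dst
        · rw [hr, Function.update_self]
          exact osym_lv _ (hσ _) (hσ _)
        · rw [Function.update_of_ne hr]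
          exact ⟨(hσ r).1.mono (by omega), (hσ r).2.mono (by omega)⟩
      have hstep : ∀ x, Val x σ → (I.op = Op.div → aeval x (σ I.snd).1 ≠ 0) → Val x σ1 ∧
          evs x σ1 = Function.update (evs x σ) I.dst (I.op.eval (evs x σ I.fst) (evs x σ I.snd)) := by
        intro x hx hd
        have h1 := osym_val x I.op (hx I.fst) (hx I.snd) hd
        refine ⟨fun r => ?_, ?_⟩
        · rw [hσ1]
          by_cases hr : r = I.dst
          · rw [hr, Function.update_self]
            exact h1.1
          · rw [Function.update_of_ne hr]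
            exact hx r
        · funext r
          by_cases hr : r = I.dst
          · rw [hr, Function.update_self]
            unfold evs
            rw [hσ1, Function.update_self]
            exact h1.2
          · rw [Function.update_of_ne hr]
            unfold evs
            rw [hσ1, Function.update_of_ne hr]
      have hd0 : I.op = Op.div → aeval x0 (σ I.snd).1 ≠ 0 := fun h h0 => hdiv ⟨h, h0⟩
      obtain ⟨L, hL1, hL2, hL3⟩ := ih σ1 (j + 1) hlv (hstep x0 hv hd0).1
      have hjl : j + 1 + P.length = j + (I :: P).length := by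
        rw [List.length_cons]
        omega
      rw [hjl] at hL2 hL3
      refine ⟨(σ I.snd).1 :: L, by simpa using hL1, ?_, ?_⟩
      · intro g hg
        rcases List.mem_cons.1 hg with h | h
        · rw [h]
          exact (hσ I.snd).1.mono (by omega)
        · exact hL2 g h
      · have hd : ∀ x, Agree ((σ I.snd).1 :: L) x x0 → I.op = Op.div → aeval x (σ I.snd).1 ≠ 0 := by
          intro x hA ho h0
          have h1 := hA _ (List.mem_cons_self)
          rw [h0, sign_zero] at h1
          exact hd0 ho (sign_eq_zero_iff.1 h1.symm)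
        have hAL : ∀ x, Agree ((σ I.snd).1 :: L) x x0 → Agree L x x0 := fun x hA g hg =>
          hA g (List.mem_cons_of_mem _ hg)
        rcases hL3 with h3 | ⟨σ', hσ', h3⟩
        · refine Or.inl fun x hx hA => ?_
          have h4 := hstep x hx (hd x hA)
          rw [exec, if_neg, ← h4.2, h3 x h4.1 (hAL x hA)]
          · rfl
          · rintro ⟨ho, h0⟩
            exact hd x hA ho ((evs_zero hx).1 h0)
        · refine Or.inr ⟨σ', hσ', fun x hx hA => ?_⟩
          have h4 := hstep x hx (hd x hA)
          obtain ⟨h5, n, h6, h7⟩ := h3 x h4.1 (hAL x hA)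
          refine ⟨h5, I.op.eval (evs x σ I.fst) (evs x σ I.snd) :: n, ?_, ?_⟩
          · rw [exec, if_neg, ← h4.2, h6]
            · rfl
            · rintro ⟨ho, h0⟩
              exact hd x hA ho ((evs_zero hx).1 h0)
          · rw [List.length_cons, List.length_cons, h7]

theorem exec_len : ∀ (P : List Instr) (ρ : Reg → ℝ) (r : (Reg → ℝ) × List ℝ), exec P ρ = some r →
    r.2.length = P.length := by
  intro P
  induction P with
  | nil =>
    intro ρ r h
    rw [exec, Option.some.injEq] at h
    rw [← h]
    rfl
  | cons I P ih =>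
    intro ρ r h
    rw [exec] at h
    split_ifs at h
    rw [Option.map_eq_some_iff] at h
    obtain ⟨r', h1, h2⟩ := h
    rw [← h2, List.length_cons, List.length_cons, ih _ _ h1]

theorem sign_inv' (a : ℝ) : SignType.sign a⁻¹ = SignType.sign a := by
  rcases lt_trichotomy 0 a with h | h | h
  · rw [sign_pos h, sign_pos (inv_pos.2 h)]
  · rw [← h, inv_zero]
  · rw [sign_neg h, sign_neg (inv_lt_zero.2 h)]

theorem signOut_agree {x x0 : ι → ℝ} {σ : Reg → Fr ι} {r : Reg} (h : Agree [(σ r).1, (σ r).2] x x0) :
    signOut (evs x σ r) = signOut (evs x0 σ r) := by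
  have h1 := h (σ r).1 (by simp)
  have h2 := h (σ r).2 (by simp)
  have h3 : SignType.sign (evs x σ r) = SignType.sign (evs x0 σ r) := by
    unfold evs
    rw [div_eq_mul_inv, div_eq_mul_inv, sign_mul, sign_mul, h1, sign_inv', sign_inv', h2]
  have h4 : ∀ u v : ℝ, SignType.sign u = SignType.sign v → signOut u = signOut v := by
    intro u v huv
    unfold signOut
    rcases lt_trichotomy 0 v with hv | hv | hv
    · have hu : 0 < u := by rwa [sign_pos hv, sign_eq_one_iff] at huv
      rw [if_pos hu, if_pos hv]
    · have hu : u = 0 := by rwa [← hv, sign_zero, sign_eq_zero_iff] at huv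
      rw [hu, hv]
    · have hu : u < 0 := by rwa [sign_neg hv, sign_eq_neg_one_iff] at huv
      rw [if_neg (not_lt.2 hu.le), if_neg (not_lt.2 hv.le), if_pos hu, if_pos hv]
  exact h4 _ _ h3

open Classical in
/-- the behaviour during `s` steps -/
theorem sim (O : Set (List Bool)) (α : List Outcome → List Instr × Test) (x0 : ι → ℝ) :
    ∀ (s : ℕ) (h : List Outcome) (σ : Reg → Fr ι) (j : ℕ), Lvs j σ → Val x0 σ →
    ∃ L : List (MvPolynomial ι ℤ), L.length ≤ 2 * s + 2 ∧ (∀ g ∈ L, Lv (j + s) g) ∧
      ∀ x, Val x σ → Agree L x x0 → ∀ (k : ℕ) (ans : Bool) (nums : List ℝ) (steps : ℕ),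
        run O α k h (evs x σ) = some (ans, nums, steps) → steps ≤ s →
        ∃ nums', run O α k h (evs x0 σ) = some (ans, nums', steps) := by
  intro s
  induction s using Nat.strong_induction_on with
  | _ s ih =>
    intro h σ j hσ hv
    -- the length of the block
    have hlen : ∀ (x : ι → ℝ) (k : ℕ) (ans : Bool) (nums : List ℝ) (steps : ℕ),
        run O α k h (evs x σ) = some (ans, nums, steps) → (α h).1.length ≤ steps := by
      intro x k ans nums steps hr
      cases k with
      | zero => rw [run] at hr; exact absurd hr (by simp)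
      | succ k =>
        rw [run, Option.bind_eq_some_iff] at hr
        obtain ⟨r, hr1, hr2⟩ := hr
        have hl := exec_len _ _ _ hr1
        cases ht : (α h).2 with
        | answer a =>
          rw [ht] at hr2
          simp only [Option.some.injEq, Prod.mk.injEq] at hr2
          omega
        | sign y =>
          rw [ht] at hr2
          simp only [Option.map_eq_some_iff, Prod.mk.injEq] at hr2
          obtain ⟨_, _, _, _, h3⟩ := hr2
          omega
        | ask w =>
          rw [ht] at hr2
          simp only [Option.map_eq_some_iff, Prod.mk.injEq] at hr2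
          obtain ⟨_, _, _, _, h3⟩ := hr2
          omega
    rcases lt_or_ge s (α h).1.length with hs | hs
    · refine ⟨[], by simp, fun g hg => absurd hg List.not_mem_nil, fun x _ _ k ans nums steps hr hle => ?_⟩
      have := hlen x k ans nums steps hr
      omega
    · obtain ⟨L1, hL1, hL1v, hL1c⟩ := sim_exec x0 (α h).1 σ j hσ hv
      have hL1v' : ∀ g ∈ L1, Lv (j + s) g := fun g hg => (hL1v g hg).mono (by omega)
      rcases hL1c with hnone | ⟨σ', hσ', hex⟩
      · refine ⟨L1, by omega, hL1v', fun x hx hA k ans nums steps hr hle => ?_⟩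
        cases k with
        | zero => rw [run] at hr; exact absurd hr (by simp)
        | succ k =>
          rw [run, hnone x hx hA] at hr
          exact absurd hr (by simp)
      · obtain ⟨hv', n0, hn0, hn0l⟩ := hex x0 hv (Agree.refl _ _)
        cases ht : (α h).2 with
        | answer a =>
          refine ⟨L1, by omega, hL1v', fun x hx hA k ans nums steps hr hle => ?_⟩
          cases k with
          | zero => rw [run] at hr; exact absurd hr (by simp)
          | succ k =>
            obtain ⟨_, n, hn, hnl⟩ := hex x hx hA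
            rw [run, hn, ht] at hr
            simp only [Option.bind_some, Option.some.injEq, Prod.mk.injEq] at hr
            refine ⟨n0, ?_⟩
            rw [run, hn0, ht]
            simp only [Option.bind_some, Option.some.injEq, Prod.mk.injEq, true_and]
            exact ⟨hr.1, by omega⟩
        | sign y =>
          rcases Nat.lt_or_ge s ((α h).1.length + 1) with hs2 | hs2
          · refine ⟨[], by simp, fun g hg => absurd hg List.not_mem_nil, fun x _ _ k ans nums steps hr hle => ?_⟩
            exfalso
            cases k with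
            | zero => rw [run] at hr; exact absurd hr (by simp)
            | succ k =>
              rw [run, Option.bind_eq_some_iff] at hr
              obtain ⟨r, hr1, hr2⟩ := hr
              have hl := exec_len _ _ _ hr1
              rw [ht] at hr2
              simp only [Option.map_eq_some_iff, Prod.mk.injEq] at hr2
              obtain ⟨_, _, _, _, h3⟩ := hr2
              omega
          · obtain ⟨L3, hL3, hL3v, hL3c⟩ := ih (s - (α h).1.length - 1) (by omega)
              (h ++ [signOut (evs x0 σ' y)]) σ' (j + (α h).1.length) hσ' hv'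
            refine ⟨L1 ++ ([(σ' y).1, (σ' y).2] ++ L3), ?_, ?_, ?_⟩
            · rw [List.length_append, List.length_append]
              simp only [List.length_cons, List.length_nil]
              omega
            · intro g hg
              rcases List.mem_append.1 hg with hg | hg
              · exact hL1v' g hg
              · rcases List.mem_append.1 hg with hg | hg
                · simp only [List.mem_cons, List.not_mem_nil, or_false] at hg
                  rcases hg with hg | hg
                  · rw [hg]; exact (hσ' y).1.mono (by omega)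
                  · rw [hg]; exact (hσ' y).2.mono (by omega)
                · exact (hL3v g hg).mono (by omega)
            · intro x hx hA k ans nums steps hr hle
              cases k with
              | zero => rw [run] at hr; exact absurd hr (by simp)
              | succ k =>
                obtain ⟨hxv, n, hn, hnl⟩ := hex x hx hA.left
                have hso := signOut_agree (σ := σ') (r := y) hA.right.left
                rw [run, hn, ht] at hr
                simp only [Option.bind_some, Option.map_eq_some_iff, Prod.mk.injEq] at hr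
                obtain ⟨⟨a1, nn, st⟩, h1, h2, h3, h4⟩ := hr
                simp only at h2 h3 h4
                rw [hso] at h1
                obtain ⟨nums', h5⟩ := hL3c x hxv hA.right.right k a1 nn st h1 (by omega)
                refine ⟨n0 ++ nums', ?_⟩
                rw [run, hn0, ht]
                simp only [Option.bind_some]
                rw [h5]
                simp only [Option.map_some, Option.some.injEq, Prod.mk.injEq, true_and]
                exact ⟨h2, by omega⟩
        | ask w =>
          rcases Nat.lt_or_ge s ((α h).1.length + 1) with hs2 | hs2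
          · refine ⟨[], by simp, fun g hg => absurd hg List.not_mem_nil, fun x _ _ k ans nums steps hr hle => ?_⟩
            exfalso
            cases k with
            | zero => rw [run] at hr; exact absurd hr (by simp)
            | succ k =>
              rw [run, Option.bind_eq_some_iff] at hr
              obtain ⟨r, hr1, hr2⟩ := hr
              have hl := exec_len _ _ _ hr1
              rw [ht] at hr2
              simp only [Option.map_eq_some_iff, Prod.mk.injEq] at hr2
              obtain ⟨_, _, _, _, h3⟩ := hr2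
              omega
          · obtain ⟨L3, hL3, hL3v, hL3c⟩ := ih (s - (α h).1.length - 1) (by omega)
              (h ++ [some (decide (w ∈ O))]) σ' (j + (α h).1.length) hσ' hv'
            refine ⟨L1 ++ L3, ?_, ?_, ?_⟩
            · rw [List.length_append]
              omega
            · intro g hg
              rcases List.mem_append.1 hg with hg | hg
              · exact hL1v' g hg
              · exact (hL3v g hg).mono (by omega)
            · intro x hx hA k ans nums steps hr hle
              cases k with
              | zero => rw [run] at hr; exact absurd hr (by simp)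
              | succ k =>
                obtain ⟨hxv, n, hn, hnl⟩ := hex x hx hA.left
                rw [run, hn, ht] at hr
                simp only [Option.bind_some, Option.map_eq_some_iff, Prod.mk.injEq] at hr
                obtain ⟨⟨a1, nn, st⟩, h1, h2, h3, h4⟩ := hr
                simp only at h2 h3 h4
                obtain ⟨nums', h5⟩ := hL3c x hxv hA.right k a1 nn st h1 (by omega)
                refine ⟨n0 ++ nums', ?_⟩
                rw [run, hn0, ht]
                simp only [Option.bind_some]
                rw [h5]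
                simp only [Option.map_some, Option.some.injEq, Prod.mk.injEq, true_and]
                exact ⟨h2, by omega⟩

end Pool.Agent.K7.H40.GP
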