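import Pool.Agent.K7.H40.GP.Sim
import Pool.Agent.H622R3.SM.T_FARKAS

/-!
Transfer between real instances and instances with algebraic entries of bounded degree and height.
-/

set_option autoImplicit false

open Finset MvPolynomial Pool.Agent.H558R2 Pool.Agent.H622R3.SM

namespace Pool.Agent.K7.H40.GP

variable {ι : Type*}

/-- the symbolic initial store -/
noncomputable def st {m n : ℕ} (vA : Fin m → Fin n → ι) (vb : Fin m → ι) : Reg → Fr ι
  | [0, i, j] => if h : i < m ∧ j < n then (X (vA ⟨i, h.1⟩ ⟨j, h.2⟩), 1) else (0, 1)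
  | [1, i] => if h : i < m then (X (vb ⟨i, h⟩), 1) else (0, 1)
  | [2] => (1, 1)
  | _ => (0, 1)

theorem lv_X (i : ι) : Lv 0 (X i : MvPolynomial ι ℤ) :=
  ⟨by simp, (mn_X i).trans (by norm_num [hh])⟩

theorem lv_one : Lv 0 (1 : MvPolynomial ι ℤ) := ⟨by simp, isN_mn.one.trans (by norm_num [hh])⟩

theorem lv_zero : Lv 0 (0 : MvPolynomial ι ℤ) := ⟨by simp, by rw [mn_zero]; exact Nat.zero_le _⟩

theorem st_cases {m n : ℕ} (vA : Fin m → Fin n → ι) (vb : Fin m → ι) (r : Reg) :
    ((∃ i, (st vA vb r).1 = X i) ∨ (st vA vb r).1 = 0 ∨ (st vA vb r).1 = 1) ∧ (st vA vb r).2 = 1 := by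
  unfold st
  split
  · split_ifs
    · exact ⟨Or.inl ⟨_, rfl⟩, rfl⟩
    · exact ⟨Or.inr (Or.inl rfl), rfl⟩
  · split_ifs
    · exact ⟨Or.inl ⟨_, rfl⟩, rfl⟩
    · exact ⟨Or.inr (Or.inl rfl), rfl⟩
  · exact ⟨Or.inr (Or.inr rfl), rfl⟩
  · exact ⟨Or.inr (Or.inl rfl), rfl⟩

theorem st_lvs {m n : ℕ} (vA : Fin m → Fin n → ι) (vb : Fin m → ι) : Lvs 0 (st vA vb) := by
  intro r
  obtain ⟨h1, h2⟩ := st_cases vA vb r
  rw [h2]
  refine ⟨?_, lv_one⟩
  rcases h1 with ⟨i, h⟩ | h | h
  · rw [h]; exact lv_X i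
  · rw [h]; exact lv_zero
  · rw [h]; exact lv_one

theorem st_val {m n : ℕ} (vA : Fin m → Fin n → ι) (vb : Fin m → ι) (x : ι → ℝ) : Val x (st vA vb) := by
  intro r
  rw [(st_cases vA vb r).2, map_one]
  exact one_ne_zero

theorem st_evs {m n : ℕ} (vA : Fin m → Fin n → ι) (vb : Fin m → ι) (x : ι → ℝ) :
    evs x (st vA vb) = start (fun i j => x (vA i j)) (fun i => x (vb i)) := by
  funext r
  unfold evs
  rw [(st_cases vA vb r).2, map_one, div_one]
  unfold st
  split
  · split_ifs with h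
    · rw [aeval_X]
      simp [start, h]
    · rw [map_zero]
      simp [start, h]
  · split_ifs with h
    · rw [aeval_X]
      simp [start, h]
    · rw [map_zero]
      simp [start, h]
  · rw [map_one]
    simp [start]
  · rename_i h1 h2 h3
    rw [map_zero]
    unfold start
    split
    · exact (h1 _ _ rfl).elim
    · exact (h2 _ rfl).elim
    · exact (h3 rfl).elim
    · rfl

open Classical in
theorem run_fuel (O : Set (List Bool)) (β : List Outcome → List Instr × Test) :
    ∀ (k : ℕ) (h : List Outcome) (ρ : Reg → ℝ) (x : Bool × List ℝ × ℕ),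
      run O β k h ρ = some x → ∀ k', x.2.2 + 1 ≤ k' → run O β k' h ρ = some x := by
  intro k
  induction k with
  | zero => intro h ρ x hx; simp [run] at hx
  | succ k ih =>
    intro h ρ x hx k' hk'
    obtain ⟨k', rfl⟩ : ∃ j, k' = j + 1 := ⟨k' - 1, by omega⟩
    rw [run] at hx ⊢
    cases h1 : exec (β h).1 ρ with
    | none => rw [h1] at hx; simp at hx
    | some r =>
      rw [h1] at hx
      simp only [Option.bind_some] at hx ⊢
      cases h2 : (β h).2 with
      | answer a => rw [h2] at hx; exact hx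
      | sign y =>
        rw [h2] at hx
        simp only at hx ⊢
        cases h3 : run O β k (h ++ [signOut (r.1 y)]) r.1 with
        | none => rw [h3] at hx; simp at hx
        | some z =>
          rw [h3] at hx
          simp only [Option.map_some, Option.some.injEq] at hx
          have h4 : z.2.2 + 1 ≤ k' := by
            rw [← hx] at hk'
            simp only at hk'
            omega
          rw [ih _ _ _ h3 k' h4, Option.map_some, hx]
      | ask w =>
        rw [h2] at hx
        simp only at hx ⊢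
        cases h3 : run O β k (h ++ [some (decide (w ∈ O))]) r.1 with
        | none => rw [h3] at hx; simp at hx
        | some z =>
          rw [h3] at hx
          simp only [Option.map_some, Option.some.injEq] at hx
          have h4 : z.2.2 + 1 ≤ k' := by
            rw [← hx] at hk'
            simp only at hk'
            omega
          rw [ih _ _ _ h3 k' h4, Option.map_some, hx]

/-- linear feasibility -/
def Feas {m n : ℕ} (A : Matrix (Fin m) (Fin n) ℝ) (b : Fin m → ℝ) : Prop := ∃ x : Fin n → ℝ, b ≤ A.mulVec x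

theorem not_feas {m n : ℕ} (A : Matrix (Fin m) (Fin n) ℝ) (b : Fin m → ℝ) : ¬ Feas A b ↔
    ∃ y : Fin m → ℝ, (∀ i, 0 ≤ y i) ∧ (∀ j, ∑ i, y i * A i j = 0) ∧ 0 < ∑ i, y i * b i := by
  have h := t_FARKAS m n (A, b)
  rw [← h]
  apply not_congr
  unfold Feas Pool.Agent.H558R2.Feas
  constructor
  · rintro ⟨x, hx⟩
    exact ⟨x, fun i => hx i⟩
  · rintro ⟨x, hx⟩
    exact ⟨x, fun i => hx i⟩

/-- variables: the entries of `A` and `b`, and the certificates -/
abbrev Var (m n : ℕ) : Type := ((Fin m × Fin n) ⊕ Fin m) ⊕ (Fin m ⊕ Fin n)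

abbrev vA {m n : ℕ} (i : Fin m) (j : Fin n) : Var m n := Sum.inl (Sum.inl (i, j))
abbrev vb {m n : ℕ} (i : Fin m) : Var m n := Sum.inl (Sum.inr i)
abbrev vy {m n : ℕ} (i : Fin m) : Var m n := Sum.inr (Sum.inl i)
abbrev vx {m n : ℕ} (j : Fin n) : Var m n := Sum.inr (Sum.inr j)

/-- the number of polynomials -/
def cc (m n s : ℕ) : ℕ := 2 * s + 2 + (m + n + 1)

/-- `Size L t`: the number `t` is a root of a nonzero integer polynomial of degree at most `L` whose
coefficients have absolute value at most `2 ^ L` -/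
def AlgSize (L : ℕ) (t : ℝ) : Prop :=
  ∃ f : Polynomial ℤ, f ≠ 0 ∧ f.natDegree ≤ L ∧ (∀ i, |f.coeff i| ≤ 2 ^ L) ∧ Polynomial.aeval t f = 0

theorem algSize_of {d H L : ℕ} {t : ℝ} (h : AlgB d H t) (hd : d ≤ L) (hH : H ≤ 2 ^ L) : AlgSize L t := by
  obtain ⟨f, h1, h2, h3, h4⟩ := h
  refine ⟨f, h1, h2.trans hd, fun i => ?_, h4⟩
  rw [Int.abs_eq_natAbs]
  have := (coeff_le_pn isN_natAbs f i).trans (h3.trans hH)
  exact_mod_cast this

/-- the list of the conditions for solvability -/
noncomputable def fl (m n : ℕ) : List (MvPolynomial (Var m n) ℤ) :=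
  List.ofFn fun i : Fin m => ∑ j : Fin n, X (vA i j) * X (vx j) - X (vb i)

/-- the list of the conditions for insolvability -/
noncomputable def gl (m n : ℕ) : List (MvPolynomial (Var m n) ℤ) :=
  (List.ofFn fun i : Fin m => X (vy i)) ++ (List.ofFn fun j : Fin n => ∑ i : Fin m, X (vy i) * X (vA i j)) ++
    [∑ i : Fin m, X (vy i) * X (vb i)]

theorem mn_XX (i j : ι) : mn (X i * X j : MvPolynomial ι ℤ) ≤ 1 :=
  (isN_mn.mul _ _).trans (Nat.mul_le_mul (mn_X i) (mn_X j))

theorem deg_XX (i j : ι) : (X i * X j : MvPolynomial ι ℤ).totalDegree ≤ 2 :=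
  (totalDegree_mul _ _).trans (by simp)

theorem fl_bd (m n : ℕ) : (fl m n).length ≤ m + n + 1 ∧ ∀ g ∈ fl m n, g.totalDegree ≤ 2 ∧ mn g ≤ m + n + 1 := by
  refine ⟨by rw [fl, List.length_ofFn]; omega, ?_⟩
  intro g hg
  rw [fl, List.mem_ofFn] at hg
  obtain ⟨i, rfl⟩ := hg
  refine ⟨?_, ?_⟩
  · refine (totalDegree_sub _ _).trans (max_le ?_ (by simp))
    exact totalDegree_finsetSum_le fun j _ => deg_XX _ _
  · refine (isN_mn.sub _ _).trans ?_
    have h1 : mn (∑ j : Fin n, X (vA i j) * X (vx j) : MvPolynomial (Var m n) ℤ) ≤ n := by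
      refine (isN_mn.sum _ _).trans ?_
      calc ∑ j : Fin n, mn (X (vA i j) * X (vx j) : MvPolynomial (Var m n) ℤ) ≤ ∑ _j : Fin n, 1 :=
            sum_le_sum fun j _ => mn_XX _ _
        _ = n := by simp
    have h2 := mn_X (vb i : Var m n)
    omega

theorem gl_bd (m n : ℕ) : (gl m n).length ≤ m + n + 1 ∧ ∀ g ∈ gl m n, g.totalDegree ≤ 2 ∧ mn g ≤ m + n + 1 := by
  refine ⟨by rw [gl, List.length_append, List.length_append, List.length_ofFn, List.length_ofFn]; simp, ?_⟩
  have h1 : ∀ f : Fin m → Var m n, mn (∑ i : Fin m, X (vy i) * X (f i) : MvPolynomial (Var m n) ℤ) ≤ m := by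
    intro f
    refine (isN_mn.sum _ _).trans ?_
    calc ∑ i : Fin m, mn (X (vy i) * X (f i) : MvPolynomial (Var m n) ℤ) ≤ ∑ _i : Fin m, 1 :=
          sum_le_sum fun j _ => mn_XX _ _
      _ = m := by simp
  intro g hg
  rw [gl, List.mem_append, List.mem_append, List.mem_ofFn, List.mem_ofFn, List.mem_singleton] at hg
  rcases hg with (⟨i, rfl⟩ | ⟨j, rfl⟩) | rfl
  · refine ⟨by simp, ?_⟩
    have h2 := mn_X (vy i : Var m n)
    omega
  · refine ⟨totalDegree_finsetSum_le fun j _ => deg_XX _ _, ?_⟩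
    have := h1 (fun i => vA i j)
    omega
  · refine ⟨totalDegree_finsetSum_le fun j _ => deg_XX _ _, ?_⟩
    have := h1 (fun i => vb i)
    omega

/-- **Transfer.** -/
theorem transfer (O : Set (List Bool)) {m n : ℕ} (β : List Outcome → List Instr × Test) (s : ℕ)
    (A : Matrix (Fin m) (Fin n) ℝ) (b : Fin m → ℝ) :
    ∃ (A' : Matrix (Fin m) (Fin n) ℝ) (b' : Fin m → ℝ),
      (∀ i j, AlgB ((2 * (cc m n s * 2 ^ (s + 1) + 2 ^ (s + 1) + 1) + 1) ^ (m * n + m + (m + n) + 1))
        (HH (m * n + m + (m + n)) (cc m n s) (2 ^ (s + 1)) (hh s + (m + n + 1))) (A' i j)) ∧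
      (∀ i, AlgB ((2 * (cc m n s * 2 ^ (s + 1) + 2 ^ (s + 1) + 1) + 1) ^ (m * n + m + (m + n) + 1))
        (HH (m * n + m + (m + n)) (cc m n s) (2 ^ (s + 1)) (hh s + (m + n + 1))) (b' i)) ∧
      (Feas A' b' ↔ Feas A b) ∧
      ∀ (k : ℕ) (ans : Bool) (nums : List ℝ) (steps : ℕ),
        run O β k [] (start A' b') = some (ans, nums, steps) → steps ≤ s →
        ∃ nums', run O β k [] (start A b) = some (ans, nums', steps) := by
  classical
  have hcard : Fintype.card (Var m n) = m * n + m + (m + n) := by simp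
  -- the general step
  have key : ∀ (x0 : Var m n → ℝ) (L' : List (MvPolynomial (Var m n) ℤ)), (∀ i j, x0 (vA i j) = A i j) →
      (∀ i, x0 (vb i) = b i) → L'.length ≤ m + n + 1 → (∀ g ∈ L', g.totalDegree ≤ 2 ∧ mn g ≤ m + n + 1) →
      ∃ x : Var m n → ℝ, Agree L' x x0 ∧
        (∀ v, AlgB ((2 * (cc m n s * 2 ^ (s + 1) + 2 ^ (s + 1) + 1) + 1) ^ (m * n + m + (m + n) + 1))
          (HH (m * n + m + (m + n)) (cc m n s) (2 ^ (s + 1)) (hh s + (m + n + 1))) (x v)) ∧
        ∀ (k : ℕ) (ans : Bool) (nums : List ℝ) (steps : ℕ),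
          run O β k [] (start (fun i j => x (vA i j)) (fun i => x (vb i))) = some (ans, nums, steps) → steps ≤ s →
          ∃ nums', run O β k [] (start A b) = some (ans, nums', steps) := by
    intro x0 L' hA hb hL' hL'b
    obtain ⟨L, hL1, hL2, hL3⟩ := sim O β x0 s [] (st vA vb) 0 (st_lvs _ _) (st_val _ _ _)
    obtain ⟨y, hy1, _, hy3⟩ := sample (L ++ L').toFinset x0 (cc m n s) (2 ^ (s + 1)) (hh s + (m + n + 1))
      (by
        refine (List.toFinset_card_le _).trans ?_
        rw [List.length_append]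
        unfold cc
        omega)
      (by
        intro g hg
        rw [List.mem_toFinset, List.mem_append] at hg
        rcases hg with hg | hg
        · refine (hL2 g hg).1.trans ?_
          rw [zero_add]
          exact Nat.pow_le_pow_right (by norm_num) (by omega)
        · refine (hL'b g hg).1.trans ?_
          calc 2 = 2 ^ 1 := rfl
            _ ≤ _ := Nat.pow_le_pow_right (by norm_num) (by omega))
      (by
        intro g hg
        rw [List.mem_toFinset, List.mem_append] at hg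
        rcases hg with hg | hg
        · have := (hL2 g hg).2
          rw [zero_add] at this
          omega
        · have := (hL'b g hg).2
          omega)
      (by omega)
    rw [hcard] at hy3
    have hag : Agree (L ++ L') (fun i => y (some i)) x0 := fun g hg => hy1 g (List.mem_toFinset.2 hg)
    refine ⟨fun i => y (some i), hag.right, fun v => hy3 (some v), ?_⟩
    intro k ans nums steps hr hle
    have h1 := hL3 (fun i => y (some i)) (st_val _ _ _) hag.left k ans nums steps
    rw [st_evs, st_evs] at h1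
    have h2 := h1 hr hle
    have e1 : (fun i j => x0 (vA i j)) = A := by
      funext i j
      exact hA i j
    have e2 : (fun i => x0 (vb i)) = b := funext hb
    rw [e1, e2] at h2
    exact h2
  by_cases hF : Feas A b
  · obtain ⟨x, hx⟩ := hF
    obtain ⟨x0, hx0⟩ : ∃ x0 : Var m n → ℝ, x0 = Sum.elim (Sum.elim (fun p => A p.1 p.2) b) (Sum.elim 0 x) :=
      ⟨_, rfl⟩
    obtain ⟨z, hz1, hz2, hz3⟩ := key x0 (fl m n) (by intro i j; rw [hx0]; rfl) (by intro i; rw [hx0]; rfl)
      (fl_bd m n).1 (fl_bd m n).2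
    refine ⟨fun i j => z (vA i j), fun i => z (vb i), fun i j => hz2 _, fun i => hz2 _, ?_, hz3⟩
    have h1 : Feas (fun i j => z (vA i j)) (fun i => z (vb i)) := by
      refine ⟨fun j => z (vx j), fun i => ?_⟩
      have h2 := hz1 (∑ j : Fin n, X (vA i j) * X (vx j) - X (vb i)) (by
        rw [fl, List.mem_ofFn]
        exact ⟨i, rfl⟩)
      have h3 : ∀ w : Var m n → ℝ, aeval w (∑ j : Fin n, X (vA i j) * X (vx j) - X (vb i) : MvPolynomial (Var m n) ℤ) =
          ∑ j : Fin n, w (vA i j) * w (vx j) - w (vb i) := by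
        intro w
        rw [map_sub, map_sum, aeval_X]
        congr 1
        refine sum_congr rfl fun j _ => ?_
        rw [map_mul, aeval_X, aeval_X]
      rw [h3, h3] at h2
      have h4 : 0 ≤ ∑ j : Fin n, x0 (vA i j) * x0 (vx j) - x0 (vb i) := by
        rw [hx0, sub_nonneg]
        exact hx i
      have h5 : 0 ≤ ∑ j : Fin n, z (vA i j) * z (vx j) - z (vb i) := by
        rw [← sign_nonneg_iff, h2, sign_nonneg_iff]
        exact h4
      rw [sub_nonneg] at h5
      exact h5
    exact ⟨fun _ => ⟨x, hx⟩, fun _ => h1⟩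
  · obtain ⟨y, hy1, hy2, hy3⟩ := (not_feas A b).1 hF
    obtain ⟨x0, hx0⟩ : ∃ x0 : Var m n → ℝ, x0 = Sum.elim (Sum.elim (fun p => A p.1 p.2) b) (Sum.elim y 0) :=
      ⟨_, rfl⟩
    obtain ⟨z, hz1, hz2, hz3⟩ := key x0 (gl m n) (by intro i j; rw [hx0]; rfl) (by intro i; rw [hx0]; rfl)
      (gl_bd m n).1 (gl_bd m n).2
    refine ⟨fun i j => z (vA i j), fun i => z (vb i), fun i j => hz2 _, fun i => hz2 _, ?_, hz3⟩
    have h1 : ¬ Feas (fun i j => z (vA i j)) (fun i => z (vb i)) := by
      rw [not_feas]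
      have hs : ∀ (w : Var m n → ℝ) (f : Fin m → Var m n),
          aeval w (∑ i : Fin m, X (vy i) * X (f i) : MvPolynomial (Var m n) ℤ) = ∑ i, w (vy i) * w (f i) := by
        intro w f
        rw [map_sum]
        refine sum_congr rfl fun j _ => ?_
        rw [map_mul, aeval_X, aeval_X]
      refine ⟨fun i => z (vy i), fun i => ?_, fun j => ?_, ?_⟩
      · have h2 := hz1 (X (vy i)) (by
          rw [gl, List.mem_append, List.mem_append, List.mem_ofFn]
          exact Or.inl (Or.inl ⟨i, rfl⟩))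
        rw [aeval_X, aeval_X] at h2
        rw [← sign_nonneg_iff, h2, sign_nonneg_iff, hx0]
        exact hy1 i
      · have h2 := hz1 (∑ i : Fin m, X (vy i) * X (vA i j)) (by
          rw [gl, List.mem_append, List.mem_append, List.mem_ofFn, List.mem_ofFn]
          exact Or.inl (Or.inr ⟨j, rfl⟩))
        rw [hs _ (fun i => vA i j), hs _ (fun i => vA i j)] at h2
        have h3 : ∑ i, x0 (vy i) * x0 (vA i j) = 0 := by
          rw [hx0]
          exact hy2 j
        rw [h3, sign_zero] at h2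
        exact sign_eq_zero_iff.1 h2
      · have h2 := hz1 (∑ i : Fin m, X (vy i) * X (vb i)) (by
          rw [gl, List.mem_append, List.mem_singleton]
          exact Or.inr rfl)
        rw [hs _ (fun i => vb i), hs _ (fun i => vb i)] at h2
        have h3 : 0 < ∑ i, x0 (vy i) * x0 (vb i) := by
          rw [hx0]
          exact hy3
        rw [sign_pos h3] at h2
        exact sign_eq_one_iff.1 h2
    exact ⟨fun h => absurd h h1, fun h => absurd h hF⟩

end Pool.Agent.K7.H40.GP
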